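import Pool.Agent.LCSV.ELa
import Pool.Agent.LCSV.ELrep
import Pool.Agent.LCSV.LcsB

/-!
# An isoperimetric inequality of Bobkov type for product measures

`J(E F) ≤ E √(J(F)² + Σ_i E_z |F(l) - F(l with z at place i)|²)`, `J(t) = t (1 - t)`, for functions
`F` with values in `[0, 1]`.
-/

namespace LCSA

open Finset LCSV

variable {β : Type*} [Fintype β] {mu : β → ℝ}

/-- the isoperimetric function -/
def J (t : ℝ) : ℝ := t * (1 - t)

/-- the square of the gradient -/
noncomputable def Sq (mu : β → ℝ) : ℕ → (List β → ℝ) → List β → ℝ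
  | 0, _, _ => 0
  | _ + 1, _, [] => 0
  | n + 1, F, b :: l => ∑ z, mu z * (F (b :: l) - F (z :: l)) ^ 2 + Sq mu n (fun l' => F (b :: l')) l

theorem Sq_nonneg (h : IsP mu) (n : ℕ) (F : List β → ℝ) (l : List β) : 0 ≤ Sq mu n F l := by
  induction n generalizing F l with
  | zero => exact le_refl _
  | succ n ih =>
    cases l with
    | nil => exact le_refl _
    | cons b l =>
      have h1 := ih (fun l' => F (b :: l')) l
      have h2 : 0 ≤ ∑ z, mu z * (F (b :: l) - F (z :: l)) ^ 2 :=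
        Finset.sum_nonneg fun z _ => mul_nonneg (h.nonneg z) (sq_nonneg _)
      show 0 ≤ ∑ z, mu z * (F (b :: l) - F (z :: l)) ^ 2 + Sq mu n (fun l' => F (b :: l')) l
      linarith

theorem Sq_le (h : IsP mu) (n : ℕ) (F G : List β → ℝ) (hG : ∀ l, 0 ≤ G l)
    (hFG : ∀ (l1 l2 : List β) (a b : β), (F (l1 ++ a :: l2) - F (l1 ++ b :: l2)) ^ 2 ≤
      G (l1 ++ a :: l2)) (l : List β) : Sq mu n F l ≤ n * G l := by
  induction n generalizing F G l with
  | zero =>
    show (0 : ℝ) ≤ _
    simp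
  | succ n ih =>
    cases l with
    | nil =>
      show (0 : ℝ) ≤ _
      exact mul_nonneg (Nat.cast_nonneg _) (hG _)
    | cons b l =>
      have h1 := ih (fun l' => F (b :: l')) (fun l' => G (b :: l')) (fun l' => hG _)
        (fun l1 l2 a a' => hFG (b :: l1) l2 a a') l
      have h2 : ∑ z, mu z * (F (b :: l) - F (z :: l)) ^ 2 ≤ G (b :: l) := by
        calc ∑ z, mu z * (F (b :: l) - F (z :: l)) ^ 2 ≤ ∑ z, mu z * G (b :: l) :=
              Finset.sum_le_sum fun z _ => mul_le_mul_of_nonneg_left (hFG [] l b z) (h.nonneg z)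
          _ = G (b :: l) := by rw [← Finset.sum_mul, h.sum_one, one_mul]
      show ∑ z, mu z * (F (b :: l) - F (z :: l)) ^ 2 + Sq mu n (fun l' => F (b :: l')) l ≤ _
      push_cast
      linarith

/-- the one dimensional inequality -/
theorem bob_one (h : IsP mu) (f : β → ℝ) (h0 : ∀ x, 0 ≤ f x) (h1 : ∀ x, f x ≤ 1) :
    J (∑ x, mu x * f x) ≤ ∑ x, mu x * √(J (f x) ^ 2 + ∑ z, mu z * (f x - f z) ^ 2) := by
  set m := ∑ x, mu x * f x with hm
  have hs := h.sum_one
  have hm0 : 0 ≤ m := Finset.sum_nonneg fun x _ => mul_nonneg (h.nonneg x) (h0 x)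
  have hm1 : m ≤ 1 := by
    calc m ≤ ∑ x, mu x * 1 := Finset.sum_le_sum fun x _ => mul_le_mul_of_nonneg_left (h1 x) (h.nonneg x)
      _ = 1 := by simp [hs]
  have hq : ∀ x, ∑ z, mu z * (f x - f z) ^ 2 = f x ^ 2 - 2 * f x * m + ∑ z, mu z * f z ^ 2 := by
    intro x
    have e : ∀ z, mu z * (f x - f z) ^ 2 = f x ^ 2 * mu z - 2 * f x * (mu z * f z) +
      mu z * f z ^ 2 := fun z => by ring
    rw [Finset.sum_congr rfl fun z _ => e z, Finset.sum_add_distrib, Finset.sum_sub_distrib,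
      ← Finset.mul_sum, ← Finset.mul_sum, hs, mul_one]
  have hq1 : ∀ x, ∑ z, mu z * (f x - f z) ^ 2 ≤ 1 := by
    intro x
    calc ∑ z, mu z * (f x - f z) ^ 2 ≤ ∑ z, mu z * 1 := by
          refine Finset.sum_le_sum fun z _ => mul_le_mul_of_nonneg_left ?_ (h.nonneg z)
          have := h0 x
          have := h1 x
          have := h0 z
          have := h1 z
          rw [sq_le_one_iff_abs_le_one, abs_le]
          constructor <;> linarith
      _ = 1 := by simp [hs]
  have hq0 : ∀ x, 0 ≤ ∑ z, mu z * (f x - f z) ^ 2 := fun x =>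
    Finset.sum_nonneg fun z _ => mul_nonneg (h.nonneg z) (sq_nonneg _)
  have key : ∀ x, J (f x) + (f x ^ 2 - 2 * f x * m + ∑ z, mu z * f z ^ 2) / 2 ≤
      √(J (f x) ^ 2 + ∑ z, mu z * (f x - f z) ^ 2) := by
    intro x
    rw [← hq x]
    set q := ∑ z, mu z * (f x - f z) ^ 2 with hqq
    have hJ0 : 0 ≤ J (f x) := mul_nonneg (h0 x) (by linarith [h1 x])
    have hJ1 : J (f x) ≤ 1 / 4 := by
      unfold J
      nlinarith [sq_nonneg (f x - 1 / 2)]
    apply Real.le_sqrt_of_sq_le
    have := hq0 x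
    have := hq1 x
    nlinarith
  calc J m = ∑ x, mu x * (J (f x) + (f x ^ 2 - 2 * f x * m + ∑ z, mu z * f z ^ 2) / 2) := by
        have e : ∀ x, mu x * (J (f x) + (f x ^ 2 - 2 * f x * m + ∑ z, mu z * f z ^ 2) / 2) =
            mu x * f x - (mu x * f x ^ 2) / 2 - m * (mu x * f x) +
              (∑ z, mu z * f z ^ 2) / 2 * mu x := fun x => by
          unfold J
          ring
        rw [Finset.sum_congr rfl fun x _ => e x, Finset.sum_add_distrib, Finset.sum_sub_distrib,
          Finset.sum_sub_distrib, ← Finset.mul_sum, ← Finset.mul_sum, hs, ← hm,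
          ← Finset.sum_div]
        unfold J
        ring
    _ ≤ _ := Finset.sum_le_sum fun x _ => mul_le_mul_of_nonneg_left (key x) (h.nonneg x)

/-- Minkowski -/
theorem mink (h : IsP mu) (n : ℕ) {ι : Type*} [Fintype ι] (w : ι → ℝ) (hw : ∀ i, 0 ≤ w i)
    (A : List β → ℝ) (B : ι → List β → ℝ) :
    √((EL mu n A) ^ 2 + ∑ i, w i * (EL mu n (B i)) ^ 2) ≤
      EL mu n (fun l => √(A l ^ 2 + ∑ i, w i * (B i l) ^ 2)) := by
  set N := √((EL mu n A) ^ 2 + ∑ i, w i * (EL mu n (B i)) ^ 2) with hN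
  have hN0 : 0 ≤ N := Real.sqrt_nonneg _
  have hs0 : 0 ≤ (EL mu n A) ^ 2 + ∑ i, w i * (EL mu n (B i)) ^ 2 :=
    add_nonneg (sq_nonneg _) (Finset.sum_nonneg fun i _ => mul_nonneg (hw i) (sq_nonneg _))
  have hN2 : N ^ 2 = (EL mu n A) ^ 2 + ∑ i, w i * (EL mu n (B i)) ^ 2 := Real.sq_sqrt hs0
  have hR0 : 0 ≤ EL mu n (fun l => √(A l ^ 2 + ∑ i, w i * (B i l) ^ 2)) :=
    EL_nonneg h fun l _ => Real.sqrt_nonneg _
  have h1 : N ^ 2 = EL mu n (fun l => EL mu n A * A l + ∑ i, w i * EL mu n (B i) * B i l) := by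
    rw [EL_add, EL_mul_left, EL_sum, hN2]
    congr 1
    · ring
    · refine Finset.sum_congr rfl fun i _ => ?_
      rw [EL_mul_left]
      ring
  have h2 : N ^ 2 ≤ N * EL mu n (fun l => √(A l ^ 2 + ∑ i, w i * (B i l) ^ 2)) := by
    rw [h1, ← EL_mul_left]
    apply EL_mono h
    intro l _
    have hT0 : 0 ≤ A l ^ 2 + ∑ i, w i * (B i l) ^ 2 :=
      add_nonneg (sq_nonneg _) (Finset.sum_nonneg fun i _ => mul_nonneg (hw i) (sq_nonneg _))
    rw [hN, ← Real.sqrt_mul hs0]
    apply Real.le_sqrt_of_sq_le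
    have hcs := Finset.sum_sq_le_sum_mul_sum_of_sq_le_mul (univ : Finset (Option ι))
      (r := fun o => o.elim (EL mu n A * A l) (fun i => w i * EL mu n (B i) * B i l))
      (f := fun o => o.elim ((EL mu n A) ^ 2) (fun i => w i * (EL mu n (B i)) ^ 2))
      (g := fun o => o.elim (A l ^ 2) (fun i => w i * (B i l) ^ 2))
      (fun o _ => by
        cases o with
        | none => exact sq_nonneg _
        | some i => exact mul_nonneg (hw i) (sq_nonneg _))
      (fun o _ => by
        cases o with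
        | none => exact sq_nonneg _
        | some i => exact mul_nonneg (hw i) (sq_nonneg _))
      (fun o _ => by
        cases o with
        | none =>
          show (EL mu n A * A l) ^ 2 ≤ (EL mu n A) ^ 2 * A l ^ 2
          exact le_of_eq (by ring)
        | some i =>
          show (w i * EL mu n (B i) * B i l) ^ 2 ≤ w i * (EL mu n (B i)) ^ 2 * (w i * (B i l) ^ 2)
          exact le_of_eq (by ring))
    rw [Fintype.sum_option, Fintype.sum_option, Fintype.sum_option] at hcs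
    exact hcs
  rcases hN0.eq_or_lt with h3 | h3
  · rw [← h3]
    exact hR0
  · have h4 : N * N ≤ N * EL mu n (fun l => √(A l ^ 2 + ∑ i, w i * (B i l) ^ 2)) := by
      rw [← sq]
      exact h2
    exact le_of_mul_le_mul_left h4 h3

/-- **the inequality of Bobkov type** -/
theorem bob (h : IsP mu) (n : ℕ) (F : List β → ℝ) (h0 : ∀ l, 0 ≤ F l) (h1 : ∀ l, F l ≤ 1) :
    J (EL mu n F) ≤ EL mu n (fun l => √(J (F l) ^ 2 + Sq mu n F l)) := by
  induction n generalizing F with
  | zero =>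
    show J (F []) ≤ √(J (F []) ^ 2 + 0)
    rw [add_zero]
    exact Real.le_sqrt_of_sq_le le_rfl
  | succ n ih =>
    set g : β → ℝ := fun b => EL mu n (fun l => F (b :: l)) with hg
    have hg0 : ∀ b, 0 ≤ g b := fun b => EL_nonneg h fun l _ => h0 _
    have hg1 : ∀ b, g b ≤ 1 := fun b => by
      have := EL_mono (mu := mu) h (n := n) (F := fun l => F (b :: l)) (G := fun _ => (1 : ℝ))
        (fun l _ => h1 _)
      rwa [EL_const h] at this
    have e1 := bob_one h g hg0 hg1
    show J (∑ b, mu b * g b) ≤ ∑ b, mu b * EL mu n (fun l => √(J (F (b :: l)) ^ 2 +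
      (∑ z, mu z * (F (b :: l) - F (z :: l)) ^ 2 + Sq mu n (fun l' => F (b :: l')) l)))
    refine e1.trans (Finset.sum_le_sum fun b _ => mul_le_mul_of_nonneg_left ?_ (h.nonneg b))
    have e2 := ih (fun l => F (b :: l)) (fun l => h0 _) (fun l => h1 _)
    set A : List β → ℝ := fun l => √(J (F (b :: l)) ^ 2 + Sq mu n (fun l' => F (b :: l')) l) with hA
    have e3 := mink h n mu h.nonneg A (fun z l => F (b :: l) - F (z :: l))
    have hJ0 : 0 ≤ J (g b) := mul_nonneg (hg0 b) (by linarith [hg1 b])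
    have e4 : J (g b) ^ 2 ≤ (EL mu n A) ^ 2 := pow_le_pow_left₀ hJ0 e2 2
    have e5 : ∀ z, EL mu n (fun l => F (b :: l) - F (z :: l)) = g b - g z := fun z => by
      rw [EL_sub]
    simp only [e5] at e3
    refine le_trans (Real.sqrt_le_sqrt (by linarith)) (e3.trans (le_of_eq ?_))
    apply EL_congr
    intro l _
    congr 1
    rw [hA]
    simp only
    rw [Real.sq_sqrt (add_nonneg (sq_nonneg _) (Sq_nonneg h _ _ _))]
    ring

/-- the isoperimetric inequality for a function with differences at most one -/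
theorem iso (h : IsP mu) (n : ℕ) (L : List β → ℕ)
    (hL : ∀ (l1 l2 : List β) (a b : β), L (l1 ++ a :: l2) ≤ L (l1 ++ b :: l2) + 1) (m : ℕ) :
    J (EL mu n (fun l => ind (m + 1 ≤ L l))) ≤
      √(n : ℝ) * EL mu n (fun l => ind (L l = m ∨ L l = m + 1)) := by
  set F : List β → ℝ := fun l => ind (m + 1 ≤ L l) with hF
  set G : List β → ℝ := fun l => ind (L l = m ∨ L l = m + 1) with hG
  have hi0 : ∀ P : Prop, 0 ≤ ind P := fun P => by
    unfold ind
    split_ifs <;> norm_num
  have hi1 : ∀ P : Prop, ind P ≤ 1 := fun P => by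
    unfold ind
    split_ifs <;> norm_num
  have h1 := bob h n F (fun l => hi0 _) (fun l => hi1 _)
  have hJ : ∀ l, J (F l) = 0 := by
    intro l
    show J (ind (m + 1 ≤ L l)) = 0
    unfold J ind
    split_ifs <;> norm_num
  have hS : ∀ l, Sq mu n F l ≤ n * G l := by
    apply Sq_le h n F G (fun l => hi0 _)
    intro l1 l2 a b
    have h2 := hL l1 l2 a b
    have h3 := hL l1 l2 b a
    show (ind (m + 1 ≤ L (l1 ++ a :: l2)) - ind (m + 1 ≤ L (l1 ++ b :: l2))) ^ 2 ≤
      ind (L (l1 ++ a :: l2) = m ∨ L (l1 ++ a :: l2) = m + 1)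
    unfold ind
    split_ifs with h4 h5 h6 h7 <;> first | norm_num; done | (exfalso; omega)
  rw [← EL_mul_left]
  refine h1.trans (EL_mono h fun l _ => ?_)
  rw [hJ l]
  have e : √(n : ℝ) * G l = √(n * G l) := by
    rw [Real.sqrt_mul (Nat.cast_nonneg n)]
    congr 1
    show ind (L l = m ∨ L l = m + 1) = √(ind (L l = m ∨ L l = m + 1))
    unfold ind
    split_ifs <;> simp
  rw [e]
  apply Real.sqrt_le_sqrt
  have := hS l
  linarith

end LCSA
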