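import Pool.Agent.LCSV.Etil

/-!
# Comparison of the law with parameter p and the laws with parameters p + h and p - h

`(1 - h²/p²)^N (E_p H)² ≤ E_{p+h} H * E_{p-h} H` for `H ≥ 0` (Cauchy-Schwarz, induction), so
`E_p H ≤ E_{p+h} H + E_{p-h} H` if `2 N h² ≤ p²`.
-/

namespace LCSA

open Finset LCSV

theorem cmp_weight {β : Type*} [Fintype β] [DecidableEq β] (hβ : 2 ≤ Fintype.card β) (w : β)
    (p h : ℝ) (hp0 : 0 < p) (hp : p ≤ 1 / 2) (x : β) :
    (1 - h ^ 2 / p ^ 2) * (nuw w p x) ^ 2 ≤ nuw w (p + h) x * nuw w (p - h) x := by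
  have hc : (2 : ℝ) ≤ (Fintype.card β : ℝ) := by exact_mod_cast hβ
  unfold nuw
  split_ifs with hx
  · have : (1 - h ^ 2 / p ^ 2) * p ^ 2 = (p + h) * (p - h) := by
      field_simp
      ring
    exact this.le
  · set q : ℝ := (Fintype.card β : ℝ) - 1 with hq
    have hq0 : 0 < q := by linarith
    have e1 : (1 - h ^ 2 / p ^ 2) * ((1 - p) / q) ^ 2 =
        ((1 - h ^ 2 / p ^ 2) * (1 - p) ^ 2) / q ^ 2 := by rw [div_pow, mul_div_assoc]
    have e2 : (1 - (p + h)) / q * ((1 - (p - h)) / q) = ((1 - p) ^ 2 - h ^ 2) / q ^ 2 := by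
      field_simp
      ring
    rw [e1, e2]
    apply div_le_div_of_nonneg_right _ (by positivity)
    have h1 : h ^ 2 ≤ h ^ 2 / p ^ 2 * (1 - p) ^ 2 := by
      rw [div_mul_eq_mul_div, le_div_iff₀ (by positivity)]
      apply mul_le_mul_of_nonneg_left _ (sq_nonneg h)
      apply pow_le_pow_left₀ hp0.le
      linarith
    nlinarith

theorem cmp_sq {β : Type*} [Fintype β] [DecidableEq β] (hβ : 2 ≤ Fintype.card β) (w : β)
    (p h : ℝ) (hp0 : 0 < p) (hp : p ≤ 1 / 2) (h0 : 0 ≤ h) (hh : h ≤ p) (N : ℕ)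
    (H : List β → ℝ) (hH : ∀ l, 0 ≤ H l) :
    (1 - h ^ 2 / p ^ 2) ^ N * (EL (nuw w p) N H) ^ 2 ≤
      EL (nuw w (p + h)) N H * EL (nuw w (p - h)) N H := by
  have hr0 : 0 ≤ 1 - h ^ 2 / p ^ 2 := by
    rw [sub_nonneg, div_le_one (by positivity)]
    exact pow_le_pow_left₀ h0 hh 2
  have hP1 := nuw_isP hβ w (p + h) (by linarith) (by linarith)
  have hP2 := nuw_isP hβ w (p - h) (by linarith) (by linarith)
  induction N generalizing H with
  | zero =>
    show (1 - h ^ 2 / p ^ 2) ^ 0 * (H []) ^ 2 ≤ H [] * H []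
    rw [pow_zero, one_mul, sq]
  | succ N ih =>
    set r : ℝ := 1 - h ^ 2 / p ^ 2 with hr
    show r ^ (N + 1) * (∑ x, nuw w p x * EL (nuw w p) N (fun l => H (x :: l))) ^ 2 ≤
      (∑ x, nuw w (p + h) x * EL (nuw w (p + h)) N (fun l => H (x :: l))) *
      (∑ x, nuw w (p - h) x * EL (nuw w (p - h)) N (fun l => H (x :: l)))
    have h1 := Finset.sum_sq_le_sum_mul_sum_of_sq_le_mul Finset.univ
      (r := fun x => √(r ^ (N + 1)) * (nuw w p x * EL (nuw w p) N (fun l => H (x :: l))))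
      (f := fun x => nuw w (p + h) x * EL (nuw w (p + h)) N (fun l => H (x :: l)))
      (g := fun x => nuw w (p - h) x * EL (nuw w (p - h)) N (fun l => H (x :: l)))
      (fun x _ => mul_nonneg (hP1.nonneg x) (EL_nonneg hP1 fun l _ => hH _))
      (fun x _ => mul_nonneg (hP2.nonneg x) (EL_nonneg hP2 fun l _ => hH _))
      (fun x _ => by
        have h2 := ih (fun l => H (x :: l)) (fun l => hH _)
        have h3 := cmp_weight hβ w p h hp0 hp x
        have h4 : (√(r ^ (N + 1)) * (nuw w p x * EL (nuw w p) N (fun l => H (x :: l)))) ^ 2 =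
            (r * (nuw w p x) ^ 2) * (r ^ N * (EL (nuw w p) N (fun l => H (x :: l))) ^ 2) := by
          rw [mul_pow, Real.sq_sqrt (pow_nonneg hr0 _)]
          ring
        show (√(r ^ (N + 1)) * (nuw w p x * EL (nuw w p) N (fun l => H (x :: l)))) ^ 2 ≤
          (nuw w (p + h) x * EL (nuw w (p + h)) N (fun l => H (x :: l))) *
          (nuw w (p - h) x * EL (nuw w (p - h)) N (fun l => H (x :: l)))
        rw [h4]
        have h5 : 0 ≤ r ^ N * (EL (nuw w p) N (fun l => H (x :: l))) ^ 2 := by positivity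
        have h6 : 0 ≤ nuw w (p + h) x * nuw w (p - h) x :=
          mul_nonneg (hP1.nonneg x) (hP2.nonneg x)
        refine (mul_le_mul h3 h2 h5 h6).trans (le_of_eq ?_)
        ring)
    have h2 : (∑ x, √(r ^ (N + 1)) * (nuw w p x * EL (nuw w p) N (fun l => H (x :: l)))) ^ 2 =
        r ^ (N + 1) * (∑ x, nuw w p x * EL (nuw w p) N (fun l => H (x :: l))) ^ 2 := by
      rw [← Finset.mul_sum, mul_pow, Real.sq_sqrt (pow_nonneg hr0 _)]
    rw [← h2]
    exact h1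

/-- comparison with the two neighbouring parameters -/
theorem cmp {β : Type*} [Fintype β] [DecidableEq β] (hβ : 2 ≤ Fintype.card β) (w : β)
    (p h : ℝ) (hp0 : 0 < p) (hp : p ≤ 1 / 2) (h0 : 0 ≤ h) (N : ℕ) (hN : 2 * N * h ^ 2 ≤ p ^ 2)
    (hh : h ≤ p) (H : List β → ℝ) (hH : ∀ l, 0 ≤ H l) :
    EL (nuw w p) N H ≤ EL (nuw w (p + h)) N H + EL (nuw w (p - h)) N H := by
  have hP1 := nuw_isP hβ w (p + h) (by linarith) (by linarith)
  have hP2 := nuw_isP hβ w (p - h) (by linarith) (by linarith)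
  have h1 := cmp_sq hβ w p h hp0 hp h0 hh N H hH
  have hr0 : h ^ 2 / p ^ 2 ≤ 1 := by
    rw [div_le_one (by positivity)]
    exact pow_le_pow_left₀ h0 hh 2
  have h2 : 1 + N * (-(h ^ 2 / p ^ 2)) ≤ (1 + -(h ^ 2 / p ^ 2)) ^ N :=
    one_add_mul_le_pow (by linarith) N
  have h3 : (N : ℝ) * (h ^ 2 / p ^ 2) ≤ 1 / 2 := by
    rw [mul_div_assoc', div_le_iff₀ (by positivity)]
    linarith
  have h4 : 1 / 2 ≤ (1 - h ^ 2 / p ^ 2) ^ N := by
    rw [← sub_eq_add_neg] at h2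
    linarith
  set A := EL (nuw w (p + h)) N H with hA
  set B := EL (nuw w (p - h)) N H with hB
  have hA0 : 0 ≤ A := EL_nonneg hP1 fun l _ => hH _
  have hB0 : 0 ≤ B := EL_nonneg hP2 fun l _ => hH _
  have h5 : 1 / 2 * (EL (nuw w p) N H) ^ 2 ≤ A * B :=
    (mul_le_mul_of_nonneg_right h4 (sq_nonneg _)).trans h1
  have h6 : (EL (nuw w p) N H) ^ 2 ≤ (A + B) ^ 2 := by nlinarith [sq_nonneg (A - B)]
  exact abs_le_of_sq_le_sq' h6 (by positivity) |>.2

theorem Et_cmp {K k : ℕ} (hk : 2 ≤ k) (hK : 1 ≤ K) (w : Fin K → Fin k) (N r n : ℕ) (p h : ℝ)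
    (hp0 : 0 < p) (hp : p ≤ 1 / 2) (h0 : 0 ≤ h) (hN : 2 * N * h ^ 2 ≤ p ^ 2) (hh : h ≤ p)
    (F : List (Fin k) → List (Fin k) → ℝ) (hF : ∀ X Y, 0 ≤ F X Y) :
    Et w N r n p F ≤ Et w N r n (p + h) F + Et w N r n (p - h) F := by
  have hu : IsP (un k) := un_isP (by omega)
  exact cmp (etil_card_two hk hK) w p h hp0 hp h0 N hN hh
    (fun B => EL (un k) r (fun Z => EL (un k) n (fun Y => F (fl B ++ Z) Y)))
    (fun B => EL_nonneg hu fun Z _ => EL_nonneg hu fun Y _ => hF _ _)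

end LCSA
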