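import Pool.Agent.LCSA.Drift

/-!
# The probability of a value of the length is at most a multiple of that of the next value
-/

namespace LCSA

open Finset LCSV

theorem ind_nn (P : Prop) : 0 ≤ ind P := by
  unfold ind
  split_ifs <;> norm_num

theorem ind_le1 (P : Prop) : ind P ≤ 1 := by
  unfold ind
  split_ifs <;> norm_num

theorem ind_of {P : Prop} (h : P) : ind P = 1 := by
  unfold ind
  rw [if_pos h]

theorem ind_not {P : Prop} (h : ¬ P) : ind P = 0 := by
  unfold ind
  rw [if_neg h]

theorem ind_mono {P Q : Prop} (h : P → Q) : ind P ≤ ind Q := by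
  by_cases hP : P
  · rw [ind_of hP, ind_of (h hP)]
  · rw [ind_not hP]
    exact ind_nn Q

theorem repl_app {α : Type*} (K b : ℕ) (w A v B : List α) (hA : A.length = b * K)
    (hv : v.length = K) : repl K w b (A ++ (v ++ B)) = A ++ (w ++ B) := by
  unfold repl
  have h1 : (A ++ (v ++ B)).take (b * K) = A := by
    rw [← hA, List.take_left]
  have h2 : (A ++ (v ++ B)).drop ((b + 1) * K) = B := by
    have e : (b + 1) * K = A.length + v.length := by
      rw [hA, hv]
      ring
    rw [e, ← List.drop_drop, List.drop_left, List.drop_left]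
  rw [h1, h2]

/-- a block can be resampled -/
theorem EL_repl {k : ℕ} (hk : 0 < k) (n K b : ℕ) (hb : (b + 1) * K ≤ n) (F : List (Fin k) → ℝ) :
    ∑ v : Fin K → Fin k, EL (un k) n (fun X => F (repl K (List.ofFn v) b X)) =
      (k : ℝ) ^ K * EL (un k) n F := by
  have hu : IsP (un k) := un_isP hk
  have hk' : (0 : ℝ) < k := by exact_mod_cast hk
  obtain ⟨r, rfl⟩ : ∃ r, n = b * K + (K + r) := ⟨n - (b + 1) * K, by
    have e : (b + 1) * K = b * K + K := by ring
    omega⟩
  have h1 : ∀ v : Fin K → Fin k, EL (un k) (b * K + (K + r)) (fun X => F (repl K (List.ofFn v) b X)) =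
      EL (un k) (b * K) (fun A => EL (un k) r (fun B => F (A ++ (List.ofFn v ++ B)))) := by
    intro v
    rw [EL_append]
    apply EL_congr
    intro A hA
    rw [EL_append]
    have h2 : EL (un k) K (fun v' => EL (un k) r (fun B =>
        F (repl K (List.ofFn v) b (A ++ (v' ++ B))))) =
        EL (un k) K (fun _ => EL (un k) r (fun B => F (A ++ (List.ofFn v ++ B)))) := by
      apply EL_congr
      intro v' hv'
      apply EL_congr
      intro B _
      rw [repl_app K b _ A v' B hA hv']
    rw [h2, EL_const hu]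
  rw [Finset.sum_congr rfl fun v _ => h1 v, ← EL_sum, EL_append, ← EL_mul_left]
  apply EL_congr
  intro A _
  rw [EL_append, EL_un k K, ← mul_assoc, ← mul_pow, mul_one_div, div_self hk'.ne', one_pow, one_mul]

/-- a path of single letter changes attains all intermediate values -/
theorem path {α : Type*} (B Y : List α) (m : ℕ) (x w : List α) (A : List α)
    (hl : x.length = w.length) (h1 : lcs (A ++ (x ++ B)) Y ≤ m)
    (h2 : m + 1 ≤ lcs (A ++ (w ++ B)) Y) :
    ∃ v : List α, v.length = w.length ∧ lcs (A ++ (v ++ B)) Y = m + 1 := by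
  induction x generalizing w A with
  | nil =>
    have hw : w = [] := List.length_eq_zero_iff.1 hl.symm
    subst hw
    omega
  | cons a x ih =>
    cases w with
    | nil => simp at hl
    | cons c w =>
      have hl' : x.length = w.length := by simpa using hl
      by_cases h3 : m + 1 ≤ lcs (A ++ (a :: w ++ B)) Y
      · have e1 : A ++ (a :: w ++ B) = (A ++ [a]) ++ (w ++ B) := by simp
        have e2 : A ++ (a :: x ++ B) = (A ++ [a]) ++ (x ++ B) := by simp
        rw [e1] at h3
        rw [e2] at h1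
        obtain ⟨v, hv, h4⟩ := ih w (A ++ [a]) hl' h1 h3
        refine ⟨a :: v, by simp [hv], ?_⟩
        rw [← h4]
        congr 1
        simp
      · refine ⟨c :: w, rfl, ?_⟩
        have h4 := lcs_insert_le A (w ++ B) Y c
        have h5 := lcs_le_insert A (w ++ B) Y a
        have e3 : A ++ (c :: w ++ B) = A ++ c :: (w ++ B) := rfl
        have e4 : A ++ (a :: w ++ B) = A ++ a :: (w ++ B) := rfl
        rw [e4] at h3
        rw [e3] at h2 ⊢
        omega

theorem exists_block {k : ℕ} (K b m : ℕ) (w : Fin K → Fin k) (X Y : List (Fin k))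
    (hb : (b + 1) * K ≤ X.length) (h1 : lcs X Y = m)
    (h2 : m + 1 ≤ lcs (repl K (List.ofFn w) b X) Y) :
    ∃ v : Fin K → Fin k, lcs (repl K (List.ofFn v) b X) Y = m + 1 := by
  have e : (b + 1) * K = b * K + K := by ring
  set A := X.take (b * K) with hA
  set x := (X.drop (b * K)).take K with hx
  set B := X.drop ((b + 1) * K) with hB
  have hX : X = A ++ (x ++ B) := by
    rw [hB, e, ← List.drop_drop, hx, List.take_append_drop, hA, List.take_append_drop]
  have hAl : A.length = b * K := by
    rw [hA, List.length_take]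
    omega
  have hxl : x.length = K := by
    rw [hx, List.length_take, List.length_drop]
    omega
  have h3 : ∀ v : List (Fin k), repl K v b X = A ++ (v ++ B) := by
    intro v
    conv_lhs => rw [hX]
    exact repl_app K b v A x B hAl hxl
  rw [h3] at h2
  have h4 : lcs (A ++ (x ++ B)) Y ≤ m := by
    rw [← hX]
    exact h1.le
  obtain ⟨v, hv, h5⟩ := path B Y m x (List.ofFn w) A (by rw [hxl, List.length_ofFn]) h4 h2
  rw [List.length_ofFn] at hv
  subst hv
  refine ⟨v.get, ?_⟩
  rw [h3, List.ofFn_get]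
  exact h5

variable {k K : ℕ} {w : Fin K → Fin k} {p ε δ c : ℝ} {n0 : ℕ}

/-- the probability of the value `m` of the length -/
noncomputable def pm (k n m : ℕ) : ℝ :=
  EL (un k) n (fun X => EL (un k) n (fun Y => ind (lcs X Y = m)))

theorem pm_nn {k : ℕ} (hk : 0 < k) (n m : ℕ) : 0 ≤ pm k n m :=
  EL_nonneg (un_isP hk) fun _ _ => EL_nonneg (un_isP hk) fun _ _ => ind_nn _

theorem up_pt (hK : 1 ≤ K) (hd : 0 < δ) (n m : ℕ) (hn1 : 1 ≤ n) (X Y : List (Fin k))
    (hX : X.length = n) :
    ind (lcs X Y = m) ≤ ind (SD w n X Y < δ * n) + K / (δ * n) *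
      ∑ b ∈ range (n / K), ∑ v : Fin K → Fin k, ind (lcs (repl K (List.ofFn v) b X) Y = m + 1) := by
  have hn' : (0 : ℝ) < n := by exact_mod_cast hn1
  have hS : ∀ b, 0 ≤ ∑ v : Fin K → Fin k, ind (lcs (repl K (List.ofFn v) b X) Y = m + 1) :=
    fun b => Finset.sum_nonneg fun v _ => ind_nn _
  have hSS : 0 ≤ ∑ b ∈ range (n / K), ∑ v : Fin K → Fin k,
      ind (lcs (repl K (List.ofFn v) b X) Y = m + 1) := Finset.sum_nonneg fun b _ => hS b
  have hC : 0 ≤ K / (δ * n) * ∑ b ∈ range (n / K), ∑ v : Fin K → Fin k,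
      ind (lcs (repl K (List.ofFn v) b X) Y = m + 1) := mul_nonneg (by positivity) hSS
  by_cases hb : SD w n X Y < δ * n
  · have := ind_le1 (lcs X Y = m)
    rw [ind_of hb]
    linarith
  · by_cases hm : lcs X Y = m
    · rw [ind_of hm, ind_not hb, zero_add, div_mul_eq_mul_div, le_div_iff₀ (by positivity), one_mul]
      have hb' : δ * n ≤ SD w n X Y := not_lt.1 hb
      refine hb'.trans ?_
      unfold SD
      rw [Finset.mul_sum]
      refine Finset.sum_le_sum fun b hbr => ?_
      have hbN : (b + 1) * K ≤ X.length := by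
        have h1 : b + 1 ≤ n / K := by
          have := Finset.mem_range.1 hbr
          omega
        calc (b + 1) * K ≤ n / K * K := Nat.mul_le_mul_right K h1
          _ ≤ n := Nat.div_mul_le_self n K
          _ = X.length := hX.symm
      by_cases hD : m + 1 ≤ lcs (repl K (List.ofFn w) b X) Y
      · obtain ⟨v, hv⟩ := exists_block K b m w X Y hbN hm hD
        have h1 : 1 ≤ ∑ v : Fin K → Fin k, ind (lcs (repl K (List.ofFn v) b X) Y = m + 1) := by
          have h2 := Finset.single_le_sum (s := univ)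
            (f := fun v : Fin K → Fin k => ind (lcs (repl K (List.ofFn v) b X) Y = m + 1))
            (fun v _ => ind_nn _) (Finset.mem_univ v)
          rwa [ind_of hv] at h2
        have h3 := (abs_le.1 (repl_change w b X Y)).2
        have h4 : (K : ℝ) * 1 ≤ K * ∑ v : Fin K → Fin k,
            ind (lcs (repl K (List.ofFn v) b X) Y = m + 1) :=
          mul_le_mul_of_nonneg_left h1 (Nat.cast_nonneg _)
        linarith
      · have h1 : lcs (repl K (List.ofFn w) b X) Y ≤ lcs X Y := by omega
        have h2 : (lcs (repl K (List.ofFn w) b X) Y : ℝ) ≤ lcs X Y := by exact_mod_cast h1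
        have h3 := mul_nonneg (Nat.cast_nonneg K : (0 : ℝ) ≤ K) (hS b)
        linarith
    · rw [ind_not hm]
      have := ind_nn (SD w n X Y < δ * n)
      linarith

theorem up (h : Drift k K w p ε δ c n0) (n m : ℕ) (hn : n0 ≤ n) (hn1 : 1 ≤ n) :
    pm k n m ≤ (k : ℝ) ^ K / δ * pm k n (m + 1) + Real.exp (-(c * n)) := by
  have hk : 0 < k := by have := h.hk; omega
  have hu : IsP (un k) := un_isP hk
  have hd := h.hd
  have hK := h.hK
  have he0 := h.he0
  have hn' : (0 : ℝ) < n := by exact_mod_cast hn1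
  have hK0 : (0 : ℝ) < K := by exact_mod_cast hK
  have hbad := h.bad n hn p (by linarith) (by linarith)
  rw [h.hpe, Et_unif h.hk h.hK w, Nat.div_add_mod'] at hbad
  have h1 : pm k n m ≤ EL (un k) n (fun X => EL (un k) n (fun Y => ind (SD w n X Y < δ * n) +
      K / (δ * n) * ∑ b ∈ range (n / K), ∑ v : Fin K → Fin k,
        ind (lcs (repl K (List.ofFn v) b X) Y = m + 1))) :=
    EL_mono hu fun X hX => EL_mono hu fun Y _ => up_pt hK hd n m hn1 X Y hX
  have h2 : EL (un k) n (fun X => EL (un k) n (fun Y => ind (SD w n X Y < δ * n) +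
      K / (δ * n) * ∑ b ∈ range (n / K), ∑ v : Fin K → Fin k,
        ind (lcs (repl K (List.ofFn v) b X) Y = m + 1))) =
      EL (un k) n (fun X => EL (un k) n (fun Y => ind (SD w n X Y < δ * n))) +
      K / (δ * n) * ∑ b ∈ range (n / K), ∑ v : Fin K → Fin k,
        EL (un k) n (fun X => (fun X' => EL (un k) n (fun Y => ind (lcs X' Y = m + 1)))
          (repl K (List.ofFn v) b X)) := by
    simp only [EL_add, EL_mul_left, EL_sum]
  have h3 : ∑ b ∈ range (n / K), ∑ v : Fin K → Fin k,
        EL (un k) n (fun X => (fun X' => EL (un k) n (fun Y => ind (lcs X' Y = m + 1)))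
          (repl K (List.ofFn v) b X)) = (n / K : ℕ) * ((k : ℝ) ^ K * pm k n (m + 1)) := by
    have h4 : ∀ b ∈ range (n / K), ∑ v : Fin K → Fin k,
        EL (un k) n (fun X => (fun X' => EL (un k) n (fun Y => ind (lcs X' Y = m + 1)))
          (repl K (List.ofFn v) b X)) = (k : ℝ) ^ K * pm k n (m + 1) := by
      intro b hbr
      exact EL_repl hk n K b (by
        have h1 : b + 1 ≤ n / K := by
          have := Finset.mem_range.1 hbr
          omega
        exact (Nat.mul_le_mul_right K h1).trans (Nat.div_mul_le_self n K))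
        (fun X' => EL (un k) n (fun Y => ind (lcs X' Y = m + 1)))
    rw [Finset.sum_congr rfl h4, Finset.sum_const, Finset.card_range, nsmul_eq_mul]
  rw [h2, h3] at h1
  refine h1.trans ?_
  have h4 : (K : ℝ) / (δ * n) * ((n / K : ℕ) * ((k : ℝ) ^ K * pm k n (m + 1))) ≤
      (k : ℝ) ^ K / δ * pm k n (m + 1) := by
    have h5 : (K : ℝ) * (n / K : ℕ) ≤ n := by
      exact_mod_cast (by rw [mul_comm]; exact Nat.div_mul_le_self n K : K * (n / K) ≤ n)
    have h6 : (K : ℝ) / (δ * n) * ((n / K : ℕ) * ((k : ℝ) ^ K * pm k n (m + 1))) =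
        (K * (n / K : ℕ)) / n * ((k : ℝ) ^ K / δ * pm k n (m + 1)) := by
      field_simp
    rw [h6]
    have h7 : ((K : ℝ) * (n / K : ℕ)) / n ≤ 1 := by
      rw [div_le_one hn']
      exact h5
    have h8 : 0 ≤ (k : ℝ) ^ K / δ * pm k n (m + 1) :=
      mul_nonneg (by positivity) (pm_nn hk _ _)
    calc _ ≤ 1 * ((k : ℝ) ^ K / δ * pm k n (m + 1)) := mul_le_mul_of_nonneg_right h7 h8
      _ = _ := one_mul _
  linarith

end LCSA
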