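import Pool.Agent.LCSV.LimD
import Pool.Agent.LCSA.Up

/-!
# Intervals under a limit law of integer valued variables with local estimates
-/

namespace LCSA

open Finset Filter Topology MeasureTheory LCSV

theorem av_sum {Ω : Type} [Fintype Ω] (p : Ω → ℝ) {ι : Type*} (s : Finset ι) (F : ι → Ω → ℝ) :
    av p (fun ω => ∑ i ∈ s, F i ω) = ∑ i ∈ s, av p (F i) := by
  unfold av
  rw [Finset.sum_comm]
  refine Finset.sum_congr rfl fun ω _ => ?_
  rw [Finset.mul_sum]

theorem ind_int (z : ℤ) (α β : ℝ) :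
    ind (α ≤ z ∧ (z : ℝ) ≤ β) = ∑ q ∈ Finset.Icc ⌈α⌉ ⌊β⌋, ind (z = q) := by
  by_cases h : α ≤ z ∧ (z : ℝ) ≤ β
  · rw [ind_of h]
    have hz : z ∈ Finset.Icc ⌈α⌉ ⌊β⌋ := by
      rw [Finset.mem_Icc]
      exact ⟨Int.ceil_le.2 h.1, Int.le_floor.2 h.2⟩
    rw [Finset.sum_eq_single z]
    · exact (ind_of rfl).symm
    · intro q _ hq
      exact ind_not (Ne.symm hq)
    · intro h1
      exact absurd hz h1
  · rw [ind_not h]
    symm
    apply Finset.sum_eq_zero
    intro q hq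
    apply ind_not
    rintro rfl
    apply h
    rw [Finset.mem_Icc] at hq
    exact ⟨Int.ceil_le.1 hq.1, Int.le_floor.1 hq.2⟩

theorem av_int_upper {Ω : Type} [Fintype Ω] (p : Ω → ℝ) (Z : Ω → ℤ) (α β B : ℝ) (hαβ : α ≤ β)
    (hB0 : 0 ≤ B) (hB : ∀ q : ℤ, α ≤ q → q ≤ β → av p (fun ω => ind (Z ω = q)) ≤ B) :
    av p (fun ω => ind (α ≤ Z ω ∧ (Z ω : ℝ) ≤ β)) ≤ (β - α + 1) * B := by
  have e : (fun ω => ind (α ≤ Z ω ∧ (Z ω : ℝ) ≤ β)) =
      fun ω => ∑ q ∈ Finset.Icc ⌈α⌉ ⌊β⌋, ind (Z ω = q) := by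
    funext ω
    exact ind_int _ _ _
  rw [e, av_sum]
  calc ∑ q ∈ Finset.Icc ⌈α⌉ ⌊β⌋, av p (fun ω => ind (Z ω = q))
      ≤ ∑ q ∈ Finset.Icc ⌈α⌉ ⌊β⌋, B := by
        refine Finset.sum_le_sum fun q hq => ?_
        rw [Finset.mem_Icc] at hq
        exact hB q (Int.ceil_le.1 hq.1) (Int.le_floor.1 hq.2)
    _ = ((⌊β⌋ + 1 - ⌈α⌉).toNat : ℝ) * B := by
        rw [Finset.sum_const, Int.card_Icc, nsmul_eq_mul]
    _ ≤ (β - α + 1) * B := by
        apply mul_le_mul_of_nonneg_right _ hB0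
        rcases le_or_gt 0 (⌊β⌋ + 1 - ⌈α⌉) with h | h
        · have h1 : (((⌊β⌋ + 1 - ⌈α⌉).toNat : ℕ) : ℝ) = ((⌊β⌋ + 1 - ⌈α⌉ : ℤ) : ℝ) := by
            exact_mod_cast congrArg (fun z : ℤ => (z : ℝ)) (Int.toNat_of_nonneg h)
          rw [h1]
          push_cast
          have h2 := Int.floor_le β
          have h3 := Int.le_ceil α
          linarith
        · rw [Int.toNat_of_nonpos h.le]
          push_cast
          linarith

theorem av_int_lower {Ω : Type} [Fintype Ω] (p : Ω → ℝ) (Z : Ω → ℤ) (α β B : ℝ)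
    (hB0 : 0 ≤ B) (hB : ∀ q : ℤ, α ≤ q → q ≤ β → B ≤ av p (fun ω => ind (Z ω = q))) :
    (β - α - 1) * B ≤ av p (fun ω => ind (α ≤ Z ω ∧ (Z ω : ℝ) ≤ β)) := by
  have e : (fun ω => ind (α ≤ Z ω ∧ (Z ω : ℝ) ≤ β)) =
      fun ω => ∑ q ∈ Finset.Icc ⌈α⌉ ⌊β⌋, ind (Z ω = q) := by
    funext ω
    exact ind_int _ _ _
  rw [e, av_sum]
  calc (β - α - 1) * B ≤ ((⌊β⌋ + 1 - ⌈α⌉).toNat : ℝ) * B := by
        apply mul_le_mul_of_nonneg_right _ hB0
        have h1 : ((⌊β⌋ + 1 - ⌈α⌉ : ℤ) : ℝ) ≤ (((⌊β⌋ + 1 - ⌈α⌉).toNat : ℕ) : ℝ) := by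
          exact_mod_cast Int.self_le_toNat (⌊β⌋ + 1 - ⌈α⌉)
        refine le_trans ?_ h1
        push_cast
        have h2 := Int.lt_floor_add_one β
        have h3 := Int.ceil_lt_add_one α
        linarith
    _ = ∑ q ∈ Finset.Icc ⌈α⌉ ⌊β⌋, B := by
        rw [Finset.sum_const, Int.card_Icc, nsmul_eq_mul]
    _ ≤ ∑ q ∈ Finset.Icc ⌈α⌉ ⌊β⌋, av p (fun ω => ind (Z ω = q)) := by
        refine Finset.sum_le_sum fun q hq => ?_
        rw [Finset.mem_Icc] at hq
        exact hB q (Int.ceil_le.1 hq.1) (Int.le_floor.1 hq.2)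

theorem sq_low (b x d : ℝ) : b ^ 2 * x ^ 2 / 2 - d ^ 2 ≤ (b * x + d) ^ 2 := by
  nlinarith [sq_nonneg (b * x + 2 * d)]

theorem sq_up (b x d : ℝ) : (b * x + d) ^ 2 ≤ 2 * (b ^ 2 * x ^ 2) + 2 * d ^ 2 := by
  nlinarith [sq_nonneg (b * x - d)]

theorem ev_sqrt {T : ℕ → ℝ} (hT : Tendsto T atTop atTop) (s : ℝ) :
    ∀ᶠ n : ℕ in atTop, s ≤ √(T n) :=
  (Real.tendsto_sqrt_atTop.comp hT).eventually_ge_atTop s

/-- upper bound for intervals -/
theorem dens_upper {Ω : ℕ → Type} [∀ n, Fintype (Ω n)] (p : ∀ n, Ω n → ℝ) (hp : ∀ n, IsP (p n))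
    (T : ℕ → ℝ) (hT : Tendsto T atTop atTop)
    (Z : ∀ n, Ω n → ℤ) (m : ℕ → ℝ) (c C : ℝ) (hc : 0 < c) (hC : 0 < C)
    (hloc : ∀ n : ℕ, 1 ≤ T n → ∀ q : ℤ, av (p n) (fun ω => ind (Z n ω = q)) ≤
      C / √(T n) * Real.exp (-(c * ((q : ℝ) - m n) ^ 2 / T n)))
    (a b : ℕ → ℝ) (μ : Measure ℝ) [IsProbabilityMeasure μ]
    (hlim : ∀ f : ℝ → ℝ, Continuous f → (∃ B, ∀ x, |f x| ≤ B) →
      Tendsto (fun n => av (p n) (fun ω => f (((Z n ω : ℝ) - a n) / b n))) atTop
        (𝓝 (∫ x, f x ∂μ)))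
    (c1 C1 : ℝ) (hc1 : 0 < c1) (hC1 : 0 < C1)
    (h1 : ∀ᶠ n : ℕ in atTop, c1 * √(T n) ≤ b n)
    (h2 : ∀ᶠ n : ℕ in atTop, b n ≤ C1 * √(T n) ∧ |a n - m n| ≤ C1 * √(T n))
    (u v x0 : ℝ) (hu : u ≤ x0) (hv : x0 ≤ v) (huv : v - u ≤ 1) :
    μ.real (Set.Icc u v) ≤ C1 * C * Real.exp (c * (2 * c1 ^ 2 + C1 ^ 2)) * (v - u) *
      Real.exp (-(c * c1 ^ 2 / 4 * x0 ^ 2)) := by
  set D : ℝ := Real.exp (c * (2 * c1 ^ 2 + C1 ^ 2)) with hD
  set E : ℝ := Real.exp (-(c * c1 ^ 2 / 4 * x0 ^ 2)) with hE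
  have hD0 : 0 < D := Real.exp_pos _
  have hE0 : 0 < E := Real.exp_pos _
  have key : ∀ η : ℝ, 0 < η → η ≤ 1 →
      μ.real (Set.Icc u v) ≤ C1 * C * D * (v - u + 3 * η) * E := by
    intro η hη0 hη1
    have hfc : Continuous (fun y : ℝ => max 0 (1 - max 0 (max (u - y) (y - v)) / η)) := by fun_prop
    have hf0 : ∀ y : ℝ, 0 ≤ max 0 (1 - max 0 (max (u - y) (y - v)) / η) := fun y =>
      le_max_left _ _
    have hf1 : ∀ y : ℝ, max 0 (1 - max 0 (max (u - y) (y - v)) / η) ≤ 1 := fun y => by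
      apply max_le zero_le_one
      have : 0 ≤ max 0 (max (u - y) (y - v)) / η := div_nonneg (le_max_left _ _) hη0.le
      linarith
    have hbd : ∃ B, ∀ y : ℝ, |max 0 (1 - max 0 (max (u - y) (y - v)) / η)| ≤ B := ⟨1, fun y => by
      rw [abs_of_nonneg (hf0 y)]
      exact hf1 y⟩
    have hint : μ.real (Set.Icc u v) ≤ ∫ y, max 0 (1 - max 0 (max (u - y) (y - v)) / η) ∂μ := by
      have e1 : ∫ x, (Set.Icc u v).indicator (fun _ => (1 : ℝ)) x ∂μ = μ.real (Set.Icc u v) := by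
        rw [integral_indicator measurableSet_Icc]
        simp
      rw [← e1]
      refine integral_mono_of_nonneg (Eventually.of_forall fun x =>
        Set.indicator_nonneg (fun _ _ => zero_le_one) x) ?_ (Eventually.of_forall fun x => ?_)
      · refine Integrable.mono' (integrable_const (1 : ℝ)) hfc.aestronglyMeasurable
          (Eventually.of_forall fun x => ?_)
        rw [Real.norm_eq_abs, abs_of_nonneg (hf0 x)]
        exact hf1 x
      · by_cases hx : x ∈ Set.Icc u v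
        · change (Set.Icc u v).indicator (fun _ => (1 : ℝ)) x ≤
            max 0 (1 - max 0 (max (u - x) (x - v)) / η)
          rw [Set.indicator_of_mem hx]
          have h3 : max (u - x) (x - v) ≤ 0 := max_le (by linarith [hx.1]) (by linarith [hx.2])
          rw [max_eq_left h3, zero_div, sub_zero]
          exact le_max_right _ _
        · change (Set.Icc u v).indicator (fun _ => (1 : ℝ)) x ≤
            max 0 (1 - max 0 (max (u - x) (x - v)) / η)
          rw [Set.indicator_of_notMem hx]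
          exact hf0 x
    refine hint.trans (le_of_tendsto (hlim _ hfc hbd) ?_)
    filter_upwards [h1, h2, hT.eventually_ge_atTop 1, ev_sqrt hT (1 / (C1 * η))] with n hn1 hn2 hn3 hn4
    have hn : 0 < T n := by linarith
    set y : ℝ := √(T n) with hy
    have hy0 : 0 < y := Real.sqrt_pos.2 hn
    have hyn : y ^ 2 = T n := Real.sq_sqrt hn.le
    have hbn : 0 < b n := (mul_pos hc1 hy0).trans_le hn1
    have h4 : av (p n) (fun ω => max 0 (1 - max 0 (max (u - ((Z n ω : ℝ) - a n) / b n)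
        (((Z n ω : ℝ) - a n) / b n - v)) / η)) ≤
        av (p n) (fun ω => ind (a n + b n * (u - η) ≤ Z n ω ∧
          (Z n ω : ℝ) ≤ a n + b n * (v + η))) := by
      apply av_mono (hp n)
      intro ω
      by_cases hcase : a n + b n * (u - η) ≤ Z n ω ∧ (Z n ω : ℝ) ≤ a n + b n * (v + η)
      · rw [ind_of hcase]
        exact hf1 _
      · rw [ind_not hcase]
        apply max_le le_rfl
        have h5 : η ≤ max 0 (max (u - ((Z n ω : ℝ) - a n) / b n)
            (((Z n ω : ℝ) - a n) / b n - v)) := by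
          rw [not_and_or, not_le, not_le] at hcase
          rcases hcase with h6 | h6
          · refine le_trans ?_ (le_max_right _ _)
            refine le_trans ?_ (le_max_left _ _)
            have h7 : ((Z n ω : ℝ) - a n) / b n ≤ u - η := by
              rw [div_le_iff₀ hbn]
              linarith
            linarith
          · refine le_trans ?_ (le_max_right _ _)
            refine le_trans ?_ (le_max_right _ _)
            have h7 : v + η ≤ ((Z n ω : ℝ) - a n) / b n := by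
              rw [le_div_iff₀ hbn]
              linarith
            linarith
        have h6 : 1 ≤ max 0 (max (u - ((Z n ω : ℝ) - a n) / b n)
            (((Z n ω : ℝ) - a n) / b n - v)) / η := by
          rw [le_div_iff₀ hη0]
          linarith
        linarith
    refine h4.trans ?_
    have h5 := av_int_upper (p n) (Z n) (a n + b n * (u - η)) (a n + b n * (v + η))
      (C / y * (D * E)) (by nlinarith) (by positivity) (fun q hq1 hq2 => by
        refine (hloc n hn3 q).trans ?_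
        apply mul_le_mul_of_nonneg_left _ (by positivity)
        rw [hD, hE, ← Real.exp_add]
        apply Real.exp_le_exp.2
        set x : ℝ := ((q : ℝ) - a n) / b n with hx
        have hxq : (q : ℝ) - m n = b n * x + (a n - m n) := by
          rw [hx]
          field_simp
          ring
        have hx1 : u - η ≤ x := by
          rw [hx, le_div_iff₀ hbn]
          linarith
        have hx2 : x ≤ v + η := by
          rw [hx, div_le_iff₀ hbn]
          linarith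
        have hxx : x0 ^ 2 / 2 - 4 ≤ x ^ 2 := by
          have h6 : (x0 - x) ^ 2 ≤ 2 ^ 2 := by
            apply sq_le_sq'
            · linarith
            · linarith
          nlinarith [sq_nonneg (x0 - 2 * x)]
        have h6 := sq_low (b n) x (a n - m n)
        have h7 : (a n - m n) ^ 2 ≤ C1 ^ 2 * T n := by
          rw [← sq_abs, ← hyn, ← mul_pow]
          exact pow_le_pow_left₀ (abs_nonneg _) hn2.2 2
        have h8 : c1 ^ 2 * T n ≤ (b n) ^ 2 := by
          rw [← hyn, ← mul_pow]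
          exact pow_le_pow_left₀ (by positivity) hn1 2
        have h9 : c1 ^ 2 * T n * x ^ 2 ≤ (b n) ^ 2 * x ^ 2 := mul_le_mul_of_nonneg_right h8 (sq_nonneg x)
        have h10 : c1 ^ 2 * T n * (x0 ^ 2 / 2 - 4) ≤ c1 ^ 2 * T n * x ^ 2 :=
          mul_le_mul_of_nonneg_left hxx (by positivity)
        have h11 : (c1 ^ 2 * x0 ^ 2 / 4 - 2 * c1 ^ 2 - C1 ^ 2) * T n ≤ ((q : ℝ) - m n) ^ 2 := by
          rw [hxq]
          nlinarith
        have h12 : c1 ^ 2 * x0 ^ 2 / 4 - 2 * c1 ^ 2 - C1 ^ 2 ≤ ((q : ℝ) - m n) ^ 2 / T n := by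
          rw [le_div_iff₀ hn]
          exact h11
        have h13 := mul_le_mul_of_nonneg_left h12 hc.le
        have e3 : c * ((q : ℝ) - m n) ^ 2 / T n = c * (((q : ℝ) - m n) ^ 2 / T n) := by ring
        rw [e3]
        linarith)
    refine h5.trans ?_
    have h6 : (a n + b n * (v + η) - (a n + b n * (u - η)) + 1) ≤ y * (C1 * (v - u + 3 * η)) := by
      have h7 : b n * (v - u + 2 * η) ≤ C1 * y * (v - u + 2 * η) :=
        mul_le_mul_of_nonneg_right hn2.1 (by linarith)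
      rw [div_le_iff₀ (by positivity)] at hn4
      nlinarith
    calc (a n + b n * (v + η) - (a n + b n * (u - η)) + 1) * (C / y * (D * E)) ≤
        y * (C1 * (v - u + 3 * η)) * (C / y * (D * E)) :=
          mul_le_mul_of_nonneg_right h6 (by positivity)
      _ = C1 * C * D * (v - u + 3 * η) * E := by
        field_simp
  -- let η tend to 0
  have hlim0 : Tendsto (fun j : ℕ => C1 * C * D * (v - u + 3 * (1 / ((j : ℝ) + 1))) * E) atTop
      (𝓝 (C1 * C * D * (v - u + 3 * 0) * E)) := by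
    have h3 : Tendsto (fun j : ℕ => 1 / ((j : ℝ) + 1)) atTop (𝓝 0) :=
      tendsto_one_div_add_atTop_nhds_zero_nat
    exact ((((h3.const_mul 3).const_add (v - u)).const_mul (C1 * C * D)).mul_const E)
  rw [mul_zero, add_zero] at hlim0
  refine ge_of_tendsto' hlim0 fun j => key _ (by positivity) ?_
  rw [div_le_one (by positivity)]
  have : (0 : ℝ) ≤ j := Nat.cast_nonneg j
  linarith

end LCSA
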