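import Pool.Agent.LCSA.DensA

/-!
# Lower bound for intervals under a limit law
-/

namespace LCSA

open Finset Filter Topology MeasureTheory LCSV

/-- lower bound for intervals -/
theorem dens_lower {Ω : ℕ → Type} [∀ n, Fintype (Ω n)] (p : ∀ n, Ω n → ℝ) (hp : ∀ n, IsP (p n))
    (T : ℕ → ℝ) (hT : Tendsto T atTop atTop)
    (Z : ∀ n, Ω n → ℤ) (m : ℕ → ℝ) (c C : ℝ) (hc : 0 < c) (hC : 0 < C)
    (hloc : ∀ n : ℕ, 1 ≤ T n → ∀ q : ℤ, |(q : ℝ) - m n| ≤ c * T n →
      c / √(T n) * Real.exp (-(C * ((q : ℝ) - m n) ^ 2 / T n)) ≤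
        av (p n) (fun ω => ind (Z n ω = q)))
    (a b : ℕ → ℝ) (μ : Measure ℝ) [IsProbabilityMeasure μ]
    (hlim : ∀ f : ℝ → ℝ, Continuous f → (∃ B, ∀ x, |f x| ≤ B) →
      Tendsto (fun n => av (p n) (fun ω => f (((Z n ω : ℝ) - a n) / b n))) atTop
        (𝓝 (∫ x, f x ∂μ)))
    (c1 C1 : ℝ) (hc1 : 0 < c1) (hC1 : 0 < C1)
    (h1 : ∀ᶠ n : ℕ in atTop, c1 * √(T n) ≤ b n)
    (h2 : ∀ᶠ n : ℕ in atTop, b n ≤ C1 * √(T n) ∧ |a n - m n| ≤ C1 * √(T n))
    (u v x0 : ℝ) (hu : u ≤ x0) (hv : x0 ≤ v) (huv : v - u ≤ 1) :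
    c1 * c * Real.exp (-(C * (6 * C1 ^ 2))) * (v - u) *
      Real.exp (-(4 * C * C1 ^ 2 * x0 ^ 2)) ≤ μ.real (Set.Ioc u v) := by
  set D : ℝ := Real.exp (-(C * (6 * C1 ^ 2))) with hD
  set E : ℝ := Real.exp (-(4 * C * C1 ^ 2 * x0 ^ 2)) with hE
  have hD0 : 0 < D := Real.exp_pos _
  have hE0 : 0 < E := Real.exp_pos _
  have key : ∀ η : ℝ, 0 < η → η ≤ 1 →
      c1 * c * D * (v - u - 3 * η) * E ≤ μ.real (Set.Ioc u v) := by
    intro η hη0 hη1
    rcases le_or_gt (v - u - 2 * η) 0 with hlen | hlen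
    · have h3 : c1 * c * D * (v - u - 3 * η) * E ≤ 0 := by
        have h4 : 0 ≤ c1 * c * D * E := by positivity
        nlinarith
      exact h3.trans measureReal_nonneg
    have hfc : Continuous (fun y : ℝ => max 0 (min 1 (min ((y - u) / η) ((v - y) / η)))) := by
      fun_prop
    have hf0 : ∀ y : ℝ, 0 ≤ max 0 (min 1 (min ((y - u) / η) ((v - y) / η))) := fun y =>
      le_max_left _ _
    have hf1 : ∀ y : ℝ, max 0 (min 1 (min ((y - u) / η) ((v - y) / η))) ≤ 1 := fun y =>
      max_le zero_le_one (min_le_left _ _)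
    have hbd : ∃ B, ∀ y : ℝ, |max 0 (min 1 (min ((y - u) / η) ((v - y) / η)))| ≤ B := ⟨1, fun y => by
      rw [abs_of_nonneg (hf0 y)]
      exact hf1 y⟩
    have hint : ∫ y, max 0 (min 1 (min ((y - u) / η) ((v - y) / η))) ∂μ ≤ μ.real (Set.Ioc u v) := by
      refine LimD_int μ _ hf0 hf1 _ measurableSet_Ioc (fun y hy => ?_)
      rw [Set.mem_Ioc, not_and_or, not_lt, not_le] at hy
      apply max_eq_left
      rcases hy with hy | hy
      · refine (min_le_right _ _).trans ((min_le_left _ _).trans ?_)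
        exact div_nonpos_of_nonpos_of_nonneg (by linarith) hη0.le
      · refine (min_le_right _ _).trans ((min_le_right _ _).trans ?_)
        exact div_nonpos_of_nonpos_of_nonneg (by linarith) hη0.le
    refine le_trans (ge_of_tendsto (hlim _ hfc hbd) ?_) hint
    set s2 : ℝ := 4 * C1 ^ 2 * x0 ^ 2 + 6 * C1 ^ 2 with hs2
    have hs20 : 0 ≤ s2 := by positivity
    filter_upwards [h1, h2, hT.eventually_ge_atTop 1, ev_sqrt hT (1 / (c1 * η)),
      ev_sqrt hT ((s2 + 1) / c)] with n hn1 hn2 hn3 hn4 hn5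
    have hn : 0 < T n := by linarith
    set y : ℝ := √(T n) with hy
    have hy0 : 0 < y := Real.sqrt_pos.2 hn
    have hyn : y ^ 2 = T n := Real.sq_sqrt hn.le
    have hbn : 0 < b n := (mul_pos hc1 hy0).trans_le hn1
    have h4 : av (p n) (fun ω => ind (a n + b n * (u + η) ≤ Z n ω ∧
          (Z n ω : ℝ) ≤ a n + b n * (v - η))) ≤
        av (p n) (fun ω => max 0 (min 1 (min ((((Z n ω : ℝ) - a n) / b n - u) / η)
          ((v - ((Z n ω : ℝ) - a n) / b n) / η)))) := by
      apply av_mono (hp n)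
      intro ω
      by_cases hcase : a n + b n * (u + η) ≤ Z n ω ∧ (Z n ω : ℝ) ≤ a n + b n * (v - η)
      · rw [ind_of hcase]
        refine le_trans ?_ (le_max_right _ _)
        refine le_min le_rfl (le_min ?_ ?_)
        · have h7 : u + η ≤ ((Z n ω : ℝ) - a n) / b n := by
            rw [le_div_iff₀ hbn]
            linarith [hcase.1]
          rw [le_div_iff₀ hη0]
          linarith
        · have h7 : ((Z n ω : ℝ) - a n) / b n ≤ v - η := by
            rw [div_le_iff₀ hbn]
            linarith [hcase.2]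
          rw [le_div_iff₀ hη0]
          linarith
      · rw [ind_not hcase]
        exact hf0 _
    refine le_trans ?_ h4
    have h5 := av_int_lower (p n) (Z n) (a n + b n * (u + η)) (a n + b n * (v - η))
      (c / y * (D * E)) (by positivity) (fun q hq1 hq2 => by
        set x : ℝ := ((q : ℝ) - a n) / b n with hx
        have hxq : (q : ℝ) - m n = b n * x + (a n - m n) := by
          rw [hx]
          field_simp
          ring
        have hx1 : u + η ≤ x := by
          rw [hx, le_div_iff₀ hbn]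
          linarith
        have hx2 : x ≤ v - η := by
          rw [hx, div_le_iff₀ hbn]
          linarith
        have hxx : x ^ 2 ≤ 2 * x0 ^ 2 + 2 := by
          have h6 : (x0 - x) ^ 2 ≤ 1 ^ 2 := by
            apply sq_le_sq'
            · linarith
            · linarith
          nlinarith [sq_nonneg (2 * x0 - x)]
        have h6 := sq_up (b n) x (a n - m n)
        have h7 : (a n - m n) ^ 2 ≤ C1 ^ 2 * T n := by
          rw [← sq_abs, ← hyn, ← mul_pow]
          exact pow_le_pow_left₀ (abs_nonneg _) hn2.2 2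
        have h8 : (b n) ^ 2 ≤ C1 ^ 2 * T n := by
          rw [← hyn, ← mul_pow]
          exact pow_le_pow_left₀ hbn.le hn2.1 2
        have h9 : (b n) ^ 2 * x ^ 2 ≤ C1 ^ 2 * T n * (2 * x0 ^ 2 + 2) :=
          mul_le_mul h8 hxx (sq_nonneg x) (by positivity)
        have h11 : ((q : ℝ) - m n) ^ 2 ≤ s2 * T n := by
          rw [hxq, hs2]
          nlinarith
        have h12 : ((q : ℝ) - m n) ^ 2 / T n ≤ s2 := by
          rw [div_le_iff₀ hn]
          exact h11
        have hqn : |(q : ℝ) - m n| ≤ c * T n := by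
          apply abs_le_of_sq_le_sq _ (by positivity)
          refine h11.trans ?_
          have h13 : s2 + 1 ≤ c * y := by
            rw [div_le_iff₀ hc] at hn5
            linarith
          have h14 : s2 ≤ (c * y) ^ 2 := by nlinarith
          calc s2 * T n ≤ (c * y) ^ 2 * T n := mul_le_mul_of_nonneg_right h14 hn.le
            _ = (c * T n) ^ 2 := by
              rw [mul_pow, hyn]
              ring
        refine le_trans ?_ (hloc n hn3 q hqn)
        apply mul_le_mul_of_nonneg_left _ (by positivity)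
        rw [hD, hE, ← Real.exp_add]
        apply Real.exp_le_exp.2
        have h13 := mul_le_mul_of_nonneg_left h12 hC.le
        have e3 : C * ((q : ℝ) - m n) ^ 2 / T n = C * (((q : ℝ) - m n) ^ 2 / T n) := by ring
        rw [e3]
        have e4 : C * s2 = C * (6 * C1 ^ 2) + 4 * C * C1 ^ 2 * x0 ^ 2 := by
          rw [hs2]
          ring
        linarith)
    refine le_trans ?_ h5
    have h6 : y * (c1 * (v - u - 3 * η)) ≤
        (a n + b n * (v - η) - (a n + b n * (u + η)) - 1) := by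
      have h7 : c1 * y * (v - u - 2 * η) ≤ b n * (v - u - 2 * η) :=
        mul_le_mul_of_nonneg_right hn1 (by linarith)
      rw [div_le_iff₀ (by positivity)] at hn4
      nlinarith
    calc c1 * c * D * (v - u - 3 * η) * E =
        y * (c1 * (v - u - 3 * η)) * (c / y * (D * E)) := by
          field_simp
      _ ≤ (a n + b n * (v - η) - (a n + b n * (u + η)) - 1) * (c / y * (D * E)) :=
          mul_le_mul_of_nonneg_right h6 (by positivity)
  -- let η tend to 0
  have hlim0 : Tendsto (fun j : ℕ => c1 * c * D * (v - u - 3 * (1 / ((j : ℝ) + 1))) * E) atTop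
      (𝓝 (c1 * c * D * (v - u - 3 * 0) * E)) := by
    have h3 : Tendsto (fun j : ℕ => 1 / ((j : ℝ) + 1)) atTop (𝓝 0) :=
      tendsto_one_div_add_atTop_nhds_zero_nat
    exact ((((h3.const_mul 3).const_sub (v - u)).const_mul (c1 * c * D)).mul_const E)
  rw [mul_zero, sub_zero] at hlim0
  refine le_of_tendsto' hlim0 fun j => key _ (by positivity) ?_
  rw [div_le_one (by positivity)]
  have : (0 : ℝ) ≤ j := Nat.cast_nonneg j
  linarith

end LCSA
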