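import Mathlib

/-!
# Comparison of measures on the line by intervals; densities
-/

namespace LCSA

open Filter Topology MeasureTheory Set
open scoped ENNReal

/-- comparison on short intervals gives comparison of measures -/
theorem le_of_short (μ ν : Measure ℝ) [IsFiniteMeasure μ] [IsFiniteMeasure ν]
    (h : ∀ u v : ℝ, u < v → v - u ≤ 1 → μ (Ioc u v) ≤ ν (Ioc u v)) : μ ≤ ν := by
  have hK : ∀ K : Set ℝ, IsCompact K → μ K ≤ ν K := by
    intro K hK
    refine le_of_forall_gt fun r hr => ?_
    obtain ⟨U, hKU, hUo, hUr⟩ := K.exists_isOpen_lt_of_lt r hr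
    obtain ⟨δ, hδ, hδU⟩ := hK.exists_thickening_subset_open hUo hKU
    obtain ⟨N, hN⟩ := exists_nat_one_div_lt hδ
    set s : ℝ := (N : ℝ) + 1 with hs
    have hs1 : 1 ≤ s := by
      have : (0 : ℝ) ≤ N := Nat.cast_nonneg N
      linarith
    have hs0 : 0 < s := by linarith
    set I : ℤ → Set ℝ := fun j => Ioc ((j : ℝ) / s) (((j : ℝ) + 1) / s) with hI
    set T : Set ℤ := {j | (I j ∩ K).Nonempty} with hT
    have hcov : K ⊆ ⋃ j ∈ T, I j := by
      intro x hx
      have hxI : x ∈ I (⌈x * s⌉ - 1) := by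
        rw [hI, mem_Ioc, div_lt_iff₀ hs0, le_div_iff₀ hs0]
        push_cast
        have h1 := Int.ceil_lt_add_one (x * s)
        have h2 := Int.le_ceil (x * s)
        constructor <;> linarith
      exact mem_biUnion (show (⌈x * s⌉ - 1) ∈ T from ⟨x, hxI, hx⟩) hxI
    have hsub : (⋃ j ∈ T, I j) ⊆ U := by
      intro y hy
      rw [mem_iUnion₂] at hy
      obtain ⟨j, ⟨x, hxI, hxK⟩, hyI⟩ := hy
      apply hδU
      rw [Metric.mem_thickening_iff]
      refine ⟨x, hxK, ?_⟩
      rw [hI, mem_Ioc] at hxI hyI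
      have e : ((j : ℝ) + 1) / s = (j : ℝ) / s + 1 / s := by ring
      rw [e] at hxI hyI
      rw [Real.dist_eq, abs_lt]
      constructor <;> linarith [hxI.1, hxI.2, hyI.1, hyI.2]
    have hle : ∀ j : ℤ, μ (I j) ≤ ν (I j) := by
      intro j
      apply h
      · exact div_lt_div_of_pos_right (by linarith) hs0
      · have e : ((j : ℝ) + 1) / s - (j : ℝ) / s = 1 / s := by ring
        rw [e, div_le_one hs0]
        exact hs1
    have hdis : T.PairwiseDisjoint I := by
      intro i _ j _ hij
      rw [Function.onFun, Set.disjoint_left]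
      intro x hxi hxj
      rw [hI, mem_Ioc, div_lt_iff₀ hs0, le_div_iff₀ hs0] at hxi hxj
      apply hij
      have h1 : (i : ℝ) < j + 1 := by linarith
      have h2 : (j : ℝ) < i + 1 := by linarith
      have h1' : i < j + 1 := by exact_mod_cast h1
      have h2' : j < i + 1 := by exact_mod_cast h2
      omega
    calc μ K ≤ μ (⋃ j ∈ T, I j) := measure_mono hcov
      _ ≤ ∑' j : T, μ (I j) := measure_biUnion_le μ T.to_countable I
      _ ≤ ∑' j : T, ν (I j) := ENNReal.tsum_le_tsum fun j => hle j
      _ = ν (⋃ j ∈ T, I j) :=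
        (measure_biUnion T.to_countable hdis fun j _ => measurableSet_Ioc).symm
      _ ≤ ν U := measure_mono hsub
      _ < r := hUr
  rw [Measure.le_iff]
  intro s hs
  rw [hs.measure_eq_iSup_isCompact_of_ne_top (measure_ne_top μ s)]
  refine iSup_le fun K => iSup_le fun hKs => iSup_le fun hKc => ?_
  exact (hK K hKc).trans (measure_mono hKs)

/-- a measure between two measures with densities -/
theorem density (μ : Measure ℝ) [IsFiniteMeasure μ] (gl gu : ℝ → ℝ) (hlm : Measurable gl)
    (hum : Measurable gu) (h0 : ∀ x, 0 ≤ gl x) (hlu : ∀ x, gl x ≤ gu x)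
    (h1 : volume.withDensity (fun x => ENNReal.ofReal (gl x)) ≤ μ)
    (h2 : μ ≤ volume.withDensity (fun x => ENNReal.ofReal (gu x))) :
    ∃ f : ℝ → ℝ, Measurable f ∧ (∀ x, gl x ≤ f x ∧ f x ≤ gu x) ∧
      μ = volume.withDensity (fun x => ENNReal.ofReal (f x)) := by
  have hac : μ ≪ volume := (Measure.absolutelyContinuous_of_le h2).trans
    (withDensity_absolutelyContinuous _ _)
  have e := Measure.withDensity_rnDeriv_eq μ volume hac
  set f0 : ℝ → ℝ≥0∞ := μ.rnDeriv volume with hf0
  have hf0m : Measurable f0 := Measure.measurable_rnDeriv _ _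
  have a1 : (fun x => ENNReal.ofReal (gl x)) ≤ᵐ[volume] f0 := by
    apply ae_le_of_forall_setLIntegral_le_of_sigmaFinite hlm.ennreal_ofReal
    intro s hs _
    have h3 := h1 s
    rw [withDensity_apply _ hs, ← e, withDensity_apply _ hs] at h3
    exact h3
  have a2 : f0 ≤ᵐ[volume] (fun x => ENNReal.ofReal (gu x)) := by
    apply ae_le_of_forall_setLIntegral_le_of_sigmaFinite hf0m
    intro s hs _
    have h3 := h2 s
    rw [withDensity_apply _ hs, ← e, withDensity_apply _ hs] at h3
    exact h3
  refine ⟨fun x => max (gl x) (min (gu x) (f0 x).toReal),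
    hlm.max (hum.min hf0m.ennreal_toReal), fun x => ⟨le_max_left _ _,
      max_le (hlu x) (min_le_left _ _)⟩, ?_⟩
  rw [← e]
  apply withDensity_congr_ae
  filter_upwards [a1, a2] with x hx1 hx2
  have hfin : f0 x ≠ ∞ := ne_top_of_le_ne_top ENNReal.ofReal_ne_top hx2
  have h3 : gl x ≤ (f0 x).toReal := (ENNReal.ofReal_le_iff_le_toReal hfin).1 hx1
  have h4 : (f0 x).toReal ≤ gu x := by
    have h5 := ENNReal.toReal_mono ENNReal.ofReal_ne_top hx2
    rwa [ENNReal.toReal_ofReal ((h0 x).trans (hlu x))] at h5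
  rw [min_eq_right h4, max_eq_right h3, ENNReal.ofReal_toReal hfin]

/-- Gaussian bounds on short intervals give a density between Gaussian functions -/
theorem density_of (A a B b : ℝ) (ha : 0 < a) (hB : 0 < B) :
    ∃ c C : ℝ, 0 < c ∧ 0 < C ∧ ∀ (μ : Measure ℝ) [IsProbabilityMeasure μ],
    (∀ u v x : ℝ, u ≤ x → x ≤ v → v - u ≤ 1 →
      μ.real (Ioc u v) ≤ A * (v - u) * Real.exp (-(a * x ^ 2))) →
    (∀ u v x : ℝ, u ≤ x → x ≤ v → v - u ≤ 1 →
      B * (v - u) * Real.exp (-(b * x ^ 2)) ≤ μ.real (Ioc u v)) →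
    ∃ f : ℝ → ℝ, Measurable f ∧
      (∀ x, c * Real.exp (-(C * x ^ 2)) ≤ f x ∧ f x ≤ C * Real.exp (-(c * x ^ 2))) ∧
      μ = volume.withDensity (fun x => ENNReal.ofReal (f x)) := by
  set c : ℝ := min a B with hc
  set C : ℝ := max (max A b) B with hC
  have hc0 : 0 < c := lt_min ha hB
  have hcC : c ≤ C := (min_le_right _ _).trans (le_max_right _ _)
  have hC0 : 0 < C := hc0.trans_le hcC
  have hint : ∀ s t : ℝ, 0 < t → Integrable (fun x : ℝ => s * Real.exp (-(t * x ^ 2))) := by
    intro s t ht
    have h1 := (integrable_exp_neg_mul_sq ht).const_mul s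
    refine h1.congr (Eventually.of_forall fun x => ?_)
    simp only
    congr 2
    ring
  have hfin : ∀ s t : ℝ, 0 < t → IsFiniteMeasure
      (volume.withDensity (fun x : ℝ => ENNReal.ofReal (s * Real.exp (-(t * x ^ 2))))) := by
    intro s t ht
    exact isFiniteMeasure_withDensity_ofReal (hint s t ht).2
  have hval : ∀ g : ℝ → ℝ, ∀ u v : ℝ, volume.withDensity (fun x => ENNReal.ofReal (g x)) (Ioc u v) =
      ∫⁻ x in Ioc u v, ENNReal.ofReal (g x) := fun g u v => withDensity_apply _ measurableSet_Ioc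
  have f1 := hfin C c hc0
  have f2 := hfin c C hC0
  refine ⟨c, C, hc0, hC0, fun μ _ hup hlo => ?_⟩
  apply density μ (fun x => c * Real.exp (-(C * x ^ 2))) (fun x => C * Real.exp (-(c * x ^ 2)))
    (by fun_prop) (by fun_prop) (fun x => by positivity)
  · intro x
    apply mul_le_mul hcC _ (Real.exp_pos _).le hC0.le
    apply Real.exp_le_exp.2
    have := mul_le_mul_of_nonneg_right hcC (sq_nonneg x)
    linarith
  · apply le_of_short
    intro u v huv hl
    rw [hval]
    have hd : 0 < v - u := by linarith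
    calc ∫⁻ x in Ioc u v, ENNReal.ofReal (c * Real.exp (-(C * x ^ 2)))
        ≤ ∫⁻ _x in Ioc u v, ENNReal.ofReal (μ.real (Ioc u v) / (v - u)) := by
          apply setLIntegral_mono' measurableSet_Ioc
          intro x hx
          apply ENNReal.ofReal_le_ofReal
          rw [le_div_iff₀ hd]
          refine le_trans ?_ (hlo u v x hx.1.le hx.2 hl)
          have h1 : c * Real.exp (-(C * x ^ 2)) ≤ B * Real.exp (-(b * x ^ 2)) := by
            apply mul_le_mul (min_le_right _ _) _ (Real.exp_pos _).le hB.le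
            apply Real.exp_le_exp.2
            have hbC : b ≤ C := (le_max_right _ _).trans (le_max_left _ _)
            have := mul_le_mul_of_nonneg_right hbC (sq_nonneg x)
            linarith
          calc c * Real.exp (-(C * x ^ 2)) * (v - u) ≤ B * Real.exp (-(b * x ^ 2)) * (v - u) :=
                mul_le_mul_of_nonneg_right h1 hd.le
            _ = B * (v - u) * Real.exp (-(b * x ^ 2)) := by ring
      _ = μ (Ioc u v) := by
          rw [setLIntegral_const, Real.volume_Ioc, ← ENNReal.ofReal_mul (by positivity),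
            div_mul_cancel₀ _ hd.ne', ofReal_measureReal]
  · apply le_of_short
    intro u v huv hl
    rw [hval]
    have hd : 0 < v - u := by linarith
    calc μ (Ioc u v) = ∫⁻ _x in Ioc u v, ENNReal.ofReal (μ.real (Ioc u v) / (v - u)) := by
          rw [setLIntegral_const, Real.volume_Ioc, ← ENNReal.ofReal_mul (by positivity),
            div_mul_cancel₀ _ hd.ne', ofReal_measureReal]
      _ ≤ ∫⁻ x in Ioc u v, ENNReal.ofReal (C * Real.exp (-(c * x ^ 2))) := by
          apply setLIntegral_mono' measurableSet_Ioc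
          intro x hx
          apply ENNReal.ofReal_le_ofReal
          rw [div_le_iff₀ hd]
          refine (hup u v x hx.1.le hx.2 hl).trans ?_
          have h1 : A * Real.exp (-(a * x ^ 2)) ≤ C * Real.exp (-(c * x ^ 2)) := by
            apply mul_le_mul ((le_max_left _ _).trans (le_max_left _ _)) _ (Real.exp_pos _).le hC0.le
            apply Real.exp_le_exp.2
            have hca : c ≤ a := min_le_left _ _
            have := mul_le_mul_of_nonneg_right hca (sq_nonneg x)
            linarith
          calc A * (v - u) * Real.exp (-(a * x ^ 2)) = A * Real.exp (-(a * x ^ 2)) * (v - u) := by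
                ring
            _ ≤ C * Real.exp (-(c * x ^ 2)) * (v - u) := mul_le_mul_of_nonneg_right h1 hd.le

end LCSA
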