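import Mathlib

/-!
# A bounded potential which grows under a positive drift

`V(s) = 1 - exp(-lam (s - v))` for `s ≥ v` and `exp(lam (s - v)) - 1` for `s < v`. For steps `D`
with `|lam D| ≤ 1`: `V(s + D) - V(s) ≥ exp(-lam |s - v|) (lam D - 2 (lam D)^2)`.
-/

namespace LCSA

/-- the potential -/
noncomputable def Vf (lam v s : ℝ) : ℝ :=
  if v ≤ s then 1 - Real.exp (-(lam * (s - v))) else Real.exp (lam * (s - v)) - 1

/-- the weight of the position s seen from v -/
noncomputable def uf (lam v s : ℝ) : ℝ := Real.exp (-(lam * |s - v|))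

theorem uf_nonneg (lam v s : ℝ) : 0 ≤ uf lam v s := (Real.exp_pos _).le

theorem uf_le_one {lam : ℝ} (hl : 0 ≤ lam) (v s : ℝ) : uf lam v s ≤ 1 := by
  unfold uf
  rw [Real.exp_le_one_iff]
  have := mul_nonneg hl (abs_nonneg (s - v))
  linarith

theorem Vf_le_one {lam : ℝ} (hl : 0 ≤ lam) (v s : ℝ) : Vf lam v s ≤ 1 := by
  unfold Vf
  split_ifs with h
  · have := Real.exp_pos (-(lam * (s - v)))
    linarith
  · have h1 : Real.exp (lam * (s - v)) ≤ 1 := by
      rw [Real.exp_le_one_iff]
      have : s - v ≤ 0 := by linarith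
      exact mul_nonpos_of_nonneg_of_nonpos hl this
    linarith

theorem neg_one_le_Vf {lam : ℝ} (hl : 0 ≤ lam) (v s : ℝ) : -1 ≤ Vf lam v s := by
  unfold Vf
  split_ifs with h
  · have h1 : Real.exp (-(lam * (s - v))) ≤ 1 := by
      rw [Real.exp_le_one_iff]
      have : 0 ≤ s - v := by linarith
      have := mul_nonneg hl this
      linarith
    linarith
  · have := Real.exp_pos (lam * (s - v))
    linarith

/-- `V + 1` is small far below v -/
theorem Vf_add_one_le {lam : ℝ} (tau v s : ℝ) (h0 : 0 ≤ tau) (h1 : tau ≤ lam) :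
    Vf lam v s + 1 ≤ 2 * Real.exp (tau * (s - v)) := by
  have hl : 0 ≤ lam := h0.trans h1
  unfold Vf
  split_ifs with h
  · have h2 := Real.exp_pos (-(lam * (s - v)))
    have h3 : 0 ≤ tau * (s - v) := mul_nonneg h0 (by linarith)
    have h4 := Real.add_one_le_exp (tau * (s - v))
    linarith
  · have h3 : lam * (s - v) ≤ tau * (s - v) := by
      have : s - v ≤ 0 := by linarith
      exact mul_le_mul_of_nonpos_right h1 this
    have h4 := Real.exp_le_exp.2 h3
    have h5 := Real.exp_pos (tau * (s - v))
    linarith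

/-- `1 - V` is small far above v -/
theorem one_sub_Vf_le {lam : ℝ} (tau v s : ℝ) (h0 : 0 ≤ tau) (h1 : tau ≤ lam) :
    1 - Vf lam v s ≤ 2 * Real.exp (-(tau * (s - v))) := by
  have hl : 0 ≤ lam := h0.trans h1
  unfold Vf
  split_ifs with h
  · have h3 : -(lam * (s - v)) ≤ -(tau * (s - v)) := by
      have : 0 ≤ s - v := by linarith
      have := mul_le_mul_of_nonneg_right h1 this
      linarith
    have h4 := Real.exp_le_exp.2 h3
    have h5 := Real.exp_pos (-(tau * (s - v)))
    linarith
  · have h3 : 0 ≤ -(tau * (s - v)) := by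
      have : s - v ≤ 0 := by linarith
      have := mul_nonpos_of_nonneg_of_nonpos h0 this
      linarith
    have h4 := Real.add_one_le_exp (-(tau * (s - v)))
    have h5 := Real.exp_pos (lam * (s - v))
    linarith

theorem exp_sub_one_ge (x : ℝ) (hx : |x| ≤ 1) : x - x ^ 2 ≤ 1 - Real.exp (-x) := by
  have h := Real.abs_exp_sub_one_sub_id_le (x := -x) (by rwa [abs_neg])
  rw [abs_le] at h
  have := h.2
  nlinarith [h.2]

theorem exp_sub_one_le (x : ℝ) (h0 : 0 ≤ x) (hx : x ≤ 1) : Real.exp x - 1 ≤ 2 * x := by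
  have h := Real.abs_exp_sub_one_sub_id_le (x := x) (by rw [abs_of_nonneg h0]; exact hx)
  rw [abs_le] at h
  nlinarith [h.2]

theorem Vf_step {lam : ℝ} (v s D : ℝ) (h0 : 0 ≤ lam) (hD : |lam * D| ≤ 1) :
    uf lam v s * (lam * D - 2 * (lam * D) ^ 2) ≤ Vf lam v (s + D) - Vf lam v s := by
  have hD' := abs_le.1 hD
  by_cases h1 : v ≤ s
  · have ha : 0 ≤ lam * (s - v) := mul_nonneg h0 (by linarith)
    have hu : uf lam v s = Real.exp (-(lam * (s - v))) := by
      unfold uf
      rw [abs_of_nonneg (by linarith : 0 ≤ s - v)]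
    have hV : Vf lam v s = 1 - Real.exp (-(lam * (s - v))) := by
      unfold Vf
      rw [if_pos h1]
    rw [hu, hV]
    set a := lam * (s - v) with hadef
    set x := lam * D with hx
    by_cases h2 : v ≤ s + D
    · have hV2 : Vf lam v (s + D) = 1 - Real.exp (-a) * Real.exp (-x) := by
        unfold Vf
        rw [if_pos h2, ← Real.exp_add, hadef, hx]
        congr 2
        ring
      rw [hV2]
      have h3 := exp_sub_one_ge x hD
      have h4 := mul_le_mul_of_nonneg_left h3 (Real.exp_pos (-a)).le
      nlinarith [Real.exp_pos (-a), mul_nonneg (Real.exp_pos (-a)).le (sq_nonneg x)]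
    · have h2' : s + D < v := not_le.1 h2
      have hax : a + x ≤ 0 := by
        have : a + x = lam * (s + D - v) := by rw [hadef, hx]; ring
        rw [this]
        exact mul_nonpos_of_nonneg_of_nonpos h0 (by linarith)
      have hV2 : Vf lam v (s + D) = Real.exp (a + x) - 1 := by
        unfold Vf
        rw [if_neg h2]
        congr 2
        rw [hadef, hx]
        ring
      rw [hV2]
      have hx0 : x ≤ 0 := by linarith
      have ha1 : a ≤ 1 := by linarith [hD'.1]
      have h3 := Real.add_one_le_exp (a + x)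
      have h4 : 1 - Real.exp (-a) ≤ a := by
        have := Real.add_one_le_exp (-a)
        linarith
      -- need e^{-a}(x - 2x^2) ≤ x
      have h5 : Real.exp (-a) * (x - 2 * x ^ 2) ≤ x := by
        have h6 : Real.exp a - 1 ≤ 2 * a := exp_sub_one_le a ha ha1
        have h7 : (Real.exp a - 1) * (-x) ≤ 2 * x ^ 2 := by
          have : 2 * a * (-x) ≤ 2 * x ^ 2 := by nlinarith
          have h8 : (Real.exp a - 1) * (-x) ≤ 2 * a * (-x) :=
            mul_le_mul_of_nonneg_right h6 (by linarith)
          linarith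
        have h8 : x - 2 * x ^ 2 ≤ Real.exp a * x := by nlinarith
        calc Real.exp (-a) * (x - 2 * x ^ 2) ≤ Real.exp (-a) * (Real.exp a * x) :=
              mul_le_mul_of_nonneg_left h8 (Real.exp_pos _).le
          _ = x := by rw [← mul_assoc, ← Real.exp_add, neg_add_cancel, Real.exp_zero, one_mul]
      linarith
  · have h1' : s < v := not_le.1 h1
    have ha : lam * (s - v) ≤ 0 := mul_nonpos_of_nonneg_of_nonpos h0 (by linarith)
    have hu : uf lam v s = Real.exp (lam * (s - v)) := by
      unfold uf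
      rw [abs_of_nonpos (by linarith : s - v ≤ 0)]
      congr 1
      ring
    have hV : Vf lam v s = Real.exp (lam * (s - v)) - 1 := by
      unfold Vf
      rw [if_neg h1]
    rw [hu, hV]
    set a := lam * (s - v) with hadef
    set x := lam * D with hx
    by_cases h2 : v ≤ s + D
    · have hax : 0 ≤ a + x := by
        have : a + x = lam * (s + D - v) := by rw [hadef, hx]; ring
        rw [this]
        exact mul_nonneg h0 (by linarith)
      have hV2 : Vf lam v (s + D) = 1 - Real.exp (-(a + x)) := by
        unfold Vf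
        rw [if_pos h2]
        congr 2
        rw [hadef, hx]
        ring
      rw [hV2]
      have hx0 : 0 ≤ x := by linarith
      have ha1 : -1 ≤ a := by linarith [hD'.2]
      have h3 := exp_sub_one_ge (a + x) (by rw [abs_of_nonneg hax]; linarith [hD'.2])
      have h4 := exp_sub_one_ge (-a) (by rw [abs_neg, abs_of_nonpos ha]; linarith)
      rw [neg_neg] at h4
      have h5 : (a + x) ^ 2 + a ^ 2 ≤ x ^ 2 := by nlinarith
      have h6 : x - x ^ 2 ≤ 1 - Real.exp (-(a + x)) - (Real.exp a - 1) := by nlinarith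
      have h7 : Real.exp a ≤ 1 := by rwa [Real.exp_le_one_iff]
      have h8 := Real.exp_pos a
      by_cases h9 : 0 ≤ x - 2 * x ^ 2
      · have h10 : Real.exp a * (x - 2 * x ^ 2) ≤ 1 * (x - 2 * x ^ 2) :=
          mul_le_mul_of_nonneg_right h7 h9
        nlinarith [sq_nonneg x]
      · have h10 : Real.exp a * (x - 2 * x ^ 2) ≤ 0 :=
          mul_nonpos_of_nonneg_of_nonpos h8.le (by linarith)
        have h11 : 0 ≤ x - x ^ 2 := by nlinarith [hD'.2]
        linarith
    · have h2' : s + D < v := not_le.1 h2
      have hV2 : Vf lam v (s + D) = Real.exp a * Real.exp x - 1 := by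
        unfold Vf
        rw [if_neg h2, ← Real.exp_add, hadef, hx]
        congr 2
        ring
      rw [hV2]
      have h3 := Real.add_one_le_exp x
      have h4 := mul_le_mul_of_nonneg_left h3 (Real.exp_pos a).le
      nlinarith [Real.exp_pos a, mul_nonneg (Real.exp_pos a).le (sq_nonneg x)]

end LCSA
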