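import Pool.Agent.LCSV.TailB
import Pool.Agent.LCSA.Pot
import Pool.Agent.LCSA.Cmp

/-!
# Positive drift of the length under the replacement of blocks by w, for tilted words

`Bad`: the sum of the changes over all blocks is less than `δ n`. Its probability is exponentially
small for all parameters `θ` near `p = k^(-K)`.
-/

namespace LCSA

open Finset LCSV

/-- the sum of the changes of the length -/
noncomputable def SD {K k : ℕ} (w : Fin K → Fin k) (n : ℕ) (X Y : List (Fin k)) : ℝ :=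
  ∑ b ∈ range (n / K), ((lcs (repl K (List.ofFn w) b X) Y : ℝ) - lcs X Y)

theorem repl_le {α : Type*} (K : ℕ) (w : List α) (hw : w.length = K) (b : ℕ) (X Y : List α) :
    lcs (repl K w b X) Y ≤ lcs X Y + K := by
  unfold repl
  have h1 := TailB_del (X.take (b * K)) w (X.drop ((b + 1) * K)) Y
  rw [hw] at h1
  have h2 : (X.take (b * K) ++ X.drop ((b + 1) * K)).Sublist X := by
    conv_rhs => rw [← List.take_append_drop (b * K) X]
    refine List.Sublist.append (List.Sublist.refl _) ?_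
    have e : X.drop ((b + 1) * K) = (X.drop (b * K)).drop K := by
      rw [List.drop_drop]
      congr 1
      ring
    rw [e]
    exact List.drop_sublist K _
  have h3 := lcs_mono h2 (List.Sublist.refl Y)
  omega

theorem repl_change {K k : ℕ} (w : Fin K → Fin k) (b : ℕ) (X Y : List (Fin k)) :
    |(lcs (repl K (List.ofFn w) b X) Y : ℝ) - lcs X Y| ≤ K := by
  have h1 := repl_le K (List.ofFn w) (List.length_ofFn) b X Y
  have h2 := TailB_repl K (List.ofFn w) b X Y
  have h1' : (lcs (repl K (List.ofFn w) b X) Y : ℝ) ≤ lcs X Y + K := by exact_mod_cast h1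
  have h2' : (lcs X Y : ℝ) ≤ lcs (repl K (List.ofFn w) b X) Y + K := by exact_mod_cast h2
  rw [abs_le]
  constructor <;> linarith

theorem SD_abs {K k : ℕ} (w : Fin K → Fin k) (n : ℕ) (X Y : List (Fin k)) : |SD w n X Y| ≤ n := by
  unfold SD
  calc |∑ b ∈ range (n / K), ((lcs (repl K (List.ofFn w) b X) Y : ℝ) - lcs X Y)|
      ≤ ∑ b ∈ range (n / K), |(lcs (repl K (List.ofFn w) b X) Y : ℝ) - lcs X Y| :=
        Finset.abs_sum_le_sum_abs _ _
    _ ≤ ∑ _b ∈ range (n / K), (K : ℝ) := Finset.sum_le_sum fun b _ => repl_change w b X Y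
    _ = (((n / K) * K : ℕ) : ℝ) := by
        rw [Finset.sum_const, Finset.card_range, nsmul_eq_mul]
        push_cast
        rfl
    _ ≤ n := by exact_mod_cast Nat.div_mul_le_self n K

/-- the constants and the probability of the bad event -/
structure Drift (k K : ℕ) (w : Fin K → Fin k) (p ε δ c : ℝ) (n0 : ℕ) : Prop where
  hk : 2 ≤ k
  hK : 1 ≤ K
  hpe : p = 1 / (k : ℝ) ^ K
  hp0 : 0 < p
  hp1 : p ≤ 1 / 2
  he0 : 0 < ε
  he1 : ε ≤ p / 2
  hd : 0 < δ
  hc : 0 < c
  bad : ∀ n : ℕ, n0 ≤ n → ∀ θ : ℝ, p - ε ≤ θ → θ ≤ p + ε →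
    Et w (n / K) (n % K) n θ (fun X Y => ind (SD w n X Y < δ * n)) ≤ Real.exp (-(c * n))

theorem drift : ∃ k0 : ℕ, ∀ k ≥ k0, ∃ (K : ℕ) (w : Fin K → Fin k) (p ε δ c : ℝ) (n0 : ℕ),
    Drift k K w p ε δ c n0 := by
  obtain ⟨k0, hk0⟩ := tailA
  refine ⟨max k0 2, fun k hk => ?_⟩
  have hk2 : 2 ≤ k := le_trans (le_max_right _ _) hk
  obtain ⟨δ, c, K, w, hδ, hc, hK, hw, n0, h⟩ := hk0 k (le_trans (le_max_left _ _) hk)
  subst hw
  set K := w.length with hKdef
  have hw' : List.ofFn w.get = w := List.ofFn_get w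
  set p : ℝ := 1 / (k : ℝ) ^ K with hp
  have hk2' : (2 : ℝ) ≤ k := by exact_mod_cast hk2
  have hkK : (2 : ℝ) ≤ (k : ℝ) ^ K := by
    calc (2 : ℝ) ≤ (k : ℝ) := hk2'
      _ = (k : ℝ) ^ 1 := (pow_one _).symm
      _ ≤ (k : ℝ) ^ K := pow_le_pow_right₀ (by linarith) hK
  have hp0 : 0 < p := by positivity
  have hp1 : p ≤ 1 / 2 := by
    rw [hp]
    exact one_div_le_one_div_of_le (by norm_num) hkK
  set ε : ℝ := min (p / 2) (min 1 (c * (p * (1 - p)) / 2)) with hε
  have hq : 0 < p * (1 - p) := mul_pos hp0 (by linarith)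
  have hε0 : 0 < ε := lt_min (by positivity) (lt_min one_pos (by positivity))
  have hε1 : ε ≤ p / 2 := min_le_left _ _
  have hε2 : ε ≤ 1 := le_trans (min_le_right _ _) (min_le_left _ _)
  have hε3 : ε ≤ c * (p * (1 - p)) / 2 := le_trans (min_le_right _ _) (min_le_right _ _)
  have hε4 : ε ^ 2 ≤ c * (p * (1 - p)) / 2 := by
    refine le_trans ?_ hε3
    nlinarith
  refine ⟨K, w.get, p, ε, δ, c / 4, n0, hk2, hK, rfl, hp0, hp1, hε0, hε1, hδ, by positivity, ?_⟩
  intro n hn θ ha hb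
  have hKn : n / K * K + n % K = n := Nat.div_add_mod' n K
  set F : List (Fin k) → List (Fin k) → ℝ := fun X Y => ind (SD w.get n X Y < δ * n) with hF
  have hF0 : ∀ X Y, 0 ≤ F X Y := fun X Y => TailB_ind.1
  have hF1 : ∀ X Y, F X Y ≤ 1 := fun X Y => TailB_ind.2
  have hEp : Et w.get (n / K) (n % K) n p F ≤ Real.exp (-(c * n)) := by
    have e := Et_unif hk2 hK w.get (n / K) (n % K) n F
    rw [hKn] at e
    rw [e]
    have h2 := h n hn
    rw [← hw'] at h2
    exact h2
  have hθ0 : 0 ≤ θ := by linarith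
  have hθ1 : θ ≤ 1 := by linarith
  have h3 := Et_chm hk2 hK w.get (n / K) (n % K) n θ p hθ0 hθ1 hp F hF0 hF1
  have h4 : (θ - p) ^ 2 ≤ ε ^ 2 := by
    apply sq_le_sq'
    · linarith
    · linarith
  have h5 : (θ - p) ^ 2 / (p * (1 - p)) ≤ c / 2 := by
    rw [div_le_iff₀ hq]
    linarith
  have h6 : (1 + (θ - p) ^ 2 / (p * (1 - p))) ^ (n / K) ≤ Real.exp (c * n / 2) := by
    calc (1 + (θ - p) ^ 2 / (p * (1 - p))) ^ (n / K)
        ≤ (Real.exp (c / 2)) ^ (n / K) := by
          apply pow_le_pow_left₀ (by positivity)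
          have := Real.add_one_le_exp (c / 2)
          linarith
      _ = Real.exp ((n / K : ℕ) * (c / 2)) := by rw [Real.exp_nat_mul]
      _ ≤ Real.exp (c * n / 2) := by
          apply Real.exp_le_exp.2
          have h7 : ((n / K : ℕ) : ℝ) ≤ n := by exact_mod_cast Nat.div_le_self n K
          have h8 := mul_le_mul_of_nonneg_right h7 (by positivity : 0 ≤ c / 2)
          linarith
  have h7 : (Et w.get (n / K) (n % K) n θ F) ^ 2 ≤ (Real.exp (-(c / 4 * n))) ^ 2 := by
    calc (Et w.get (n / K) (n % K) n θ F) ^ 2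
        ≤ Et w.get (n / K) (n % K) n p F * (1 + (θ - p) ^ 2 / (p * (1 - p))) ^ (n / K) := h3
      _ ≤ Real.exp (-(c * n)) * Real.exp (c * n / 2) :=
          mul_le_mul hEp h6 (by positivity) (Real.exp_pos _).le
      _ = (Real.exp (-(c / 4 * n))) ^ 2 := by
          rw [← Real.exp_add, ← Real.exp_nat_mul]
          congr 1
          push_cast
          ring
  exact abs_le_of_sq_le_sq' h7 (Real.exp_pos _).le |>.2

/-- pointwise: the potential grows on good words -/
theorem V_sum {K k : ℕ} (w : Fin K → Fin k) (hK : 1 ≤ K) (n : ℕ) (lam δ v : ℝ) (hl : 0 < lam)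
    (hδ : 0 < δ) (h1 : lam * K ≤ 1) (h2 : 4 * lam * K ^ 2 ≤ δ) (X Y : List (Fin k)) :
    lam * δ / 2 * n * uf lam v (lcs X Y) - (lam * δ / 2 + 2) * n * ind (SD w n X Y < δ * n) ≤
      ∑ b ∈ range (n / K), (Vf lam v (lcs (repl K (List.ofFn w) b X) Y) - Vf lam v (lcs X Y)) := by
  have hu0 := uf_nonneg lam v (lcs X Y)
  have hu1 := uf_le_one hl.le v (lcs X Y)
  have hn0 : (0 : ℝ) ≤ n := Nat.cast_nonneg n
  have hNn : ((n / K : ℕ) : ℝ) ≤ n := by exact_mod_cast Nat.div_le_self n K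
  by_cases hb : SD w n X Y < δ * n
  · rw [ind_true hb]
    have h3 : ∀ b ∈ range (n / K), (-2 : ℝ) ≤
        Vf lam v (lcs (repl K (List.ofFn w) b X) Y) - Vf lam v (lcs X Y) := by
      intro b _
      have h4 := neg_one_le_Vf hl.le v (lcs (repl K (List.ofFn w) b X) Y)
      have h5 := Vf_le_one hl.le v (lcs X Y)
      linarith
    have h4 := Finset.sum_le_sum h3
    rw [Finset.sum_const, Finset.card_range, nsmul_eq_mul] at h4
    have h5 : lam * δ / 2 * n * uf lam v (lcs X Y) ≤ lam * δ / 2 * n * 1 :=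
      mul_le_mul_of_nonneg_left hu1 (by positivity)
    linarith
  · rw [ind_false hb, mul_zero, sub_zero]
    have hb' : δ * n ≤ SD w n X Y := not_lt.1 hb
    have h3 : ∀ b ∈ range (n / K), uf lam v (lcs X Y) * (lam *
        ((lcs (repl K (List.ofFn w) b X) Y : ℝ) - lcs X Y) - 2 * lam ^ 2 * K ^ 2) ≤
        Vf lam v (lcs (repl K (List.ofFn w) b X) Y) - Vf lam v (lcs X Y) := by
      intro b _
      have h4 := repl_change w b X Y
      set D : ℝ := (lcs (repl K (List.ofFn w) b X) Y : ℝ) - lcs X Y with hD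
      have h5 : |lam * D| ≤ lam * K := by
        rw [abs_mul, abs_of_pos hl]
        exact mul_le_mul_of_nonneg_left h4 hl.le
      have h6 := Vf_step v (lcs X Y) D hl.le (h5.trans h1)
      have h7 : (lcs X Y : ℝ) + D = lcs (repl K (List.ofFn w) b X) Y := by rw [hD]; ring
      rw [h7] at h6
      refine le_trans (mul_le_mul_of_nonneg_left ?_ hu0) h6
      have h8 : (lam * D) ^ 2 ≤ (lam * K) ^ 2 := sq_le_sq' (by linarith [abs_le.1 h5])
        (abs_le.1 h5).2
      nlinarith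
    have h4 := Finset.sum_le_sum h3
    rw [← Finset.mul_sum, Finset.sum_sub_distrib, ← Finset.mul_sum, Finset.sum_const,
      Finset.card_range, nsmul_eq_mul] at h4
    refine le_trans ?_ h4
    have h5 : lam * (δ * n) ≤ lam * ∑ b ∈ range (n / K),
        ((lcs (repl K (List.ofFn w) b X) Y : ℝ) - lcs X Y) := mul_le_mul_of_nonneg_left hb' hl.le
    have h6 : ((n / K : ℕ) : ℝ) * (2 * lam ^ 2 * K ^ 2) ≤ n * (2 * lam ^ 2 * K ^ 2) :=
      mul_le_mul_of_nonneg_right hNn (by positivity)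
    have h7 : 2 * lam ^ 2 * (K : ℝ) ^ 2 ≤ lam * δ / 2 := by
      have := mul_le_mul_of_nonneg_left h2 hl.le
      nlinarith
    have h8 : n * (2 * lam ^ 2 * (K : ℝ) ^ 2) ≤ n * (lam * δ / 2) :=
      mul_le_mul_of_nonneg_left h7 hn0
    have h9 : lam * δ / 2 * n ≤ lam * ∑ b ∈ range (n / K),
        ((lcs (repl K (List.ofFn w) b X) Y : ℝ) - lcs X Y) -
        ((n / K : ℕ) : ℝ) * (2 * lam ^ 2 * K ^ 2) := by nlinarith
    calc lam * δ / 2 * n * uf lam v (lcs X Y) = uf lam v (lcs X Y) * (lam * δ / 2 * n) := by ring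
      _ ≤ _ := mul_le_mul_of_nonneg_left h9 hu0

end LCSA
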