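import Pool.Agent.LCSA.Bob
import Pool.Agent.LCSA.Up

/-!
# The isoperimetric inequality for the length of a longest common subsequence; positivity
-/

namespace LCSA

open Finset LCSV

/-- the length for a pair of words written one after the other -/
noncomputable def L2 {α : Type*} (n : ℕ) (l : List α) : ℕ := lcs (l.take n) (l.drop n)

theorem L2_change {α : Type*} (n : ℕ) (l1 l2 : List α) (a b : α) :
    L2 n (l1 ++ a :: l2) ≤ L2 n (l1 ++ b :: l2) + 1 := by
  unfold L2
  rcases lt_or_ge l1.length n with h | h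
  · obtain ⟨s, hs⟩ : ∃ s, n - l1.length = s + 1 := ⟨n - l1.length - 1, by omega⟩
    have h1 : ∀ c : α, (l1 ++ c :: l2).take n = l1 ++ c :: l2.take s := by
      intro c
      rw [List.take_append, hs, List.take_succ_cons, List.take_of_length_le h.le]
    have h2 : ∀ c : α, (l1 ++ c :: l2).drop n = l2.drop s := by
      intro c
      rw [List.drop_append, hs, List.drop_succ_cons, List.drop_of_length_le h.le, List.nil_append]
    rw [h1, h1, h2, h2]
    have h3 := lcs_insert_le l1 (l2.take s) (l2.drop s) a
    have h4 := lcs_le_insert l1 (l2.take s) (l2.drop s) b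
    omega
  · have h0 : n - l1.length = 0 := by omega
    have h1 : ∀ c : α, (l1 ++ c :: l2).take n = l1.take n := by
      intro c
      rw [List.take_append, h0, List.take_zero, List.append_nil]
    have h2 : ∀ c : α, (l1 ++ c :: l2).drop n = l1.drop n ++ c :: l2 := by
      intro c
      rw [List.drop_append, h0, List.drop_zero]
    rw [h1, h1, h2, h2, lcs_comm, lcs_comm (l1.take n)]
    have h3 := lcs_insert_le (l1.drop n) l2 (l1.take n) a
    have h4 := lcs_le_insert (l1.drop n) l2 (l1.take n) b
    omega

theorem EL_pair {k : ℕ} (n : ℕ) (G : ℕ → ℝ) :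
    EL (un k) (n + n) (fun l => G (L2 n l)) =
      EL (un k) n (fun X => EL (un k) n (fun Y => G (lcs X Y))) := by
  rw [EL_append]
  apply EL_congr
  intro X hX
  apply EL_congr
  intro Y _
  unfold L2
  rw [← hX, List.take_left, List.drop_left]

/-- the probability that the length is at least `m` -/
noncomputable def pge (k n m : ℕ) : ℝ :=
  EL (un k) n (fun X => EL (un k) n (fun Y => ind (m ≤ lcs X Y)))

theorem iso_pair {k : ℕ} (hk : 0 < k) (n m : ℕ) :
    J (pge k n (m + 1)) ≤ √((n + n : ℕ) : ℝ) * (pm k n m + pm k n (m + 1)) := by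
  have hu : IsP (un k) := un_isP hk
  have h1 := iso hu (n + n) (L2 n) (L2_change n) m
  rw [EL_pair n (fun L => ind (m + 1 ≤ L)), EL_pair n (fun L => ind (L = m ∨ L = m + 1))] at h1
  refine h1.trans (mul_le_mul_of_nonneg_left ?_ (Real.sqrt_nonneg _))
  unfold pm
  rw [← EL_add]
  apply EL_mono hu
  intro X _
  rw [← EL_add]
  apply EL_mono hu
  intro Y _
  by_cases h2 : lcs X Y = m
  · rw [ind_of (Or.inl h2), ind_of h2]
    have := ind_nn (lcs X Y = m + 1)
    linarith
  · by_cases h3 : lcs X Y = m + 1
    · rw [ind_of (Or.inr h3), ind_of h3]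
      have := ind_nn (lcs X Y = m)
      linarith
    · rw [ind_not (by tauto)]
      have := ind_nn (lcs X Y = m)
      have := ind_nn (lcs X Y = m + 1)
      linarith

theorem lcs_rep {α : Type*} (n : ℕ) (a b : α) (hab : a ≠ b) :
    lcs (List.replicate n a) (List.replicate n b) = 0 := by
  apply Nat.le_zero.1
  apply lcs_le
  intro s h1 h2
  cases s with
  | nil => simp
  | cons c s =>
    exfalso
    have h3 : c ∈ List.replicate n a := h1.subset (by simp)
    have h4 : c ∈ List.replicate n b := h2.subset (by simp)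
    rw [List.mem_replicate] at h3 h4
    exact hab (h3.2.symm.trans h4.2)

/-- all values between `0` and `n` are attained -/
theorem exists_val {k : ℕ} (hk : 2 ≤ k) (n q : ℕ) (hq : q ≤ n) :
    ∃ X Y : Fin n → Fin k, lcs (List.ofFn X) (List.ofFn Y) = q := by
  set a : Fin k := ⟨0, by omega⟩ with ha
  set b : Fin k := ⟨1, by omega⟩ with hb
  have hab : a ≠ b := by
    intro h
    have := congrArg Fin.val h
    simp [ha, hb] at this
  have key : ∃ x y : List (Fin k), x.length = n ∧ y.length = n ∧ lcs x y = q := by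
    rcases Nat.eq_zero_or_pos q with h0 | h0
    · exact ⟨List.replicate n a, List.replicate n b, by simp, by simp, by
        rw [lcs_rep n a b hab, h0]⟩
    · obtain ⟨m, rfl⟩ : ∃ m, q = m + 1 := ⟨q - 1, by omega⟩
      obtain ⟨v, hv1, hv2⟩ := path [] (List.replicate n b) m (List.replicate n a)
        (List.replicate n b) [] (by simp)
        (by
          rw [List.append_nil, List.nil_append, lcs_rep n a b hab]
          exact Nat.zero_le _)
        (by
          rw [List.append_nil, List.nil_append, lcs_self, List.length_replicate]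
          exact hq)
      rw [List.append_nil, List.nil_append] at hv2
      exact ⟨v, List.replicate n b, by rw [hv1]; simp, by simp, hv2⟩
  obtain ⟨x, y, hx, hy, h⟩ := key
  subst hx
  refine ⟨x.get, fun i => y.get (Fin.cast hy.symm i), ?_⟩
  have e : List.ofFn (fun i => y.get (Fin.cast hy.symm i)) = y := by
    apply List.ext_getElem
    · simp [hy]
    · intro i h1 h2
      simp
  rw [List.ofFn_get, e]
  exact h

theorem pm_pos {k : ℕ} (hk : 2 ≤ k) (n q : ℕ) (hq : q ≤ n) :
    ((1 / (k : ℝ)) ^ n) ^ 2 ≤ pm k n q := by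
  obtain ⟨X, Y, h⟩ := exists_val hk n q hq
  have hk0 : (0 : ℝ) < k := by
    have : 0 < k := by omega
    exact_mod_cast this
  have hw : (0 : ℝ) ≤ (1 / (k : ℝ)) ^ n := by positivity
  unfold pm
  rw [EL_un, sq]
  apply mul_le_mul_of_nonneg_left _ hw
  have h1 := Finset.single_le_sum (s := univ)
    (f := fun v : Fin n → Fin k => EL (un k) n (fun Y => ind (lcs (List.ofFn v) Y = q)))
    (fun v _ => EL_nonneg (un_isP (by omega)) fun _ _ => ind_nn _) (Finset.mem_univ X)
  refine le_trans ?_ h1
  show (1 / (k : ℝ)) ^ n ≤ EL (un k) n (fun Y => ind (lcs (List.ofFn X) Y = q))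
  rw [EL_un]
  have h2 := Finset.single_le_sum (s := univ)
    (f := fun v : Fin n → Fin k => ind (lcs (List.ofFn X) (List.ofFn v) = q))
    (fun v _ => ind_nn _) (Finset.mem_univ Y)
  have h3 : ind (lcs (List.ofFn X) (List.ofFn Y) = q) = 1 := ind_of h
  calc (1 / (k : ℝ)) ^ n = (1 / (k : ℝ)) ^ n * 1 := (mul_one _).symm
    _ ≤ _ := mul_le_mul_of_nonneg_left (by rw [← h3]; exact h2) hw

end LCSA
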