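import Pool.Agent.LCSV.LimA

/-!
# Limit laws along subsequences: the order of the normalisation

The statements and proofs of `LCSV/LimA` and `LCSV/LimB` with `√(T n)`, `T n → ∞`, instead of `√n`.
-/

namespace LCSA

open Finset Filter Topology MeasureTheory LCSV

theorem lim_lowerS {Ω : ℕ → Type} [∀ n, Fintype (Ω n)] (p : ∀ n, Ω n → ℝ) (hp : ∀ n, IsP (p n))
    (T : ℕ → ℝ) (hT : Tendsto T atTop atTop)
    (Z : ∀ n, Ω n → ℝ) (c' : ℝ) (hc : 0 < c')
    (hanti : ∀ n : ℕ, 1 ≤ T n → ∀ x : ℝ, c' ≤ av (p n) (fun ω => ind (c' * √(T n) ≤ |Z n ω - x|)))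
    (a b : ℕ → ℝ) (hb : ∀ n, 0 < b n) (μ : Measure ℝ) [IsProbabilityMeasure μ]
    (hlim : ∀ f : ℝ → ℝ, Continuous f → (∃ B, ∀ x, |f x| ≤ B) →
      Tendsto (fun n => av (p n) (fun ω => f ((Z n ω - a n) / b n))) atTop (𝓝 (∫ x, f x ∂μ))) :
    ∃ c : ℝ, 0 < c ∧ ∀ᶠ n : ℕ in atTop, c * √(T n) ≤ b n := by
  obtain ⟨M, hM⟩ := LimA_tight μ c' hc
  set f : ℝ → ℝ := fun x => max 0 (min 1 (|x| - M)) with hf
  have hf0 : ∀ x, 0 ≤ f x := fun x => le_max_left _ _
  have hf1 : ∀ x, f x ≤ 1 := fun x => max_le zero_le_one (min_le_left _ _)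
  have hfc : Continuous f := by
    rw [hf]
    fun_prop
  have hint : ∫ x, f x ∂μ ≤ μ.real {x : ℝ | (M : ℝ) < |x|} := by
    have hm : MeasurableSet {x : ℝ | (M : ℝ) < |x|} :=
      (isOpen_lt continuous_const continuous_abs).measurableSet
    have h1 : ∫ x, f x ∂μ ≤ ∫ x, Set.indicator {x : ℝ | (M : ℝ) < |x|} (fun _ => (1 : ℝ)) x ∂μ := by
      refine integral_mono_of_nonneg (Eventually.of_forall hf0)
        ((integrable_const 1).indicator hm) (Eventually.of_forall fun x => ?_)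
      by_cases hx : (M : ℝ) < |x|
      · rw [Set.indicator_of_mem (show x ∈ {x : ℝ | (M : ℝ) < |x|} from hx)]
        exact hf1 x
      · rw [Set.indicator_of_notMem (show x ∉ {x : ℝ | (M : ℝ) < |x|} from hx)]
        exact max_le le_rfl ((min_le_right _ _).trans (by linarith))
    rwa [integral_indicator_const _ hm, smul_eq_mul, mul_one] at h1
  have hev := (hlim f hfc ⟨1, fun x => by rw [abs_of_nonneg (hf0 x)]; exact hf1 x⟩).eventually
    (gt_mem_nhds (lt_of_le_of_lt hint hM))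
  have hM1 : (0 : ℝ) < M + 1 := by positivity
  refine ⟨c' / (M + 1), by positivity, ?_⟩
  filter_upwards [hev, hT.eventually_ge_atTop 1] with n hn hn1
  rw [div_mul_eq_mul_div, div_le_iff₀ hM1]
  by_contra hcon
  push Not at hcon
  have h1 := hanti n hn1 (a n)
  have h2 : av (p n) (fun ω => ind (c' * √(T n) ≤ |Z n ω - a n|)) ≤
      av (p n) (fun ω => f ((Z n ω - a n) / b n)) := by
    refine av_mono (hp n) fun ω => ?_
    unfold ind
    split_ifs with h
    · have h3 : (M : ℝ) + 1 ≤ |(Z n ω - a n) / b n| := by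
        rw [abs_div, abs_of_pos (hb n), le_div_iff₀ (hb n)]
        linarith [mul_comm (b n) ((M : ℝ) + 1)]
      exact le_max_of_le_right (le_min le_rfl (by linarith))
    · exact hf0 _
  linarith

theorem LimS_nondeg (μ : Measure ℝ) [IsProbabilityMeasure μ]
    (hμ : ∀ x, μ ≠ Measure.dirac x) :
    ∃ u v : ℝ, u < v ∧ 0 < μ.real (Set.Iic u) ∧ 0 < μ.real (Set.Ici v) := by
  by_contra hcon
  push Not at hcon
  have hz : ∀ u v : ℝ, u < v → μ (Set.Iic u) ≠ 0 → μ (Set.Ici v) = 0 := by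
    intro u v huv hu
    have h1 : 0 < μ.real (Set.Iic u) := by
      rw [measureReal_def]
      exact ENNReal.toReal_pos hu (measure_ne_top _ _)
    have h2 := hcon u v huv h1
    have h3 : μ.real (Set.Ici v) = 0 := le_antisymm h2 measureReal_nonneg
    rw [measureReal_def, ENNReal.toReal_eq_zero_iff] at h3
    rcases h3 with h3 | h3
    · exact h3
    · exact absurd h3 (measure_ne_top _ _)
  have h1 : μ Set.univ = 1 := measure_univ
  have hne : ∃ u : ℝ, μ (Set.Iic u) = 0 := by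
    by_contra hn
    push Not at hn
    have h2 : ∀ n : ℕ, μ (Set.Ici (-(n : ℝ))) = 0 := fun n =>
      hz (-(n : ℝ) - 1) (-(n : ℝ)) (by linarith) (hn _)
    have h3 : μ (⋃ n : ℕ, Set.Ici (-(n : ℝ))) = 0 := measure_iUnion_null h2
    have h4 : (⋃ n : ℕ, Set.Ici (-(n : ℝ))) = Set.univ := by
      ext x
      simp only [Set.mem_iUnion, Set.mem_Ici, Set.mem_univ, iff_true]
      obtain ⟨n, hn⟩ := exists_nat_ge (-x)
      exact ⟨n, by linarith⟩
    rw [h4, h1] at h3
    exact one_ne_zero h3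
  have hex : ∃ n : ℕ, μ (Set.Iic (n : ℝ)) ≠ 0 := by
    by_contra hn
    push Not at hn
    have h3 : μ (⋃ n : ℕ, Set.Iic (n : ℝ)) = 0 := measure_iUnion_null hn
    have h4 : (⋃ n : ℕ, Set.Iic (n : ℝ)) = Set.univ := by
      ext x
      simp only [Set.mem_iUnion, Set.mem_Iic, Set.mem_univ, iff_true]
      exact exists_nat_ge x
    rw [h4, h1] at h3
    exact one_ne_zero h3
  obtain ⟨n0, hn0⟩ := hex
  obtain ⟨u0, hu0⟩ := hne
  obtain ⟨S, hS⟩ : ∃ S : Set ℝ, S = {u : ℝ | μ (Set.Iic u) = 0} := ⟨_, rfl⟩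
  have hmem : ∀ u, u ∈ S ↔ μ (Set.Iic u) = 0 := by
    intro u
    rw [hS]
    exact Iff.rfl
  have hSne : S.Nonempty := ⟨u0, (hmem u0).2 hu0⟩
  have hSb : BddAbove S := by
    refine ⟨(n0 : ℝ), ?_⟩
    intro u hu
    by_contra hc
    rw [not_le] at hc
    exact hn0 (measure_mono_null (Set.Iic_subset_Iic.2 hc.le) ((hmem u).1 hu))
  obtain ⟨x0, hx0⟩ : ∃ x0 : ℝ, x0 = sSup S := ⟨_, rfl⟩
  have hlow : ∀ x, x < x0 → μ (Set.Iic x) = 0 := by
    intro x hx
    rw [hx0] at hx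
    obtain ⟨u, hu, hxu⟩ := exists_lt_of_lt_csSup hSne hx
    exact measure_mono_null (Set.Iic_subset_Iic.2 hxu.le) ((hmem u).1 hu)
  have hhigh : ∀ v, x0 < v → μ (Set.Ici v) = 0 := by
    intro v hv
    have hu : (x0 + v) / 2 ∉ S := by
      intro hu
      have := le_csSup hSb hu
      rw [← hx0] at this
      linarith
    exact hz ((x0 + v) / 2) v (by linarith) (fun h => hu ((hmem _).2 h))
  have hIio : μ (Set.Iio x0) = 0 := by
    have h3 : μ (⋃ n : ℕ, Set.Iic (x0 - 1 / ((n : ℝ) + 1))) = 0 := by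
      apply measure_iUnion_null
      intro n
      apply hlow
      have : 0 < 1 / ((n : ℝ) + 1) := by positivity
      linarith
    refine measure_mono_null ?_ h3
    intro x hx
    rw [Set.mem_Iio] at hx
    rw [Set.mem_iUnion]
    obtain ⟨n, hn⟩ := exists_nat_one_div_lt (sub_pos.2 hx)
    exact ⟨n, by rw [Set.mem_Iic]; linarith⟩
  have hIoi : μ (Set.Ioi x0) = 0 := by
    have h3 : μ (⋃ n : ℕ, Set.Ici (x0 + 1 / ((n : ℝ) + 1))) = 0 := by
      apply measure_iUnion_null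
      intro n
      apply hhigh
      have : 0 < 1 / ((n : ℝ) + 1) := by positivity
      linarith
    refine measure_mono_null ?_ h3
    intro x hx
    rw [Set.mem_Ioi] at hx
    rw [Set.mem_iUnion]
    obtain ⟨n, hn⟩ := exists_nat_one_div_lt (sub_pos.2 hx)
    exact ⟨n, by rw [Set.mem_Ici]; linarith⟩
  have hcompl : μ ({x0}ᶜ : Set ℝ) = 0 := by
    have e : ({x0}ᶜ : Set ℝ) ⊆ Set.Iio x0 ∪ Set.Ioi x0 := by
      intro x hx
      rcases lt_or_gt_of_ne (fun h : x = x0 => hx h) with h | h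
      · exact Or.inl h
      · exact Or.inr h
    exact measure_mono_null e (measure_union_null hIio hIoi)
  apply hμ x0
  ext s hs
  rw [Measure.dirac_apply' _ hs]
  by_cases hxs : x0 ∈ s
  · rw [Set.indicator_of_mem hxs, Pi.one_apply]
    have h5 : μ sᶜ = 0 := by
      refine measure_mono_null ?_ hcompl
      intro x hx hx'
      rw [Set.mem_singleton_iff] at hx'
      rw [hx'] at hx
      exact hx hxs
    exact (prob_compl_eq_zero_iff hs).1 h5
  · rw [Set.indicator_of_notMem hxs]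
    refine measure_mono_null ?_ hcompl
    intro x hx hx'
    rw [Set.mem_singleton_iff] at hx'
    rw [hx'] at hx
    exact hxs hx

theorem LimS_tail {Ω : Type} [Fintype Ω] (p : Ω → ℝ) (hp : IsP p) (Z : Ω → ℝ) (m C0 : ℝ)
    (hC0 : 0 < C0) (r : ℝ) (hn0 : 0 < r)
    (hsub : ∀ t : ℝ, av p (fun ω => Real.exp (t * (Z ω - m))) ≤ Real.exp (C0 * t ^ 2 * r))
    (s : ℝ) (hs : 0 < s) :
    av p (fun ω => ind (s * √r ≤ |Z ω - m|)) ≤ 2 * Real.exp (-(s ^ 2 / (4 * C0))) := by
  have hq : 0 < √r := Real.sqrt_pos.2 hn0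
  have hqq : √r ^ 2 = r := Real.sq_sqrt hn0.le
  obtain ⟨t, ht⟩ : ∃ t : ℝ, t = s / (2 * C0 * √r) := ⟨_, rfl⟩
  have ht0 : 0 < t := by
    rw [ht]
    positivity
  have e1 : t * (s * √r) = s ^ 2 / (2 * C0) := by
    rw [ht]
    field_simp
  have e2 : C0 * t ^ 2 * r = s ^ 2 / (4 * C0) := by
    rw [ht, div_pow, mul_pow, hqq]
    field_simp
    ring
  have hpt : ∀ ω, ind (s * √r ≤ |Z ω - m|) ≤
      Real.exp (-(s ^ 2 / (2 * C0))) * Real.exp (t * (Z ω - m)) +
        Real.exp (-(s ^ 2 / (2 * C0))) * Real.exp ((-t) * (Z ω - m)) := by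
    intro ω
    by_cases h : s * √r ≤ |Z ω - m|
    · have hi : ind (s * √r ≤ |Z ω - m|) = 1 := by
        unfold ind
        rw [if_pos h]
      rw [hi, ← Real.exp_add, ← Real.exp_add]
      rcases abs_cases (Z ω - m) with ⟨h1, h2⟩ | ⟨h1, h2⟩
      · rw [h1] at h
        have h3 : 0 ≤ -(s ^ 2 / (2 * C0)) + t * (Z ω - m) := by
          rw [← e1]
          nlinarith
        have h4 := Real.one_le_exp h3
        have h5 := (Real.exp_pos (-(s ^ 2 / (2 * C0)) + (-t) * (Z ω - m))).le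
        linarith
      · rw [h1] at h
        have h3 : 0 ≤ -(s ^ 2 / (2 * C0)) + (-t) * (Z ω - m) := by
          rw [← e1]
          nlinarith
        have h4 := Real.one_le_exp h3
        have h5 := (Real.exp_pos (-(s ^ 2 / (2 * C0)) + t * (Z ω - m))).le
        linarith
    · have hi : ind (s * √r ≤ |Z ω - m|) = 0 := by
        unfold ind
        rw [if_neg h]
      rw [hi]
      positivity
  have h1 := av_mono hp hpt
  rw [av_add, av_mul, av_mul] at h1
  have h2 := hsub t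
  have h3 := hsub (-t)
  rw [neg_sq, e2] at h3
  rw [e2] at h2
  have hE : 0 ≤ Real.exp (-(s ^ 2 / (2 * C0))) := (Real.exp_pos _).le
  have h4 : Real.exp (-(s ^ 2 / (2 * C0))) * Real.exp (s ^ 2 / (4 * C0)) =
      Real.exp (-(s ^ 2 / (4 * C0))) := by
    rw [← Real.exp_add]
    congr 1
    field_simp
    ring
  calc av p (fun ω => ind (s * √r ≤ |Z ω - m|))
      ≤ Real.exp (-(s ^ 2 / (2 * C0))) * av p (fun ω => Real.exp (t * (Z ω - m))) +
        Real.exp (-(s ^ 2 / (2 * C0))) * av p (fun ω => Real.exp ((-t) * (Z ω - m))) := h1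
    _ ≤ Real.exp (-(s ^ 2 / (2 * C0))) * Real.exp (s ^ 2 / (4 * C0)) +
        Real.exp (-(s ^ 2 / (2 * C0))) * Real.exp (s ^ 2 / (4 * C0)) :=
      add_le_add (mul_le_mul_of_nonneg_left h2 hE) (mul_le_mul_of_nonneg_left h3 hE)
    _ = 2 * Real.exp (-(s ^ 2 / (4 * C0))) := by
      rw [h4]
      ring

/-- a point of the typical set where f is positive -/
theorem LimS_pick {Ω : Type} [Fintype Ω] (p : Ω → ℝ) (hp : IsP p) (Z g : Ω → ℝ)
    (m L ε : ℝ) (hg : ∀ ω, g ω ≤ 1) (ht : av p (fun ω => ind (L ≤ |Z ω - m|)) ≤ ε)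
    (hf : ε < av p g) : ∃ ω, |Z ω - m| < L ∧ 0 < g ω := by
  by_contra hcon
  push Not at hcon
  have h1 : av p g ≤ av p (fun ω => ind (L ≤ |Z ω - m|)) := by
    apply av_mono hp
    intro ω
    by_cases h : L ≤ |Z ω - m|
    · have hi : ind (L ≤ |Z ω - m|) = 1 := by
        unfold ind
        rw [if_pos h]
      rw [hi]
      exact hg ω
    · have hi : ind (L ≤ |Z ω - m|) = 0 := by
        unfold ind
        rw [if_neg h]
      rw [hi]
      exact hcon ω (not_le.1 h)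
  linarith

theorem LimS_int (μ : Measure ℝ) [IsProbabilityMeasure μ] (f : ℝ → ℝ) (hc : Continuous f)
    (h0 : ∀ x, 0 ≤ f x) (h1 : ∀ x, f x ≤ 1) (S : Set ℝ) (hS : MeasurableSet S)
    (hf : ∀ x ∈ S, f x = 1) : μ.real S ≤ ∫ x, f x ∂μ := by
  have e1 : ∫ x, S.indicator (fun _ => (1 : ℝ)) x ∂μ = μ.real S := by
    rw [integral_indicator hS]
    simp
  rw [← e1]
  have hint : Integrable f μ := by
    refine Integrable.of_bound hc.aestronglyMeasurable 1 (Eventually.of_forall fun x => ?_)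
    rw [Real.norm_eq_abs, abs_of_nonneg (h0 x)]
    exact h1 x
  refine integral_mono_of_nonneg (Eventually.of_forall fun x => ?_) hint
    (Eventually.of_forall fun x => ?_)
  · exact Set.indicator_nonneg (fun _ _ => zero_le_one) x
  · by_cases hx : x ∈ S
    · change S.indicator (fun _ => (1 : ℝ)) x ≤ f x
      rw [Set.indicator_of_mem hx, hf x hx]
    · change S.indicator (fun _ => (1 : ℝ)) x ≤ f x
      rw [Set.indicator_of_notMem hx]
      exact h0 x

theorem lim_upperS {Ω : ℕ → Type} [∀ n, Fintype (Ω n)] (p : ∀ n, Ω n → ℝ) (hp : ∀ n, IsP (p n))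
    (T : ℕ → ℝ) (hT : Tendsto T atTop atTop)
    (Z : ∀ n, Ω n → ℝ) (m : ℕ → ℝ) (C0 : ℝ) (hC0 : 0 < C0)
    (hsub : ∀ (n : ℕ) (t : ℝ), av (p n) (fun ω => Real.exp (t * (Z n ω - m n))) ≤
      Real.exp (C0 * t ^ 2 * T n))
    (a b : ℕ → ℝ) (hb : ∀ n, 0 < b n) (μ : Measure ℝ) [IsProbabilityMeasure μ]
    (hμ : ∀ x, μ ≠ Measure.dirac x)
    (hlim : ∀ f : ℝ → ℝ, Continuous f → (∃ B, ∀ x, |f x| ≤ B) →
      Tendsto (fun n => av (p n) (fun ω => f ((Z n ω - a n) / b n))) atTop (𝓝 (∫ x, f x ∂μ))) :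
    ∃ C : ℝ, 0 < C ∧ ∀ᶠ n : ℕ in atTop, b n ≤ C * √(T n) ∧ |a n - m n| ≤ C * √(T n) := by
  obtain ⟨u, v, huv, hu, hv⟩ := LimS_nondeg μ hμ
  obtain ⟨ε, hε⟩ : ∃ ε : ℝ, ε = min (μ.real (Set.Iic u)) (μ.real (Set.Ici v)) / 2 := ⟨_, rfl⟩
  have hε0 : 0 < ε := by
    rw [hε]
    exact half_pos (lt_min hu hv)
  have hεu : ε < μ.real (Set.Iic u) := by
    have h1 := min_le_left (μ.real (Set.Iic u)) (μ.real (Set.Ici v))
    rw [hε] at hε0 ⊢
    linarith
  have hεv : ε < μ.real (Set.Ici v) := by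
    have h1 := min_le_right (μ.real (Set.Iic u)) (μ.real (Set.Ici v))
    rw [hε] at hε0 ⊢
    linarith
  obtain ⟨h, hh⟩ : ∃ h : ℝ, h = (v - u) / 4 := ⟨_, rfl⟩
  have hh0 : 0 < h := by
    rw [hh]
    linarith
  obtain ⟨K, hK⟩ : ∃ K : ℝ, K = √(8 * C0 / ε) := ⟨_, rfl⟩
  have hK0 : 0 < K := by
    rw [hK]
    exact Real.sqrt_pos.2 (by positivity)
  have hK2 : K ^ 2 / (4 * C0) = 2 / ε := by
    rw [hK, Real.sq_sqrt (by positivity)]
    field_simp
    norm_num
  have hKe : 2 * Real.exp (-(K ^ 2 / (4 * C0))) ≤ ε := by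
    rw [hK2, Real.exp_neg]
    have h1 : 2 / ε ≤ Real.exp (2 / ε) := by
      have := Real.add_one_le_exp (2 / ε)
      linarith
    have h2 : (0 : ℝ) < 2 / ε := by positivity
    have h3 : (Real.exp (2 / ε))⁻¹ ≤ (2 / ε)⁻¹ := inv_anti₀ h2 h1
    rw [inv_div] at h3
    linarith
  -- the two test functions
  have hf1c : Continuous (fun x : ℝ => min 1 (max 0 ((u + h - x) / h))) := by fun_prop
  have hf2c : Continuous (fun x : ℝ => min 1 (max 0 ((x - (v - h)) / h))) := by fun_prop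
  have hf1a : ∀ x : ℝ, 0 ≤ min 1 (max 0 ((u + h - x) / h)) := fun x =>
    le_min zero_le_one (le_max_left _ _)
  have hf2a : ∀ x : ℝ, 0 ≤ min 1 (max 0 ((x - (v - h)) / h)) := fun x =>
    le_min zero_le_one (le_max_left _ _)
  have hi1 : μ.real (Set.Iic u) ≤ ∫ x, min 1 (max 0 ((u + h - x) / h)) ∂μ := by
    refine LimS_int μ _ hf1c hf1a (fun x => min_le_left _ _) _ measurableSet_Iic ?_
    intro x hx
    rw [Set.mem_Iic] at hx
    apply min_eq_left
    refine le_trans ?_ (le_max_right _ _)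
    rw [le_div_iff₀ hh0]
    linarith
  have hi2 : μ.real (Set.Ici v) ≤ ∫ x, min 1 (max 0 ((x - (v - h)) / h)) ∂μ := by
    refine LimS_int μ _ hf2c hf2a (fun x => min_le_left _ _) _ measurableSet_Ici ?_
    intro x hx
    rw [Set.mem_Ici] at hx
    apply min_eq_left
    refine le_trans ?_ (le_max_right _ _)
    rw [le_div_iff₀ hh0]
    linarith
  have hl1 := hlim _ hf1c ⟨1, fun x => by
    rw [abs_of_nonneg (hf1a x)]
    exact min_le_left _ _⟩
  have hl2 := hlim _ hf2c ⟨1, fun x => by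
    rw [abs_of_nonneg (hf2a x)]
    exact min_le_left _ _⟩
  have he1 := hl1.eventually (lt_mem_nhds (lt_of_lt_of_le hεu hi1))
  have he2 := hl2.eventually (lt_mem_nhds (lt_of_lt_of_le hεv hi2))
  obtain ⟨D, hD⟩ : ∃ D : ℝ, D = 4 * K / (v - u) := ⟨_, rfl⟩
  have hvu : 0 < v - u := sub_pos.2 huv
  have hD0 : 0 < D := by
    rw [hD]
    positivity
  refine ⟨D + (D * (|u| + |v| + h) + K), by positivity, ?_⟩
  filter_upwards [he1, he2, hT.eventually_ge_atTop 1] with n hn1 hn2 hn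
  have hn0 : 0 < T n := by linarith
  have hq : 0 < √(T n) := Real.sqrt_pos.2 hn0
  have htail := (LimS_tail (p n) (hp n) (Z n) (m n) C0 hC0 (T n) hn0 (hsub n) K hK0).trans hKe
  obtain ⟨w1, hw1, hw1'⟩ := LimS_pick (p n) (hp n) (Z n) _ (m n) (K * √(T n)) ε
    (fun ω => min_le_left _ _) htail hn1
  obtain ⟨w2, hw2, hw2'⟩ := LimS_pick (p n) (hp n) (Z n) _ (m n) (K * √(T n)) ε
    (fun ω => min_le_left _ _) htail hn2
  have hbn := hb n
  have h1 : (Z n w1 - a n) / b n < u + h := by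
    have h2 := lt_of_lt_of_le hw1' (min_le_right _ _)
    rcases lt_max_iff.1 h2 with h3 | h3
    · exact absurd h3 (lt_irrefl _)
    · rw [div_pos_iff_of_pos_right hh0] at h3
      linarith
  have h2 : v - h < (Z n w2 - a n) / b n := by
    have h2 := lt_of_lt_of_le hw2' (min_le_right _ _)
    rcases lt_max_iff.1 h2 with h3 | h3
    · exact absurd h3 (lt_irrefl _)
    · rw [div_pos_iff_of_pos_right hh0] at h3
      linarith
  rw [div_lt_iff₀ hbn] at h1
  rw [lt_div_iff₀ hbn] at h2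
  have h3 := (abs_lt.1 hw1).1
  have h4 := (abs_lt.1 hw2).2
  have hup : m n - a n < (u + h) * b n + K * √(T n) := by linarith
  have hlo : (v - h) * b n - K * √(T n) < m n - a n := by linarith
  have hbD : b n ≤ D * √(T n) := by
    rw [hD, div_mul_eq_mul_div, le_div_iff₀ hvu]
    have e : (v - h) * b n - (u + h) * b n = (v - u) / 2 * b n := by
      rw [hh]
      ring
    nlinarith
  have hX : 0 ≤ |u| + |v| + h := by positivity
  have hbX : (|u| + |v| + h) * b n ≤ (|u| + |v| + h) * (D * √(T n)) :=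
    mul_le_mul_of_nonneg_left hbD hX
  have hb1 : (u + h) * b n ≤ (|u| + |v| + h) * b n := by
    apply mul_le_mul_of_nonneg_right _ hbn.le
    have := le_abs_self u
    have := abs_nonneg v
    linarith
  have hb2 : -((|u| + |v| + h) * b n) ≤ (v - h) * b n := by
    have e : -((|u| + |v| + h) * b n) = (-(|u| + |v| + h)) * b n := by ring
    rw [e]
    apply mul_le_mul_of_nonneg_right _ hbn.le
    have := neg_abs_le v
    have := abs_nonneg u
    linarith
  have hpos1 : 0 ≤ (D * (|u| + |v| + h) + K) * √(T n) := by positivity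
  have hpos2 : 0 ≤ D * √(T n) := by positivity
  constructor
  · calc b n ≤ D * √(T n) := hbD
      _ ≤ (D + (D * (|u| + |v| + h) + K)) * √(T n) := by
        rw [add_mul]
        linarith
  · rw [abs_le]
    constructor <;> nlinarith

end LCSA
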