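import Pool.Agent.LCSA.Upper
import Pool.Agent.LCSA.Cmp

/-!
# Upper bound for the concentration of the length near one value: the main estimate
-/

namespace LCSA

open Finset LCSV

variable {k K : ℕ} {w : Fin K → Fin k} {p ε δ c : ℝ} {n0 : ℕ}

/-- the derivative estimate at distance `t` from `p` -/
theorem DV_two (h : Drift k K w p ε δ c n0) (n : ℕ) (hn : n0 ≤ n) (lam v t : ℝ) (hl : 0 < lam)
    (hl1 : lam * K ≤ 1) (hl2 : 4 * lam * K ^ 2 ≤ δ) (ht0 : 0 ≤ t) (ht1 : t ≤ ε) (htp : t ≤ p)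
    (htN : 2 * ((n / K : ℕ) : ℝ) * t ^ 2 ≤ p ^ 2) :
    lam * δ / 2 * n * Et w (n / K) (n % K) n p (fun X Y => uf lam v (lcs X Y)) -
      8 * ((lam * δ / 2 + 2) * n * Real.exp (-(c * n))) ≤
      DV w n lam v (p + t) + DV w n lam v (p - t) := by
  have h1 := DV_ge h n hn lam v (p + t) hl hl1 hl2 (by linarith [h.he0]) (by linarith)
  have h2 := DV_ge h n hn lam v (p - t) hl hl1 hl2 (by linarith) (by linarith [h.he0])
  have h3 := Et_cmp h.hk h.hK w (n / K) (n % K) n p t h.hp0 h.hp1 ht0 htN htp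
    (fun X Y => uf lam v (lcs X Y)) (fun X Y => uf_nonneg _ _ _)
  have h4 : 0 ≤ lam * δ / 2 * n := by
    have := h.hd
    positivity
  have h5 := mul_le_mul_of_nonneg_left h3 h4
  linarith

/-- the mean value inequality -/
theorem phi_ge (h : Drift k K w p ε δ c n0) (n : ℕ) (hn : n0 ≤ n) (lam v hh : ℝ) (hl : 0 < lam)
    (hl1 : lam * K ≤ 1) (hl2 : 4 * lam * K ^ 2 ≤ δ) (h0 : 0 ≤ hh) (h1 : hh ≤ ε) (hp : hh ≤ p)
    (hN : 2 * ((n / K : ℕ) : ℝ) * hh ^ 2 ≤ p ^ 2) :
    (lam * δ / 2 * n * Et w (n / K) (n % K) n p (fun X Y => uf lam v (lcs X Y)) -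
      8 * ((lam * δ / 2 + 2) * n * Real.exp (-(c * n)))) * hh ≤
    Et w (n / K) (n % K) n (p + hh) (fun X Y => Vf lam v (lcs X Y)) -
      Et w (n / K) (n % K) n (p - hh) (fun X Y => Vf lam v (lcs X Y)) := by
  set G : ℝ → ℝ := fun θ => Et w (n / K) (n % K) n θ (fun X Y => Vf lam v (lcs X Y)) with hG
  set A := lam * δ / 2 * n * Et w (n / K) (n % K) n p (fun X Y => uf lam v (lcs X Y)) -
      8 * ((lam * δ / 2 + 2) * n * Real.exp (-(c * n))) with hA
  have hder : ∀ t ∈ Set.Icc (0 : ℝ) hh, HasDerivAt (fun t => G (p + t) - G (p - t))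
      (DV w n lam v (p + t) + DV w n lam v (p - t)) t := by
    intro t ht
    have e1 := hasDeriv_V h n lam v (p + t) (by linarith [h.he0, ht.1]) (by linarith [ht.2])
    have e2 := hasDeriv_V h n lam v (p - t) (by linarith [ht.2]) (by linarith [h.he0, ht.1])
    have e3 : HasDerivAt (fun t : ℝ => p + t) 1 t := by
      simpa using (hasDerivAt_id t).const_add p
    have e4 : HasDerivAt (fun t : ℝ => p - t) (-1) t := by
      simpa using (hasDerivAt_id t).const_sub p
    have e5 := (e1.comp t e3).sub (e2.comp t e4)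
    have e6 : DV w n lam v (p + t) * 1 - DV w n lam v (p - t) * (-1) =
        DV w n lam v (p + t) + DV w n lam v (p - t) := by ring
    rw [e6] at e5
    exact e5
  have hmv := Convex.mul_sub_le_image_sub_of_le_deriv (D := Set.Icc (0 : ℝ) hh) (convex_Icc _ _)
    (f := fun t => G (p + t) - G (p - t))
    (fun t ht => (hder t ht).continuousAt.continuousWithinAt)
    (fun t ht => (hder t (interior_subset ht)).differentiableAt.differentiableWithinAt)
    (C := A) (fun t ht => by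
      have ht' := interior_subset ht
      rw [(hder t ht').deriv]
      apply DV_two h n hn lam v t hl hl1 hl2 ht'.1 (ht'.2.trans h1) (ht'.2.trans hp)
      refine le_trans ?_ hN
      apply mul_le_mul_of_nonneg_left _ (by positivity)
      exact pow_le_pow_left₀ ht'.1 ht'.2 2)
    0 ⟨le_rfl, h0⟩ hh ⟨h0, le_rfl⟩ h0
  simpa using hmv

/-- the bound for large `n` -/
theorem upper_large (h : Drift k K w p ε δ c n0) (lam kap : ℝ) (hl : 0 < lam)
    (hl1 : lam * K ≤ 1) (hl2 : 4 * lam * K ^ 2 ≤ δ) (hkap : 0 < kap) (hkl : kap ≤ lam)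
    (hK : kap * ((K : ℝ) ^ 2 + 2) ≤ 1) (n : ℕ) (hn : n0 ≤ n) (hn1 : 1 ≤ n)
    (hn2 : p ^ 2 ≤ 2 * ε ^ 2 * n) (v : ℝ) (hv0 : 0 ≤ v) (hv1 : v ≤ n) :
    Et w (n / K) (n % K) n p (fun X Y => uf lam v (lcs X Y)) ≤
      (2 / (lam * δ) * (4 * Real.exp (16 * kap) / p + 16 * (lam * δ / 2 + 2) / c)) / √(n : ℝ) *
        Real.exp (-(min (kap / 4) (c / 2) *
          (v - Et w (n / K) (n % K) n p (fun X Y => (lcs X Y : ℝ))) ^ 2 / n)) := by
  have hd := h.hd
  have hp0 := h.hp0
  have he0 := h.he0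
  have hc := h.hc
  have hn' : (1 : ℝ) ≤ n := by exact_mod_cast hn1
  have hn0 : (0 : ℝ) < n := by linarith
  set y : ℝ := √(n : ℝ) with hy
  have hy1 : 1 ≤ y := by
    rw [hy]
    exact Real.one_le_sqrt.2 hn'
  have hy0 : 0 < y := by linarith
  have hyn : (n : ℝ) = y ^ 2 := (Real.sq_sqrt hn0.le).symm
  have hyn1 : y ≤ n := by rw [hyn]; nlinarith
  set M := Et w (n / K) (n % K) n p (fun X Y => (lcs X Y : ℝ)) with hM
  have hMr := mean_range h n p (by linarith) (by linarith)
  rw [← hM] at hMr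
  set U := Et w (n / K) (n % K) n p (fun X Y => uf lam v (lcs X Y)) with hU
  set hh : ℝ := p / (√2 * y) with hhh
  have hs2 : (√2 : ℝ) ^ 2 = 2 := Real.sq_sqrt (by norm_num)
  have hs20 : (0 : ℝ) < √2 := Real.sqrt_pos.2 (by norm_num)
  have hs21 : (1 : ℝ) ≤ √2 := by nlinarith
  have hs22 : (√2 : ℝ) ≤ 2 := by nlinarith
  have hh0 : 0 < hh := by positivity
  have hhsq : hh ^ 2 = p ^ 2 / (2 * n) := by
    rw [hhh, div_pow, mul_pow, hs2, hyn]
  have hh1 : hh ≤ ε := by
    apply abs_le_of_sq_le_sq' _ he0.le |>.2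
    rw [hhsq, div_le_iff₀ (by positivity)]
    linarith
  have hhp : hh ≤ p := by
    rw [hhh, div_le_iff₀ (by positivity)]
    have : 1 ≤ √2 * y := by nlinarith
    nlinarith
  have hhN : 2 * ((n / K : ℕ) : ℝ) * hh ^ 2 ≤ p ^ 2 := by
    have h1 : ((n / K : ℕ) : ℝ) ≤ n := by exact_mod_cast Nat.div_le_self n K
    rw [hhsq]
    have h2 : 2 * ((n / K : ℕ) : ℝ) * (p ^ 2 / (2 * n)) ≤ 2 * n * (p ^ 2 / (2 * n)) :=
      mul_le_mul_of_nonneg_right (by linarith) (by positivity)
    refine h2.trans (le_of_eq ?_)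
    field_simp
  have hhn : n * hh ≤ y := by
    have h1 : (n : ℝ) * hh = y * (p / √2) := by
      rw [hhh, hyn]
      field_simp
    rw [h1]
    have h2 : p / √2 ≤ 1 := by
      rw [div_le_one hs20]
      have := h.hp1
      linarith
    nlinarith
  have h1 := phi_ge h n hn lam v hh hl hl1 hl2 hh0.le hh1 hhp hhN
  have h2 := phi_le h n (by omega) lam v hh kap hl hh0.le hh1 hhn hkap.le hkl hK hv0 hv1
  rw [← hM] at h2
  rw [← hU] at h1
  set E1 := Real.exp (-(kap / 4 * (v - M) ^ 2 / n)) with hE1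
  set E := Real.exp (-(min (kap / 4) (c / 2) * (v - M) ^ 2 / n)) with hE
  have hvM : (v - M) ^ 2 ≤ (n : ℝ) ^ 2 := by
    apply sq_le_sq'
    · linarith
    · linarith
  have hEE1 : E1 ≤ E := by
    apply Real.exp_le_exp.2
    apply neg_le_neg
    apply div_le_div_of_nonneg_right _ hn0.le
    exact mul_le_mul_of_nonneg_right (min_le_left _ _) (sq_nonneg _)
  have hEE2 : Real.exp (-(c * n)) ≤ 2 / (c * y) * E := by
    have e1 : Real.exp (-(c * n)) = Real.exp (-(c / 2 * n)) * Real.exp (-(c / 2 * n)) := by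
      rw [← Real.exp_add]
      congr 1
      ring
    rw [e1]
    apply mul_le_mul _ _ (Real.exp_pos _).le (by positivity)
    · rw [Real.exp_neg, inv_le_comm₀ (Real.exp_pos _) (by positivity), inv_div]
      have h3 := Real.add_one_le_exp (c / 2 * n)
      have h4 : c * y / 2 ≤ c / 2 * n := by nlinarith
      linarith
    · apply Real.exp_le_exp.2
      apply neg_le_neg
      rw [div_le_iff₀ hn0]
      have h5 : min (kap / 4) (c / 2) * (v - M) ^ 2 ≤ c / 2 * (n : ℝ) ^ 2 :=
        mul_le_mul (min_le_right _ _) hvM (sq_nonneg _) (by positivity)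
      calc min (kap / 4) (c / 2) * (v - M) ^ 2 ≤ c / 2 * (n : ℝ) ^ 2 := h5
        _ = c / 2 * n * n := by ring
  have hE0 : 0 < E := Real.exp_pos _
  have h3 : (lam * δ / 2 * n * U - 8 * ((lam * δ / 2 + 2) * n * Real.exp (-(c * n)))) * hh ≤
      2 * (Real.exp (16 * kap) * E) := by
    refine (h1.trans h2).trans ?_
    exact mul_le_mul_of_nonneg_left (mul_le_mul_of_nonneg_left hEE1 (Real.exp_pos _).le)
      (by norm_num)
  have h4 : lam * δ / 2 * n * U * hh ≤ 2 * (Real.exp (16 * kap) * E) +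
      8 * ((lam * δ / 2 + 2) * n * (2 / (c * y) * E)) * hh := by
    have h5 : 8 * ((lam * δ / 2 + 2) * n * Real.exp (-(c * n))) * hh ≤
        8 * ((lam * δ / 2 + 2) * n * (2 / (c * y) * E)) * hh := by
      apply mul_le_mul_of_nonneg_right _ hh0.le
      apply mul_le_mul_of_nonneg_left _ (by norm_num)
      exact mul_le_mul_of_nonneg_left hEE2 (by positivity)
    have h6 : (lam * δ / 2 * n * U - 8 * ((lam * δ / 2 + 2) * n * Real.exp (-(c * n)))) * hh =
      lam * δ / 2 * n * U * hh - 8 * ((lam * δ / 2 + 2) * n * Real.exp (-(c * n))) * hh := by ring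
    linarith
  -- divide by `lam * δ / 2 * n * hh`
  have h5 : 0 < lam * δ / 2 * n * hh := by positivity
  have h6 : U ≤ (2 * (Real.exp (16 * kap) * E) +
      8 * ((lam * δ / 2 + 2) * n * (2 / (c * y) * E)) * hh) / (lam * δ / 2 * n * hh) := by
    rw [le_div_iff₀ h5]
    calc U * (lam * δ / 2 * n * hh) = lam * δ / 2 * n * U * hh := by ring
      _ ≤ _ := h4
  refine h6.trans ?_
  have e1 : (2 * (Real.exp (16 * kap) * E) +
      8 * ((lam * δ / 2 + 2) * n * (2 / (c * y) * E)) * hh) / (lam * δ / 2 * n * hh) =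
      (2 / (lam * δ) * (2 * √2 * Real.exp (16 * kap) / p + 16 * (lam * δ / 2 + 2) / c)) / y * E := by
    rw [hhh, hyn]
    field_simp
    ring
  rw [e1]
  apply mul_le_mul_of_nonneg_right _ hE0.le
  apply div_le_div_of_nonneg_right _ hy0.le
  apply mul_le_mul_of_nonneg_left _ (by positivity)
  have h7 : 2 * √2 * Real.exp (16 * kap) / p ≤ 4 * Real.exp (16 * kap) / p := by
    apply div_le_div_of_nonneg_right _ hp0.le
    apply mul_le_mul_of_nonneg_right _ (Real.exp_pos _).le
    linarith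
  linarith

/-- the mean of the length of a longest common subsequence -/
noncomputable def mn (k n : ℕ) : ℝ :=
  EL (un k) n (fun X => EL (un k) n (fun Y => (lcs X Y : ℝ)))

theorem unif (h : Drift k K w p ε δ c n0) (n : ℕ) (F : List (Fin k) → List (Fin k) → ℝ) :
    Et w (n / K) (n % K) n p F = EL (un k) n (fun X => EL (un k) n (fun Y => F X Y)) := by
  rw [h.hpe, Et_unif h.hk h.hK w, Nat.div_add_mod']

/-- **the local upper bound** -/
theorem upper (h : Drift k K w p ε δ c n0) : ∃ lam C c' : ℝ, 0 < lam ∧ 0 < C ∧ 0 < c' ∧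
    ∀ n : ℕ, 1 ≤ n → ∀ v : ℝ, 0 ≤ v → v ≤ n →
      EL (un k) n (fun X => EL (un k) n (fun Y => uf lam v (lcs X Y))) ≤
        C / √(n : ℝ) * Real.exp (-(c' * (v - mn k n) ^ 2 / n)) := by
  have hd := h.hd
  have hp0 := h.hp0
  have he0 := h.he0
  have hc := h.hc
  have hK1 : (1 : ℝ) ≤ K := by exact_mod_cast h.hK
  have hK0 : (0 : ℝ) < K := by linarith
  set lam : ℝ := min (1 / K) (δ / (4 * K ^ 2)) with hlam
  have hl : 0 < lam := lt_min (by positivity) (by positivity)
  have hl1 : lam * K ≤ 1 := by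
    calc lam * K ≤ 1 / K * K := mul_le_mul_of_nonneg_right (min_le_left _ _) hK0.le
      _ = 1 := by field_simp
  have hl2 : 4 * lam * (K : ℝ) ^ 2 ≤ δ := by
    have h1 : lam ≤ δ / (4 * K ^ 2) := min_le_right _ _
    rw [le_div_iff₀ (by positivity)] at h1
    linarith
  set kap : ℝ := min lam (1 / ((K : ℝ) ^ 2 + 2)) with hkap
  have hkap0 : 0 < kap := lt_min hl (by positivity)
  have hK2 : kap * ((K : ℝ) ^ 2 + 2) ≤ 1 := by
    have h1 : kap ≤ 1 / ((K : ℝ) ^ 2 + 2) := min_le_right _ _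
    rwa [le_div_iff₀ (by positivity)] at h1
  set c' : ℝ := min (kap / 4) (c / 2) with hc'
  have hc0 : 0 < c' := lt_min (by positivity) (by positivity)
  set C1 : ℝ := 2 / (lam * δ) * (4 * Real.exp (16 * kap) / p + 16 * (lam * δ / 2 + 2) / c) with hC1
  have hC10 : 0 < C1 := by positivity
  obtain ⟨n1, hn1⟩ := exists_nat_ge (p ^ 2 / (2 * ε ^ 2))
  set n2 : ℕ := max n0 (max n1 1) with hn2
  set C2 : ℝ := √(n2 : ℝ) * Real.exp (c' * n2) with hC2
  have hC20 : 0 ≤ C2 := by positivity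
  refine ⟨lam, C1 + C2, c', hl, by positivity, hc0, fun n hn v hv0 hv1 => ?_⟩
  have hn' : (1 : ℝ) ≤ n := by exact_mod_cast hn
  have hy0 : 0 < √(n : ℝ) := Real.sqrt_pos.2 (by linarith)
  have hM : mn k n = Et w (n / K) (n % K) n p (fun X Y => (lcs X Y : ℝ)) := by
    rw [unif h]
    rfl
  rw [← unif h n (fun X Y => uf lam v (lcs X Y))]
  rcases le_or_gt n2 n with hle | hgt
  · have h1 := upper_large h lam kap hl hl1 hl2 hkap0 (min_le_left _ _) hK2 n
      (le_trans (le_max_left _ _) hle) hn (by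
        have h2 : (n1 : ℝ) ≤ n := by
          exact_mod_cast (le_trans (le_max_left _ _) (le_max_right _ _)).trans hle
        have h3 := hn1.trans h2
        rw [div_le_iff₀ (by positivity)] at h3
        linarith) v hv0 hv1
    rw [← hM] at h1
    refine h1.trans ?_
    apply mul_le_mul_of_nonneg_right _ (Real.exp_pos _).le
    apply div_le_div_of_nonneg_right _ hy0.le
    linarith
  · have hMr := mean_range h n p (by linarith) (by linarith)
    rw [← hM] at hMr
    have hU : Et w (n / K) (n % K) n p (fun X Y => uf lam v (lcs X Y)) ≤ 1 := by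
      obtain ⟨ht0, ht1⟩ := h.mem (θ := p) (by linarith) (by linarith)
      have := Et_mono h.hk h.hK w (n / K) (n % K) n p ht0 (by linarith)
        (F := fun X Y => uf lam v (lcs X Y)) (G := fun _ _ => (1 : ℝ))
        (fun X Y _ _ => uf_le_one hl.le _ _)
      rwa [Et_const h.hk h.hK w _ _ _ _ ht0 (by linarith)] at this
    refine hU.trans ?_
    have hvM : (v - mn k n) ^ 2 ≤ (n : ℝ) ^ 2 := by
      apply sq_le_sq'
      · linarith
      · linarith
    have hn2' : (n : ℝ) ≤ n2 := by exact_mod_cast hgt.le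
    have h1 : c' * (v - mn k n) ^ 2 / n ≤ c' * n2 := by
      rw [div_le_iff₀ (by linarith)]
      calc c' * (v - mn k n) ^ 2 ≤ c' * (n : ℝ) ^ 2 := mul_le_mul_of_nonneg_left hvM hc0.le
        _ = c' * n * n := by ring
        _ ≤ c' * n2 * n := by
          apply mul_le_mul_of_nonneg_right _ (by linarith)
          exact mul_le_mul_of_nonneg_left hn2' hc0.le
    have h2 : 1 ≤ C2 / √(n : ℝ) * Real.exp (-(c' * (v - mn k n) ^ 2 / n)) := by
      rw [hC2]
      have h3 : Real.exp (-(c' * n2)) ≤ Real.exp (-(c' * (v - mn k n) ^ 2 / n)) :=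
        Real.exp_le_exp.2 (by linarith)
      have h4 : 1 ≤ √(n2 : ℝ) / √(n : ℝ) := by
        rw [one_le_div hy0]
        exact Real.sqrt_le_sqrt hn2'
      calc (1 : ℝ) = 1 * (Real.exp (c' * n2) * Real.exp (-(c' * n2))) := by
            rw [← Real.exp_add]
            simp
        _ ≤ (√(n2 : ℝ) / √(n : ℝ)) * (Real.exp (c' * n2) *
            Real.exp (-(c' * (v - mn k n) ^ 2 / n))) := by
          apply mul_le_mul h4 _ (by positivity) (by positivity)
          exact mul_le_mul_of_nonneg_left h3 (Real.exp_pos _).le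
        _ = _ := by ring
    refine h2.trans ?_
    apply mul_le_mul_of_nonneg_right _ (Real.exp_pos _).le
    apply div_le_div_of_nonneg_right _ hy0.le
    linarith

end LCSA
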