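import Pool.Agent.LCSA.IsoP
import Pool.Agent.LCSA.UpMain
import Pool.Agent.LCSV.TailC

/-!
# Local estimates for the law of the length
-/

namespace LCSA

open Finset LCSV

theorem EL2_mono {k : ℕ} (hk : 0 < k) (n : ℕ) {F G : List (Fin k) → List (Fin k) → ℝ}
    (h : ∀ X Y : List (Fin k), X.length = n → Y.length = n → F X Y ≤ G X Y) :
    EL (un k) n (fun X => EL (un k) n (fun Y => F X Y)) ≤
      EL (un k) n (fun X => EL (un k) n (fun Y => G X Y)) :=
  EL_mono (un_isP hk) fun X hX => EL_mono (un_isP hk) fun Y hY => h X Y hX hY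

theorem EL2_const {k : ℕ} (hk : 0 < k) (n : ℕ) (c : ℝ) :
    EL (un k) n (fun _ => EL (un k) n (fun _ => c)) = c := by
  rw [EL_const (un_isP hk), EL_const (un_isP hk)]

/-- from the tail bounds: the mean is not near 0 or `n` -/
theorem mean_mid {k : ℕ} (hk : 0 < k) (c C : ℝ) (hc : 0 < c) (n : ℕ) (hn : 1 ≤ n)
    (h : ∀ t : ℝ, 0 ≤ t → t ≤ c * √(n : ℝ) →
      c * Real.exp (-(C * t ^ 2)) ≤ EL (un k) n (fun X => EL (un k) n (fun Y =>
        ind (t * √(n : ℝ) ≤ (lcs X Y : ℝ) - mn k n))) ∧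
      c * Real.exp (-(C * t ^ 2)) ≤ EL (un k) n (fun X => EL (un k) n (fun Y =>
        ind (t * √(n : ℝ) ≤ mn k n - (lcs X Y : ℝ))))) :
    c * n ≤ mn k n ∧ mn k n + c * n ≤ n := by
  have hn0 : (0 : ℝ) < n := by exact_mod_cast hn
  have hs : √(n : ℝ) * √(n : ℝ) = n := Real.mul_self_sqrt hn0.le
  obtain ⟨h1, h2⟩ := h (c * √(n : ℝ)) (by positivity) le_rfl
  have h0 : 0 < c * Real.exp (-(C * (c * √(n : ℝ)) ^ 2)) := by positivity
  have e : c * √(n : ℝ) * √(n : ℝ) = c * n := by rw [mul_assoc, hs]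
  rw [e] at h1 h2
  constructor
  · by_contra hcon
    have h3 : EL (un k) n (fun X => EL (un k) n (fun Y => ind (c * n ≤ mn k n - (lcs X Y : ℝ)))) ≤
        EL (un k) n (fun _ => EL (un k) n (fun _ => (0 : ℝ))) := by
      apply EL2_mono hk
      intro X Y _ _
      rw [ind_not]
      intro h4
      have : (0 : ℝ) ≤ lcs X Y := Nat.cast_nonneg _
      linarith
    rw [EL2_const hk] at h3
    linarith
  · by_contra hcon
    have h3 : EL (un k) n (fun X => EL (un k) n (fun Y => ind (c * n ≤ (lcs X Y : ℝ) - mn k n))) ≤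
        EL (un k) n (fun _ => EL (un k) n (fun _ => (0 : ℝ))) := by
      apply EL2_mono hk
      intro X Y hX _
      rw [ind_not]
      intro h4
      have h5 := lcs_le_left X Y
      rw [hX] at h5
      have : (lcs X Y : ℝ) ≤ n := by exact_mod_cast h5
      linarith
    rw [EL2_const hk] at h3
    linarith

theorem pge_compl {k : ℕ} (hk : 0 < k) (n m : ℕ) :
    1 - pge k n (m + 1) = EL (un k) n (fun X => EL (un k) n (fun Y => ind (lcs X Y ≤ m))) := by
  unfold pge
  have h : EL (un k) n (fun X => EL (un k) n (fun Y => ind (m + 1 ≤ lcs X Y) + ind (lcs X Y ≤ m))) =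
      1 := by
    rw [← EL2_const hk n 1]
    apply EL_congr
    intro X _
    apply EL_congr
    intro Y _
    by_cases h1 : m + 1 ≤ lcs X Y
    · rw [ind_of h1, ind_not (by omega), add_zero]
    · rw [ind_not h1, ind_of (by omega), zero_add]
  simp only [EL_add] at h
  linarith

/-- the product of the two tail probabilities -/
theorem J_ge {k : ℕ} (hk : 0 < k) (c C : ℝ) (hc : 0 < c) (hC : 0 < C) (n : ℕ) (hn : 1 ≤ n)
    (h : ∀ t : ℝ, 0 ≤ t → t ≤ c * √(n : ℝ) →
      c * Real.exp (-(C * t ^ 2)) ≤ EL (un k) n (fun X => EL (un k) n (fun Y =>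
        ind (t * √(n : ℝ) ≤ (lcs X Y : ℝ) - mn k n))) ∧
      c * Real.exp (-(C * t ^ 2)) ≤ EL (un k) n (fun X => EL (un k) n (fun Y =>
        ind (t * √(n : ℝ) ≤ mn k n - (lcs X Y : ℝ))))) (m : ℕ)
    (hm : |((m + 1 : ℕ) : ℝ) - mn k n| + 1 ≤ c * n) :
    c ^ 2 * Real.exp (-(2 * C)) * Real.exp (-(3 * C * (((m + 1 : ℕ) : ℝ) - mn k n) ^ 2 / n)) ≤
      J (pge k n (m + 1)) := by
  have hn1 : (1 : ℝ) ≤ n := by exact_mod_cast hn
  have hn0 : (0 : ℝ) < n := by linarith
  set y : ℝ := √(n : ℝ) with hy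
  have hy0 : 0 < y := Real.sqrt_pos.2 hn0
  have hs : y ^ 2 = n := Real.sq_sqrt hn0.le
  set d : ℝ := ((m + 1 : ℕ) : ℝ) - mn k n with hd
  set A : ℝ := |d| with hA
  have hA0 : 0 ≤ A := abs_nonneg _
  have hA2 : A ^ 2 = d ^ 2 := sq_abs d
  have h1 := (h (A / y) (by positivity) (by
    rw [div_le_iff₀ hy0, mul_assoc, ← sq, hs]
    linarith)).1
  have h2 := (h ((A + 1) / y) (by positivity) (by
    rw [div_le_iff₀ hy0, mul_assoc, ← sq, hs]
    exact hm)).2
  rw [div_mul_cancel₀ _ hy0.ne', div_pow, hs] at h1 h2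
  have h3 : c * Real.exp (-(C * (A ^ 2 / n))) ≤ pge k n (m + 1) := by
    refine h1.trans (EL2_mono hk n fun X Y _ _ => ind_mono fun h4 => ?_)
    have h5 : d ≤ A := le_abs_self d
    have h6 : ((m + 1 : ℕ) : ℝ) ≤ lcs X Y := by
      rw [hd] at h5
      linarith
    exact_mod_cast h6
  have h4 : c * Real.exp (-(C * ((A + 1) ^ 2 / n))) ≤ 1 - pge k n (m + 1) := by
    rw [pge_compl hk]
    refine h2.trans (EL2_mono hk n fun X Y _ _ => ind_mono fun h4 => ?_)
    have h5 : -A ≤ d := neg_abs_le d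
    have h6 : (lcs X Y : ℝ) ≤ m := by
      rw [hd] at h5
      push_cast at h5
      linarith
    exact_mod_cast h6
  have h5 : c * Real.exp (-(C * (A ^ 2 / n))) * (c * Real.exp (-(C * ((A + 1) ^ 2 / n)))) ≤
      J (pge k n (m + 1)) := mul_le_mul h3 h4 (by positivity) ((by positivity : (0 : ℝ) ≤
        c * Real.exp (-(C * (A ^ 2 / n)))).trans h3)
  refine le_trans ?_ h5
  have e1 : c * Real.exp (-(C * (A ^ 2 / n))) * (c * Real.exp (-(C * ((A + 1) ^ 2 / n)))) =
      c ^ 2 * Real.exp (-(C * (A ^ 2 / n)) + -(C * ((A + 1) ^ 2 / n))) := by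
    rw [Real.exp_add]
    ring
  rw [e1, mul_assoc, ← Real.exp_add]
  apply mul_le_mul_of_nonneg_left _ (by positivity)
  apply Real.exp_le_exp.2
  have h6 : (A + 1) ^ 2 / n ≤ 2 * (A ^ 2 / n) + 2 := by
    have h7 : (A + 1) ^ 2 ≤ 2 * A ^ 2 + 2 * n := by nlinarith [sq_nonneg (A - 1)]
    calc (A + 1) ^ 2 / n ≤ (2 * A ^ 2 + 2 * n) / n := div_le_div_of_nonneg_right h7 hn0.le
      _ = 2 * (A ^ 2 / n) + 2 := by field_simp
  have h7 := mul_le_mul_of_nonneg_left h6 hC.le
  have e2 : 3 * C * d ^ 2 / n = 3 * (C * (A ^ 2 / n)) := by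
    rw [hA2]
    ring
  rw [e2]
  linarith

/-- **local lower bound** -/
theorem lower_large {k K : ℕ} {w : Fin K → Fin k} {p ε δ e : ℝ} {n0 : ℕ}
    (D : Drift k K w p ε δ e n0) (c C : ℝ) (hc : 0 < c) (hC : 0 < C) :
    ∃ (n1 : ℕ) (c1 : ℝ), 0 < c1 ∧ ∀ n : ℕ, n1 ≤ n → 1 ≤ n →
    (∀ t : ℝ, 0 ≤ t → t ≤ c * √(n : ℝ) →
      c * Real.exp (-(C * t ^ 2)) ≤ EL (un k) n (fun X => EL (un k) n (fun Y =>
        ind (t * √(n : ℝ) ≤ (lcs X Y : ℝ) - mn k n))) ∧
      c * Real.exp (-(C * t ^ 2)) ≤ EL (un k) n (fun X => EL (un k) n (fun Y =>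
        ind (t * √(n : ℝ) ≤ mn k n - (lcs X Y : ℝ))))) → ∀ m : ℕ,
    |((m + 1 : ℕ) : ℝ) - mn k n| ≤ c1 * n →
    c1 / √(n : ℝ) * Real.exp (-(3 * C * (((m + 1 : ℕ) : ℝ) - mn k n) ^ 2 / n)) ≤
      pm k n (m + 1) := by
  have hk : 0 < k := by have := D.hk; omega
  have he := D.hc
  have hdel := D.hd
  have hk' : (0 : ℝ) < k := by exact_mod_cast hk
  set B : ℝ := (k : ℝ) ^ K / δ + 1 with hB
  have hB0 : 0 < B := by positivity
  set Q : ℝ := c ^ 2 * Real.exp (-(2 * C)) with hQ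
  have hQ0 : 0 < Q := by positivity
  -- the constant c1: 3 C c1² ≤ e/2, c1 ≤ c/2, c1 ≤ Q / (4 B)
  set c1 : ℝ := min (c / 2) (min (Q / (4 * B)) (min 1 (e / (6 * C)))) with hc1
  have hc10 : 0 < c1 := lt_min (by positivity) (lt_min (by positivity)
    (lt_min one_pos (by positivity)))
  have hc1a : c1 ≤ c / 2 := min_le_left _ _
  have hc1b : c1 ≤ Q / (4 * B) := (min_le_right _ _).trans (min_le_left _ _)
  have hc1c : c1 ≤ 1 := (min_le_right _ _).trans ((min_le_right _ _).trans (min_le_left _ _))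
  have hc1d : c1 ≤ e / (6 * C) :=
    (min_le_right _ _).trans ((min_le_right _ _).trans (min_le_right _ _))
  have hc1e : 3 * C * c1 ^ 2 ≤ e / 2 := by
    have h1 : c1 ^ 2 ≤ c1 := by nlinarith
    rw [le_div_iff₀ (by positivity)] at hc1d
    nlinarith
  obtain ⟨n1, hn1⟩ := exists_nat_ge (max (2 / c) ((8 / (e * Q)) ^ 2))
  refine ⟨max n0 n1, c1, hc10, fun n hn hn1' h m hm => ?_⟩
  have hnn0 : n0 ≤ n := (le_max_left _ _).trans hn
  have hnn1 : (n1 : ℝ) ≤ n := by exact_mod_cast (le_max_right _ _).trans hn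
  have hn1r : (1 : ℝ) ≤ n := by exact_mod_cast hn1'
  have hnp : (0 : ℝ) < n := by linarith
  have hna : 2 / c ≤ n := ((le_max_left _ _).trans hn1).trans hnn1
  have hnb : (8 / (e * Q)) ^ 2 ≤ n := ((le_max_right _ _).trans hn1).trans hnn1
  set y : ℝ := √(n : ℝ) with hy
  have hy0 : 0 < y := Real.sqrt_pos.2 hnp
  have hs : y ^ 2 = n := Real.sq_sqrt hnp.le
  have hyb : 8 / (e * Q) ≤ y := by
    rw [hy]
    exact Real.le_sqrt_of_sq_le hnb
  set d : ℝ := ((m + 1 : ℕ) : ℝ) - mn k n with hd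
  have hdn : |d| + 1 ≤ c * n := by
    rw [div_le_iff₀ hc] at hna
    have h1 : c1 * n ≤ c / 2 * n := mul_le_mul_of_nonneg_right hc1a hnp.le
    linarith
  have h1 := J_ge hk c C hc hC n hn1' h m hdn
  have h2 := iso_pair hk n m
  have h3 := up D n m hnn0 hn1'
  rw [← hd, ← hQ] at h1
  set E : ℝ := Real.exp (-(3 * C * d ^ 2 / n)) with hE
  have hE0 : 0 < E := Real.exp_pos _
  set P : ℝ := pm k n (m + 1) with hP
  have hP0 : 0 ≤ P := pm_nn hk n (m + 1)
  have h4 : √((n + n : ℕ) : ℝ) ≤ 2 * y := by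
    rw [Real.sqrt_le_left (by positivity)]
    push_cast
    nlinarith
  -- the error term
  have herr : 2 * y * Real.exp (-(e * n)) ≤ Q / 2 * E := by
    have h5 : Real.exp (-(e * n)) = Real.exp (-(e / 2 * n)) * Real.exp (-(e / 2 * n)) := by
      rw [← Real.exp_add]
      congr 1
      ring
    have h6 : Real.exp (-(e / 2 * n)) ≤ E := by
      apply Real.exp_le_exp.2
      apply neg_le_neg
      rw [div_le_iff₀ hnp]
      have h7 : d ^ 2 ≤ (c1 * n) ^ 2 := by
        rw [← sq_abs d]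
        exact pow_le_pow_left₀ (abs_nonneg _) hm 2
      calc 3 * C * d ^ 2 ≤ 3 * C * (c1 * n) ^ 2 := mul_le_mul_of_nonneg_left h7 (by positivity)
        _ = 3 * C * c1 ^ 2 * (n * n) := by ring
        _ ≤ e / 2 * (n * n) := mul_le_mul_of_nonneg_right hc1e (by positivity)
        _ = e / 2 * n * n := by ring
    have h7 : 2 * y * Real.exp (-(e / 2 * n)) ≤ Q / 2 := by
      rw [Real.exp_neg, ← div_eq_mul_inv, div_le_iff₀ (Real.exp_pos _)]
      have h8 := Real.add_one_le_exp (e / 2 * n)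
      have h9 : 2 * y ≤ Q / 2 * (e / 2 * n) := by
        rw [← hs]
        rw [div_le_iff₀ (by positivity)] at hyb
        nlinarith
      have h10 : Q / 2 * (e / 2 * n) ≤ Q / 2 * Real.exp (e / 2 * n) :=
        mul_le_mul_of_nonneg_left (by linarith) (by positivity)
      linarith
    rw [h5]
    calc 2 * y * (Real.exp (-(e / 2 * n)) * Real.exp (-(e / 2 * n))) =
        2 * y * Real.exp (-(e / 2 * n)) * Real.exp (-(e / 2 * n)) := by ring
      _ ≤ Q / 2 * E := mul_le_mul h7 h6 (Real.exp_pos _).le (by positivity)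
  have h5 : Q * E ≤ 2 * y * (B * P) + Q / 2 * E := by
    calc Q * E ≤ √((n + n : ℕ) : ℝ) * (pm k n m + P) := h1.trans h2
      _ ≤ 2 * y * (pm k n m + P) :=
        mul_le_mul_of_nonneg_right h4 (add_nonneg (pm_nn hk n m) hP0)
      _ ≤ 2 * y * (B * P + Real.exp (-(e * n))) := by
        apply mul_le_mul_of_nonneg_left _ (by positivity)
        rw [hB]
        linarith
      _ = 2 * y * (B * P) + 2 * y * Real.exp (-(e * n)) := by ring
      _ ≤ 2 * y * (B * P) + Q / 2 * E := by linarith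
  have h6 : Q / (4 * B) * E ≤ y * P := by
    rw [div_mul_eq_mul_div, div_le_iff₀ (by positivity)]
    linarith
  rw [div_mul_eq_mul_div, div_le_iff₀ hy0]
  calc c1 * E ≤ Q / (4 * B) * E := mul_le_mul_of_nonneg_right hc1b hE0.le
    _ ≤ y * P := h6
    _ = P * y := mul_comm _ _

/-- **local estimates for the law of the length** -/
theorem local_est : ∃ k0 : ℕ, ∀ k ≥ k0, 0 < k ∧ ∃ c C : ℝ, 0 < c ∧ 0 < C ∧
    ∀ n : ℕ, 1 ≤ n → c * n < mn k n ∧ ∀ q : ℕ,
    pm k n q ≤ C / √(n : ℝ) * Real.exp (-(c * ((q : ℝ) - mn k n) ^ 2 / n)) ∧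
    (|(q : ℝ) - mn k n| ≤ c * n →
      c / √(n : ℝ) * Real.exp (-(C * ((q : ℝ) - mn k n) ^ 2 / n)) ≤ pm k n q) := by
  obtain ⟨k1, h1⟩ := drift
  obtain ⟨k2, h2⟩ := tailC
  refine ⟨max k1 k2, fun k hk => ?_⟩
  obtain ⟨K, w, p, ε, δ, e, n0, D⟩ := h1 k ((le_max_left _ _).trans hk)
  obtain ⟨c, C, hc, hC, h⟩ := h2 k ((le_max_right _ _).trans hk)
  have hkk : 2 ≤ k := D.hk
  have hkp : 0 < k := by omega
  have hk' : (1 : ℝ) ≤ k := by exact_mod_cast hkp
  obtain ⟨lam, C3, c3, hlam, hC3, hc3, h3⟩ := upper D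
  obtain ⟨n1, c1, hc1, h4⟩ := lower_large D c C hc hC
  set s : ℝ := ((1 / (k : ℝ)) ^ n1) ^ 2 with hs
  have hs0 : 0 < s := by positivity
  set c' : ℝ := min c3 (min c1 (min (c / 2) s)) with hc'
  have hc'0 : 0 < c' := lt_min hc3 (lt_min hc1 (lt_min (by positivity) hs0))
  have hc'a : c' ≤ c3 := min_le_left _ _
  have hc'b : c' ≤ c1 := (min_le_right _ _).trans (min_le_left _ _)
  have hc'c : c' ≤ c / 2 := (min_le_right _ _).trans ((min_le_right _ _).trans (min_le_left _ _))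
  have hc'd : c' ≤ s := (min_le_right _ _).trans ((min_le_right _ _).trans (min_le_right _ _))
  set C' : ℝ := max C3 (3 * C) with hC'
  have hC'0 : 0 < C' := lt_of_lt_of_le hC3 (le_max_left _ _)
  refine ⟨hkp, c', C', hc'0, hC'0, fun n hn => ⟨?_, fun q => ⟨?_, fun hq => ?_⟩⟩⟩
  · have hn0 : (0 : ℝ) < n := by exact_mod_cast hn
    obtain ⟨hm1, -⟩ := mean_mid hkp c C hc n hn (h n hn)
    have h5 : c' * n ≤ c / 2 * n := mul_le_mul_of_nonneg_right hc'c hn0.le
    have h6 : 0 < c * n := by positivity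
    linarith
  · have hn0 : (0 : ℝ) < n := by exact_mod_cast hn
    have hy0 : 0 < √(n : ℝ) := Real.sqrt_pos.2 hn0
    rcases le_or_gt q n with hqn | hqn
    · have h5 := h3 n hn (q : ℝ) (Nat.cast_nonneg q) (by exact_mod_cast hqn)
      have h6 : pm k n q ≤ EL (un k) n (fun X => EL (un k) n (fun Y => uf lam q (lcs X Y))) := by
        apply EL2_mono hkp
        intro X Y _ _
        by_cases h7 : lcs X Y = q
        · rw [ind_of h7, h7]
          unfold uf
          simp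
        · rw [ind_not h7]
          exact uf_nonneg _ _ _
      refine (h6.trans h5).trans ?_
      apply mul_le_mul _ _ (Real.exp_pos _).le (by positivity)
      · exact div_le_div_of_nonneg_right (le_max_left _ _) hy0.le
      · apply Real.exp_le_exp.2
        apply neg_le_neg
        apply div_le_div_of_nonneg_right _ hn0.le
        exact mul_le_mul_of_nonneg_right hc'a (sq_nonneg _)
    · have h5 : pm k n q ≤ EL (un k) n (fun _ => EL (un k) n (fun _ => (0 : ℝ))) := by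
        apply EL2_mono hkp
        intro X Y hX _
        rw [ind_not]
        intro h6
        have := lcs_le_left X Y
        omega
      rw [EL2_const hkp] at h5
      exact h5.trans (by positivity)
  · have hn1 : (1 : ℝ) ≤ n := by exact_mod_cast hn
    have hn0 : (0 : ℝ) < n := by linarith
    have hy0 : 0 < √(n : ℝ) := Real.sqrt_pos.2 hn0
    have hy1 : 1 ≤ √(n : ℝ) := Real.one_le_sqrt.2 hn1
    obtain ⟨hm1, hm2⟩ := mean_mid hkp c C hc n hn (h n hn)
    have h5 : c' * n ≤ c / 2 * n := mul_le_mul_of_nonneg_right hc'c hn0.le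
    obtain ⟨h6, h7⟩ := abs_le.1 hq
    have hcn : 0 < c / 2 * n := by positivity
    have hq0 : 0 < q := by
      have : (0 : ℝ) < q := by linarith
      exact_mod_cast this
    have hqn : q ≤ n := by
      have : (q : ℝ) ≤ n := by linarith
      exact_mod_cast this
    rcases le_or_gt n1 n with h8 | h8
    · obtain ⟨m, rfl⟩ : ∃ m, q = m + 1 := ⟨q - 1, by omega⟩
      have h9 := h4 n h8 hn (h n hn) m (hq.trans (mul_le_mul_of_nonneg_right hc'b hn0.le))
      refine le_trans ?_ h9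
      apply mul_le_mul _ _ (Real.exp_pos _).le (by positivity)
      · exact div_le_div_of_nonneg_right hc'b hy0.le
      · apply Real.exp_le_exp.2
        apply neg_le_neg
        apply div_le_div_of_nonneg_right _ hn0.le
        exact mul_le_mul_of_nonneg_right (le_max_right _ _) (sq_nonneg _)
    · have h9 := pm_pos hkk n q hqn
      have h10 : s ≤ ((1 / (k : ℝ)) ^ n) ^ 2 := by
        apply pow_le_pow_left₀ (by positivity)
        apply pow_le_pow_of_le_one (by positivity) _ h8.le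
        rw [div_le_one (by linarith)]
        exact hk'
      have h11 : Real.exp (-(C' * ((q : ℝ) - mn k n) ^ 2 / n)) ≤ 1 := by
        rw [Real.exp_le_one_iff]
        have : 0 ≤ C' * ((q : ℝ) - mn k n) ^ 2 / n := by positivity
        linarith
      calc c' / √(n : ℝ) * Real.exp (-(C' * ((q : ℝ) - mn k n) ^ 2 / n))
          ≤ c' / 1 * 1 := by
            apply mul_le_mul _ h11 (Real.exp_pos _).le (by positivity)
            exact div_le_div_of_nonneg_left hc'0.le one_pos hy1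
        _ = c' := by ring
        _ ≤ s := hc'd
        _ ≤ _ := h10.trans h9

/-- the estimates for all integers -/
theorem local_int : ∃ k0 : ℕ, ∀ k ≥ k0, 0 < k ∧ ∃ c C : ℝ, 0 < c ∧ 0 < C ∧ ∀ n : ℕ, 1 ≤ n → ∀ q : ℤ,
    EL (un k) n (fun X => EL (un k) n (fun Y => ind ((lcs X Y : ℤ) = q))) ≤
      C / √(n : ℝ) * Real.exp (-(c * ((q : ℝ) - mn k n) ^ 2 / n)) ∧
    (|(q : ℝ) - mn k n| ≤ c * n →
      c / √(n : ℝ) * Real.exp (-(C * ((q : ℝ) - mn k n) ^ 2 / n)) ≤
        EL (un k) n (fun X => EL (un k) n (fun Y => ind ((lcs X Y : ℤ) = q)))) := by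
  obtain ⟨k0, h0⟩ := local_est
  refine ⟨k0, fun k hk => ?_⟩
  obtain ⟨hkp, c, C, hc, hC, h⟩ := h0 k hk
  refine ⟨hkp, c, C, hc, hC, fun n hn q => ?_⟩
  obtain ⟨h1, h2⟩ := h n hn
  rcases le_or_gt 0 q with hq | hq
  · obtain ⟨r, rfl⟩ := Int.eq_ofNat_of_zero_le hq
    have e : (fun X : List (Fin k) => EL (un k) n (fun Y => ind ((lcs X Y : ℤ) = (r : ℤ)))) =
        fun X => EL (un k) n (fun Y => ind (lcs X Y = r)) := by
      funext X
      congr 1
      funext Y
      congr 1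
      exact propext Nat.cast_inj
    have h3 := h2 r
    unfold pm at h3
    rw [e, Int.cast_natCast]
    exact h3
  · have h3 : EL (un k) n (fun X => EL (un k) n (fun Y => ind ((lcs X Y : ℤ) = q))) ≤
        EL (un k) n (fun _ => EL (un k) n (fun _ => (0 : ℝ))) := by
      apply EL2_mono hkp
      intro X Y _ _
      rw [ind_not]
      intro h6
      have : (0 : ℤ) ≤ lcs X Y := Int.natCast_nonneg _
      omega
    rw [EL2_const hkp] at h3
    refine ⟨h3.trans (by positivity), fun h4 => ?_⟩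
    exfalso
    have h5 : (q : ℝ) < 0 := by exact_mod_cast hq
    have h6 := (abs_le.1 h4).1
    linarith

end LCSA
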