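import Pool.Agent.LCSA.LimS

/-!
# Convergent subsequences (Prokhorov)
-/

namespace LCSA

open Finset Filter Topology MeasureTheory LCSV
open scoped ENNReal BoundedContinuousFunction

/-- the law of `g` under the weights `p` -/
noncomputable def law {Ω : Type} [Fintype Ω] (p : Ω → ℝ) (g : Ω → ℝ) : Measure ℝ :=
  ∑ ω, ENNReal.ofReal (p ω) • Measure.dirac (g ω)

theorem law_apply {Ω : Type} [Fintype Ω] {p : Ω → ℝ} (hp : IsP p) (g : Ω → ℝ) (A : Set ℝ)
    (hA : MeasurableSet A) : law p g A = ENNReal.ofReal (av p (fun ω => ind (g ω ∈ A))) := by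
  unfold law av
  rw [Measure.finsetSum_apply, ENNReal.ofReal_sum_of_nonneg]
  · refine Finset.sum_congr rfl fun ω _ => ?_
    rw [Measure.smul_apply, Measure.dirac_apply' _ hA, smul_eq_mul]
    show ENNReal.ofReal (p ω) * A.indicator 1 (g ω) = ENNReal.ofReal (p ω * ind (g ω ∈ A))
    unfold ind
    by_cases h : g ω ∈ A
    · rw [Set.indicator_of_mem h, if_pos h, mul_one, Pi.one_apply, mul_one]
    · rw [Set.indicator_of_notMem h, if_neg h, mul_zero, mul_zero, ENNReal.ofReal_zero]
  · intro ω _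
    show 0 ≤ p ω * ind (g ω ∈ A)
    apply mul_nonneg (hp.nonneg ω)
    unfold ind
    split_ifs <;> norm_num

theorem law_prob {Ω : Type} [Fintype Ω] {p : Ω → ℝ} (hp : IsP p) (g : Ω → ℝ) :
    IsProbabilityMeasure (law p g) := by
  constructor
  rw [law_apply hp g _ MeasurableSet.univ]
  have e : av p (fun ω => ind (g ω ∈ Set.univ)) = 1 := by
    have h : (fun ω => ind (g ω ∈ Set.univ)) = fun _ => (1 : ℝ) := by
      funext ω
      unfold ind
      rw [if_pos (Set.mem_univ _)]
    rw [h, av_const hp]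
  rw [e, ENNReal.ofReal_one]

theorem law_integral {Ω : Type} [Fintype Ω] {p : Ω → ℝ} (hp : IsP p) (g : Ω → ℝ) (f : ℝ → ℝ) : ∫ x, f x ∂(law p g) = av p (fun ω => f (g ω)) := by
  unfold law av
  rw [integral_finsetSum_measure]
  · refine Finset.sum_congr rfl fun ω _ => ?_
    rw [integral_smul_measure, integral_dirac, ENNReal.toReal_ofReal (hp.nonneg ω), smul_eq_mul]
  · intro ω _
    refine Integrable.smul_measure ?_ ENNReal.ofReal_ne_top
    exact integrable_dirac (by simp)

/-- a subsequence of the normalised variables converges in distribution -/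
theorem subseq {Ω : ℕ → Type} [∀ n, Fintype (Ω n)] (p : ∀ n, Ω n → ℝ) (hp : ∀ n, IsP (p n))
    (T : ℕ → ℝ) (hT0 : ∀ n, 0 ≤ T n) (Z : ∀ n, Ω n → ℝ) (m : ℕ → ℝ) (C0 : ℝ) (hC0 : 0 < C0)
    (hsub : ∀ (n : ℕ) (t : ℝ), av (p n) (fun ω => Real.exp (t * (Z n ω - m n))) ≤
      Real.exp (C0 * t ^ 2 * T n)) :
    ∃ φ : ℕ → ℕ, StrictMono φ ∧ ∃ μ : Measure ℝ, IsProbabilityMeasure μ ∧
      ∀ f : ℝ → ℝ, Continuous f → (∃ B, ∀ x, |f x| ≤ B) →
        Tendsto (fun j => av (p (φ j)) (fun ω => f ((Z (φ j) ω - m (φ j)) / √(T (φ j))))) atTop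
          (𝓝 (∫ x, f x ∂μ)) := by
  set g : ∀ n, Ω n → ℝ := fun n ω => (Z n ω - m n) / √(T n) with hg
  set P : ℕ → ProbabilityMeasure ℝ := fun n => ⟨law (p n) (g n), law_prob (hp n) (g n)⟩ with hP
  have htail : ∀ (n : ℕ) (s : ℝ), 0 < s → av (p n) (fun ω => ind (g n ω ∈ (Set.Icc (-s) s)ᶜ)) ≤
      2 * Real.exp (-(s ^ 2 / (4 * C0))) := by
    intro n s hs
    rcases (hT0 n).eq_or_lt with h0 | h0
    · have e : av (p n) (fun ω => ind (g n ω ∈ (Set.Icc (-s) s)ᶜ)) = 0 := by
        have h : (fun ω => ind (g n ω ∈ (Set.Icc (-s) s)ᶜ)) = fun _ => (0 : ℝ) := by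
          funext ω
          have h1 : g n ω = 0 := by
            show (Z n ω - m n) / √(T n) = 0
            rw [← h0, Real.sqrt_zero, div_zero]
          unfold ind
          rw [if_neg]
          intro h2
          apply h2
          rw [h1]
          exact ⟨by linarith, hs.le⟩
        rw [h, av_const (hp n)]
      rw [e]
      positivity
    · refine le_trans (av_mono (hp n) fun ω => ?_)
        (LimS_tail (p n) (hp n) (Z n) (m n) C0 hC0 (T n) h0 (hsub n) s hs)
      have hy : 0 < √(T n) := Real.sqrt_pos.2 h0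
      by_cases h1 : g n ω ∈ (Set.Icc (-s) s)ᶜ
      · have h2 : s * √(T n) ≤ |Z n ω - m n| := by
          by_contra h3
          rw [not_le, abs_lt] at h3
          apply h1
          show (Z n ω - m n) / √(T n) ∈ Set.Icc (-s) s
          constructor
          · rw [le_div_iff₀ hy]
            linarith
          · rw [div_le_iff₀ hy]
            linarith
        unfold ind
        rw [if_pos h1, if_pos h2]
      · unfold ind
        rw [if_neg h1]
        split_ifs <;> norm_num
  have htight : IsTightMeasureSet {((μ : ProbabilityMeasure ℝ) : Measure ℝ) | μ ∈ Set.range P} := by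
    rw [isTightMeasureSet_iff_exists_isCompact_measure_compl_le]
    intro ε hε
    have hlim : Tendsto (fun s : ℝ => ENNReal.ofReal (2 * Real.exp (-(s ^ 2 / (4 * C0))))) atTop
        (𝓝 0) := by
      have h1 : Tendsto (fun s : ℝ => s ^ 2 / (4 * C0)) atTop atTop :=
        (tendsto_pow_atTop two_ne_zero).atTop_div_const (by positivity)
      have h2 := (Real.tendsto_exp_neg_atTop_nhds_zero.comp h1).const_mul 2
      rw [mul_zero] at h2
      have h3 := ENNReal.tendsto_ofReal h2
      rw [ENNReal.ofReal_zero] at h3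
      exact h3
    obtain ⟨s, hs1, hs2⟩ := ((hlim.eventually (ge_mem_nhds hε)).and
      (eventually_gt_atTop 0)).exists
    refine ⟨Set.Icc (-s) s, isCompact_Icc, ?_⟩
    rintro _ ⟨_, ⟨n, rfl⟩, rfl⟩
    show law (p n) (g n) (Set.Icc (-s) s)ᶜ ≤ ε
    rw [law_apply (hp n) (g n) _ measurableSet_Icc.compl]
    exact (ENNReal.ofReal_le_ofReal (htail n s hs2)).trans hs1
  have hcomp := isCompact_closure_of_isTightMeasureSet htight
  obtain ⟨μ, -, φ, hφ, hlim⟩ := hcomp.tendsto_subseq
    (fun n => subset_closure (Set.mem_range_self (f := P) n))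
  refine ⟨φ, hφ, (μ : Measure ℝ), inferInstance, fun f hf hB => ?_⟩
  obtain ⟨B, hB⟩ := hB
  rw [ProbabilityMeasure.tendsto_iff_forall_integral_tendsto] at hlim
  have h1 := hlim (BoundedContinuousFunction.ofNormedAddCommGroup f hf B hB)
  refine h1.congr fun j => ?_
  exact law_integral (hp (φ j)) (g (φ j)) f

end LCSA
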