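import Pool.Agent.LCSA.Drift

/-!
# Upper bound for the concentration of the length near one value

`E_p exp(-lam |L - v|) ≤ (C / √n) exp(-c (v - M)² / n)`.
-/

namespace LCSA

open Finset LCSV

variable {k K : ℕ} {w : Fin K → Fin k} {p ε δ c : ℝ} {n0 : ℕ}

theorem Drift.mem (h : Drift k K w p ε δ c n0) {θ : ℝ} (h1 : p - ε ≤ θ) (h2 : θ ≤ p + ε) :
    0 ≤ θ ∧ θ ≤ 3 / 4 := by
  have := h.he1
  have := h.hp1
  have := h.hp0
  constructor <;> linarith

theorem SD_eq (n : ℕ) (X Y : List (Fin k)) : SD w n X Y =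
    ∑ b ∈ range (n / K), ((lcs (repl K (List.ofFn w) b X) Y : ℝ) - lcs X Y) := rfl

/-- the derivative of the mean of the potential -/
noncomputable def DV (w : Fin K → Fin k) (n : ℕ) (lam v θ : ℝ) : ℝ :=
  Et w (n / K) (n % K) n θ (fun X Y => ∑ b ∈ range (n / K),
    (Vf lam v (lcs (repl K (List.ofFn w) b X) Y) - Vf lam v (lcs X Y))) / (1 - θ)

theorem hasDeriv_V (h : Drift k K w p ε δ c n0) (n : ℕ) (lam v θ : ℝ) (h1 : p - ε ≤ θ)
    (h2 : θ ≤ p + ε) :
    HasDerivAt (fun θ => Et w (n / K) (n % K) n θ (fun X Y => Vf lam v (lcs X Y)))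
      (DV w n lam v θ) θ :=
  Et_deriv h.hk h.hK w (n / K) (n % K) n θ (by linarith [(h.mem h1 h2).2])
    (fun X Y => Vf lam v (lcs X Y))

theorem DV_ge (h : Drift k K w p ε δ c n0) (n : ℕ) (hn : n0 ≤ n) (lam v θ : ℝ) (hl : 0 < lam)
    (hl1 : lam * K ≤ 1) (hl2 : 4 * lam * K ^ 2 ≤ δ) (h1 : p - ε ≤ θ) (h2 : θ ≤ p + ε) :
    lam * δ / 2 * n * Et w (n / K) (n % K) n θ (fun X Y => uf lam v (lcs X Y)) -
      4 * ((lam * δ / 2 + 2) * n * Real.exp (-(c * n))) ≤ DV w n lam v θ := by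
  obtain ⟨ht0, ht1⟩ := h.mem h1 h2
  have hd := h.hd
  have hn0 : (0 : ℝ) ≤ n := Nat.cast_nonneg n
  have h3 : Et w (n / K) (n % K) n θ (fun X Y => lam * δ / 2 * n * uf lam v (lcs X Y) +
      (-((lam * δ / 2 + 2) * n)) * ind (SD w n X Y < δ * n)) ≤
      Et w (n / K) (n % K) n θ (fun X Y => ∑ b ∈ range (n / K),
        (Vf lam v (lcs (repl K (List.ofFn w) b X) Y) - Vf lam v (lcs X Y))) := by
    apply Et_mono h.hk h.hK w _ _ _ θ ht0 (by linarith)
    intro X Y _ _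
    have := V_sum w h.hK n lam δ v hl hd hl1 hl2 X Y
    linarith
  rw [Et_add, Et_mul, Et_mul] at h3
  have h4 := h.bad n hn θ h1 h2
  have h5 : 0 ≤ Et w (n / K) (n % K) n θ (fun X Y => uf lam v (lcs X Y)) := by
    have := Et_mono h.hk h.hK w (n / K) (n % K) n θ ht0 (by linarith)
      (F := fun _ _ => (0 : ℝ)) (G := fun X Y => uf lam v (lcs X Y))
      (fun X Y _ _ => uf_nonneg _ _ _)
    rwa [Et_const h.hk h.hK w _ _ _ θ ht0 (by linarith)] at this
  set U := Et w (n / K) (n % K) n θ (fun X Y => uf lam v (lcs X Y)) with hU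
  set B := Et w (n / K) (n % K) n θ (fun X Y => ind (SD w n X Y < δ * n)) with hB
  have h6 : 0 ≤ (lam * δ / 2 + 2) * n := by positivity
  have h7 : (lam * δ / 2 + 2) * n * B ≤ (lam * δ / 2 + 2) * n * Real.exp (-(c * n)) :=
    mul_le_mul_of_nonneg_left h4 h6
  set Q := (lam * δ / 2 + 2) * n * Real.exp (-(c * n)) with hQ
  have hQ0 : 0 ≤ Q := by positivity
  have hP0 : 0 ≤ lam * δ / 2 * n * U := by positivity
  have h1t : 0 < 1 - θ := by linarith
  unfold DV
  rw [le_div_iff₀ h1t]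
  have h8 : lam * δ / 2 * n * U * (1 - θ) ≤ lam * δ / 2 * n * U := by nlinarith
  have h9 : Q ≤ 4 * Q * (1 - θ) := by nlinarith
  have e : (lam * δ / 2 * n * U - 4 * Q) * (1 - θ) =
    lam * δ / 2 * n * U * (1 - θ) - 4 * Q * (1 - θ) := by ring
  rw [e]
  linarith

/-- the mean of the length depends on the parameter in a Lipschitz way -/
theorem mean_lip (h : Drift k K w p ε δ c n0) (n : ℕ) (θ : ℝ) (h1 : p - ε ≤ θ) (h2 : θ ≤ p + ε) :
    |Et w (n / K) (n % K) n θ (fun X Y => (lcs X Y : ℝ)) -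
      Et w (n / K) (n % K) n p (fun X Y => (lcs X Y : ℝ))| ≤ 4 * n * |θ - p| := by
  have he := h.he0
  have hmv := Convex.norm_image_sub_le_of_norm_hasDerivWithin_le
    (f := fun θ => Et w (n / K) (n % K) n θ (fun X Y => (lcs X Y : ℝ)))
    (f' := fun θ => Et w (n / K) (n % K) n θ (fun X Y => SD w n X Y) / (1 - θ))
    (C := 4 * n) (s := Set.Icc (p - ε) (p + ε)) (x := p) (y := θ)
    (fun θ hθ => (Et_deriv h.hk h.hK w (n / K) (n % K) n θ (by linarith [(h.mem hθ.1 hθ.2).2])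
      (fun X Y => (lcs X Y : ℝ))).hasDerivWithinAt)
    (fun θ hθ => by
      obtain ⟨ht0, ht1⟩ := h.mem hθ.1 hθ.2
      have h3 : Et w (n / K) (n % K) n θ (fun X Y => SD w n X Y) ≤ n := by
        have := Et_mono h.hk h.hK w (n / K) (n % K) n θ ht0 (by linarith)
          (F := fun X Y => SD w n X Y) (G := fun _ _ => (n : ℝ))
          (fun X Y _ _ => (abs_le.1 (SD_abs w n X Y)).2)
        rwa [Et_const h.hk h.hK w _ _ _ θ ht0 (by linarith)] at this
      have h4 : -(n : ℝ) ≤ Et w (n / K) (n % K) n θ (fun X Y => SD w n X Y) := by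
        have := Et_mono h.hk h.hK w (n / K) (n % K) n θ ht0 (by linarith)
          (F := fun _ _ => -(n : ℝ)) (G := fun X Y => SD w n X Y)
          (fun X Y _ _ => (abs_le.1 (SD_abs w n X Y)).1)
        rwa [Et_const h.hk h.hK w _ _ _ θ ht0 (by linarith)] at this
      have h1t : 0 < 1 - θ := by linarith
      have hn : (0 : ℝ) ≤ n := Nat.cast_nonneg n
      rw [Real.norm_eq_abs, abs_div, abs_of_pos h1t, div_le_iff₀ h1t]
      have h5 : |Et w (n / K) (n % K) n θ (fun X Y => SD w n X Y)| ≤ n := abs_le.2 ⟨h4, h3⟩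
      nlinarith)
    (convex_Icc _ _) ⟨by linarith, by linarith⟩ ⟨h1, h2⟩
  rw [Real.norm_eq_abs, Real.norm_eq_abs] at hmv
  exact hmv

theorem expo (kap n t a S K2 : ℝ) (hn : 0 < n) (ht : 0 ≤ t) (hk : 0 ≤ kap) (hK : kap * K2 ≤ 1)
    (hS : S ≤ K2 * n) (ha : a ≤ -t + 4 * √n) :
    kap * t / n * a + (kap * t / n) ^ 2 * S / 2 ≤ 16 * kap + -(kap / 4 * t ^ 2 / n) := by
  set y : ℝ := √n with hy
  have hy0 : 0 < y := Real.sqrt_pos.2 hn
  have hyn : n = y ^ 2 := (Real.sq_sqrt hn.le).symm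
  have h1 : kap * t / n * a ≤ kap * t / n * (-t + 4 * y) :=
    mul_le_mul_of_nonneg_left ha (by positivity)
  have h2 : (kap * t / n) ^ 2 * S / 2 ≤ kap * t ^ 2 / (2 * n) := by
    have h3 : (kap * t / n) ^ 2 * S ≤ (kap * t / n) ^ 2 * (K2 * n) :=
      mul_le_mul_of_nonneg_left hS (sq_nonneg _)
    have h4 : (kap * t / n) ^ 2 * (K2 * n) = (kap * K2) * (kap * t ^ 2 / n) := by
      field_simp
    have h5 : (kap * K2) * (kap * t ^ 2 / n) ≤ 1 * (kap * t ^ 2 / n) :=
      mul_le_mul_of_nonneg_right hK (by positivity)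
    have h6 : kap * t ^ 2 / (2 * n) = (kap * t ^ 2 / n) / 2 := by
      field_simp
    rw [h6]
    linarith
  have h3 : kap * t / n * (-t + 4 * y) + kap * t ^ 2 / (2 * n) ≤
      16 * kap + -(kap / 4 * t ^ 2 / n) := by
    rw [hyn]
    have e : 16 * kap + -(kap / 4 * t ^ 2 / y ^ 2) -
        (kap * t / y ^ 2 * (-t + 4 * y) + kap * t ^ 2 / (2 * y ^ 2)) =
        kap * (t - 8 * y) ^ 2 / (4 * y ^ 2) := by
      field_simp
      ring
    have h4 : 0 ≤ kap * (t - 8 * y) ^ 2 / (4 * y ^ 2) := by positivity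
    linarith
  linarith

/-- mean of exponentials under the tilted law -/
theorem exp_le (h : Drift k K w p ε δ c n0) (n : ℕ) (hn : 0 < n) (θ : ℝ) (h1 : p - ε ≤ θ)
    (h2 : θ ≤ p + ε) (kap t s v : ℝ) (ht : 0 ≤ t) (hkap : 0 ≤ kap) (hs : s = 1 ∨ s = -1)
    (hK : kap * ((K : ℝ) ^ 2 + 2) ≤ 1)
    (ha : s * (Et w (n / K) (n % K) n θ (fun X Y => (lcs X Y : ℝ)) - v) ≤ -t + 4 * √(n : ℝ)) :
    Et w (n / K) (n % K) n θ (fun X Y => 2 * Real.exp (kap * t / n * (s * (lcs X Y - v)))) ≤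
      2 * (Real.exp (16 * kap) * Real.exp (-(kap / 4 * t ^ 2 / n))) := by
  obtain ⟨ht0, ht1⟩ := h.mem h1 h2
  have hn' : (0 : ℝ) < n := by exact_mod_cast hn
  set M := Et w (n / K) (n % K) n θ (fun X Y => (lcs X Y : ℝ)) with hM
  have h3 := Et_mgf h.hk h.hK w (n / K) (n % K) n θ ht0 (by linarith) (s * (kap * t / n))
  rw [← hM] at h3
  have hs2 : s ^ 2 = 1 := by
    rcases hs with hs | hs
    · rw [hs]; norm_num
    · rw [hs]; norm_num
  have e : Et w (n / K) (n % K) n θ (fun X Y =>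
      2 * Real.exp (kap * t / n * (s * (lcs X Y - v)))) =
      (2 * Real.exp (kap * t / n * (s * (M - v)))) *
        Et w (n / K) (n % K) n θ (fun X Y => Real.exp (s * (kap * t / n) * ((lcs X Y : ℝ) - M))) := by
    rw [← Et_mul]
    apply Et_congr
    intro X Y _ _
    rw [mul_assoc, ← Real.exp_add]
    congr 2
    ring
  rw [e]
  have hS : (K : ℝ) ^ 2 * ((n / K : ℕ) : ℝ) + ((n % K : ℕ) : ℝ) + n ≤ ((K : ℝ) ^ 2 + 2) * n := by
    have h4 : ((n / K : ℕ) : ℝ) ≤ n := by exact_mod_cast Nat.div_le_self n K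
    have h5 : ((n % K : ℕ) : ℝ) ≤ n := by exact_mod_cast Nat.mod_le n K
    have h6 := mul_le_mul_of_nonneg_left h4 (sq_nonneg (K : ℝ))
    linarith
  have h7 := expo kap n t (s * (M - v)) _ ((K : ℝ) ^ 2 + 2) hn' ht hkap hK hS ha
  have e2 : (s * (kap * t / n)) ^ 2 * ((K : ℝ) ^ 2 * ((n / K : ℕ) : ℝ) + ((n % K : ℕ) : ℝ) + n) / 2 =
      (kap * t / n) ^ 2 * ((K : ℝ) ^ 2 * ((n / K : ℕ) : ℝ) + ((n % K : ℕ) : ℝ) + n) / 2 := by
    rw [mul_pow, hs2, one_mul]
  rw [e2] at h3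
  calc (2 * Real.exp (kap * t / n * (s * (M - v)))) *
        Et w (n / K) (n % K) n θ (fun X Y => Real.exp (s * (kap * t / n) * ((lcs X Y : ℝ) - M)))
      ≤ (2 * Real.exp (kap * t / n * (s * (M - v)))) * Real.exp ((kap * t / n) ^ 2 *
          ((K : ℝ) ^ 2 * ((n / K : ℕ) : ℝ) + ((n % K : ℕ) : ℝ) + n) / 2) :=
        mul_le_mul_of_nonneg_left h3 (by positivity)
    _ = 2 * Real.exp (kap * t / n * (s * (M - v)) + (kap * t / n) ^ 2 *
          ((K : ℝ) ^ 2 * ((n / K : ℕ) : ℝ) + ((n % K : ℕ) : ℝ) + n) / 2) := by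
        rw [Real.exp_add]
        ring
    _ ≤ 2 * Real.exp (16 * kap + -(kap / 4 * t ^ 2 / n)) :=
        mul_le_mul_of_nonneg_left (Real.exp_le_exp.2 h7) (by norm_num)
    _ = 2 * (Real.exp (16 * kap) * Real.exp (-(kap / 4 * t ^ 2 / n))) := by
        rw [Real.exp_add]

theorem mean_range (h : Drift k K w p ε δ c n0) (n : ℕ) (θ : ℝ) (h1 : p - ε ≤ θ)
    (h2 : θ ≤ p + ε) : 0 ≤ Et w (n / K) (n % K) n θ (fun X Y => (lcs X Y : ℝ)) ∧
      Et w (n / K) (n % K) n θ (fun X Y => (lcs X Y : ℝ)) ≤ n := by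
  obtain ⟨ht0, ht1⟩ := h.mem h1 h2
  constructor
  · have := Et_mono h.hk h.hK w (n / K) (n % K) n θ ht0 (by linarith)
      (F := fun _ _ => (0 : ℝ)) (G := fun X Y => (lcs X Y : ℝ)) (fun X Y _ _ => Nat.cast_nonneg _)
    rwa [Et_const h.hk h.hK w _ _ _ θ ht0 (by linarith)] at this
  · have := Et_mono h.hk h.hK w (n / K) (n % K) n θ ht0 (by linarith)
      (F := fun X Y => (lcs X Y : ℝ)) (G := fun _ _ => (n : ℝ))
      (fun X Y _ hY => by
        have := lcs_le_right X Y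
        rw [hY] at this
        exact_mod_cast this)
    rwa [Et_const h.hk h.hK w _ _ _ θ ht0 (by linarith)] at this

/-- the increase of the potential between `p - h` and `p + h` -/
theorem phi_le (h : Drift k K w p ε δ c n0) (n : ℕ) (hn : 0 < n) (lam v hh kap : ℝ)
    (hl : 0 < lam) (hh0 : 0 ≤ hh) (hh1 : hh ≤ ε) (hh2 : n * hh ≤ √(n : ℝ)) (hkap : 0 ≤ kap)
    (hkl : kap ≤ lam) (hK : kap * ((K : ℝ) ^ 2 + 2) ≤ 1) (hv0 : 0 ≤ v) (hv1 : v ≤ n) :
    Et w (n / K) (n % K) n (p + hh) (fun X Y => Vf lam v (lcs X Y)) -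
      Et w (n / K) (n % K) n (p - hh) (fun X Y => Vf lam v (lcs X Y)) ≤
      2 * (Real.exp (16 * kap) * Real.exp (-(kap / 4 *
        (v - Et w (n / K) (n % K) n p (fun X Y => (lcs X Y : ℝ))) ^ 2 / n))) := by
  have hn' : (0 : ℝ) < n := by exact_mod_cast hn
  have he0 := h.he0
  set M := Et w (n / K) (n % K) n p (fun X Y => (lcs X Y : ℝ)) with hM
  have hMr := mean_range h n p (by linarith) (by linarith)
  rw [← hM] at hMr
  obtain ⟨hp0, hp1⟩ := h.mem (θ := p + hh) (by linarith) (by linarith)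
  obtain ⟨hm0, hm1⟩ := h.mem (θ := p - hh) (by linarith) (by linarith)
  rcases le_total M v with hMv | hMv
  · -- v above the mean
    have ht : 0 ≤ v - M := by linarith
    have htau : kap * (v - M) / n ≤ kap := by
      rw [div_le_iff₀ hn']
      exact mul_le_mul_of_nonneg_left (by linarith) hkap
    have hlip := mean_lip h n (p + hh) (by linarith) (by linarith)
    rw [add_sub_cancel_left, abs_of_nonneg hh0, ← hM] at hlip
    have h3 := exp_le h n hn (p + hh) (by linarith) (by linarith) kap (v - M) 1 v ht hkap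
      (Or.inl rfl) hK (by
        have := (abs_le.1 hlip).2
        linarith)
    refine le_trans ?_ h3
    have h4 : Et w (n / K) (n % K) n (p + hh) (fun X Y => Vf lam v (lcs X Y) + 1) ≤
        Et w (n / K) (n % K) n (p + hh) (fun X Y =>
          2 * Real.exp (kap * (v - M) / n * (1 * (lcs X Y - v)))) := by
      apply Et_mono h.hk h.hK w _ _ _ _ hp0 (by linarith)
      intro X Y _ _
      have := Vf_add_one_le (lam := lam) (kap * (v - M) / n) v (lcs X Y) (by positivity)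
        (htau.trans hkl)
      rwa [one_mul]
    have h5 : (-1 : ℝ) ≤ Et w (n / K) (n % K) n (p - hh) (fun X Y => Vf lam v (lcs X Y)) := by
      have := Et_mono h.hk h.hK w (n / K) (n % K) n (p - hh) hm0 (by linarith)
        (F := fun _ _ => (-1 : ℝ)) (G := fun X Y => Vf lam v (lcs X Y))
        (fun X Y _ _ => neg_one_le_Vf hl.le _ _)
      rwa [Et_const h.hk h.hK w _ _ _ _ hm0 (by linarith)] at this
    rw [Et_add, Et_const h.hk h.hK w _ _ _ _ hp0 (by linarith)] at h4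
    linarith
  · -- v below the mean
    have ht : 0 ≤ M - v := by linarith
    have htau : kap * (M - v) / n ≤ kap := by
      rw [div_le_iff₀ hn']
      exact mul_le_mul_of_nonneg_left (by linarith) hkap
    have hlip := mean_lip h n (p - hh) (by linarith) (by linarith)
    rw [sub_sub_cancel_left, abs_neg, abs_of_nonneg hh0, ← hM] at hlip
    have h3 := exp_le h n hn (p - hh) (by linarith) (by linarith) kap (M - v) (-1) v ht hkap
      (Or.inr rfl) hK (by
        have := (abs_le.1 hlip).1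
        linarith)
    have e : (v - M) ^ 2 = (M - v) ^ 2 := by ring
    rw [e]
    refine le_trans ?_ h3
    have h4 : Et w (n / K) (n % K) n (p - hh) (fun X Y => 1 + (-1) * Vf lam v (lcs X Y)) ≤
        Et w (n / K) (n % K) n (p - hh) (fun X Y =>
          2 * Real.exp (kap * (M - v) / n * ((-1) * (lcs X Y - v)))) := by
      apply Et_mono h.hk h.hK w _ _ _ _ hm0 (by linarith)
      intro X Y _ _
      have h5 := one_sub_Vf_le (lam := lam) (kap * (M - v) / n) v (lcs X Y) (by positivity)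
        (htau.trans hkl)
      have e3 : kap * (M - v) / n * ((-1) * ((lcs X Y : ℝ) - v)) =
        -(kap * (M - v) / n * ((lcs X Y : ℝ) - v)) := by ring
      rw [e3]
      linarith
    have h5 : Et w (n / K) (n % K) n (p + hh) (fun X Y => Vf lam v (lcs X Y)) ≤ (1 : ℝ) := by
      have := Et_mono h.hk h.hK w (n / K) (n % K) n (p + hh) hp0 (by linarith)
        (F := fun X Y => Vf lam v (lcs X Y)) (G := fun _ _ => (1 : ℝ))
        (fun X Y _ _ => Vf_le_one hl.le _ _)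
      rwa [Et_const h.hk h.hK w _ _ _ _ hp0 (by linarith)] at this
    rw [Et_add, Et_mul, Et_const h.hk h.hK w _ _ _ _ hm0 (by linarith)] at h4
    linarith

end LCSA
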